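import Mathlib

/-!
MP_ca1492_al (Prasad, Chan). KLR algebras of simply laced quivers over ℂ: definitions.

* `Dat` : a finite type of letters `J` with arrows.
* `R D n` : the KLR algebra of rank n with ALL words `Fin n → J`, given by generators
  `ew w` (idempotents), `yk k` (k : Fin n), `ps r` (r : ℕ, zero unless r + 1 < n) and relations.
* `liftR` : the universal property (`IsRep`).
* `pol` : polynomials in the `yk`.
* `Cc p q = ps p * ps (p+1) * ... * ps (q-1)`.
* `Fil d` : span of the products with at most d factors `ps`.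
-/

namespace CA1492

open MvPolynomial

/-- Letters with arrows: `arr i j = true` means that there is an arrow from i to j. -/
structure Dat where
  J : Type
  [fJ : Fintype J]
  [dJ : DecidableEq J]
  arr : J → J → Bool
  irr : ∀ i, arr i i = false
  asym : ∀ i j, arr i j = true → arr j i = false

attribute [instance] Dat.fJ Dat.dJ

/-- Words of length n. -/
abbrev Wd (D : Dat) (n : ℕ) : Type := Fin n → D.J

/-- Adjacent transposition of the positions r and r+1 (the identity if r+1 is out of range). -/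
def sw (n r : ℕ) : Equiv.Perm (Fin n) :=
  if h : r + 1 < n then Equiv.swap ⟨r, by omega⟩ ⟨r + 1, h⟩ else 1

/-- Degree of psi on a word with letters i, j at the two positions. -/
def dg (D : Dat) (i j : D.J) : ℤ :=
  if i = j then -2 else if (D.arr i j || D.arr j i) = true then 1 else 0

/-- A system of elements of an algebra satisfying the KLR relations. -/
structure IsRep (D : Dat) (n : ℕ) {A : Type*} [Ring A] [Algebra ℂ A]
    (E : Wd D n → A) (Y : Fin n → A) (S : ℕ → A) : Prop where
  S_out : ∀ r, ¬ (r + 1 < n) → S r = 0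
  E_mul : ∀ w w', E w * E w' = if w = w' then E w else 0
  E_sum : ∑ w, E w = 1
  Y_E : ∀ k w, Y k * E w = E w * Y k
  Y_Y : ∀ k l, Y k * Y l = Y l * Y k
  S_E : ∀ r w, S r * E w = E (w ∘ sw n r) * S r
  S_far : ∀ r s, r + 1 < s → S r * S s = S s * S r
  S_Y : ∀ (r : ℕ) (h : r + 1 < n) (k : Fin n) (w : Wd D n),
    S r * Y k * E w = Y (sw n r k) * S r * E w +
      (if w ⟨r, by omega⟩ = w ⟨r + 1, h⟩ then
        (if k = ⟨r, by omega⟩ then (1 : ℂ) else if k = ⟨r + 1, h⟩ then -1 else 0) else 0) • E w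
  S_S : ∀ (r : ℕ) (h : r + 1 < n) (w : Wd D n),
    S r * S r * E w =
      if w ⟨r, by omega⟩ = w ⟨r + 1, h⟩ then 0
      else if D.arr (w ⟨r, by omega⟩) (w ⟨r + 1, h⟩) = true then
        (Y ⟨r, by omega⟩ - Y ⟨r + 1, h⟩) * E w
      else if D.arr (w ⟨r + 1, h⟩) (w ⟨r, by omega⟩) = true then
        (Y ⟨r + 1, h⟩ - Y ⟨r, by omega⟩) * E w
      else E w
  S_braid : ∀ (r : ℕ) (h : r + 2 < n) (w : Wd D n),
    (S (r + 1) * S r * S (r + 1) - S r * S (r + 1) * S r) * E w =
      (if w ⟨r, by omega⟩ = w ⟨r + 2, h⟩ then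
        (if D.arr (w ⟨r, by omega⟩) (w ⟨r + 1, by omega⟩) = true then (-1 : ℂ)
         else if D.arr (w ⟨r + 1, by omega⟩) (w ⟨r, by omega⟩) = true then 1 else 0) else 0) • E w

/-- Generators. -/
inductive Gen (D : Dat) (n : ℕ) : Type
  | e (w : Wd D n) : Gen D n
  | y (k : Fin n) : Gen D n
  | s (r : ℕ) : Gen D n

/-- The free algebra. -/
abbrev FA (D : Dat) (n : ℕ) : Type := FreeAlgebra ℂ (Gen D n)

/-- Generators in the free algebra. -/
noncomputable def fe {D : Dat} {n : ℕ} (w : Wd D n) : FA D n := FreeAlgebra.ι ℂ (Gen.e w)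
noncomputable def fy {D : Dat} {n : ℕ} (k : Fin n) : FA D n := FreeAlgebra.ι ℂ (Gen.y k)
noncomputable def fs {D : Dat} {n : ℕ} (r : ℕ) : FA D n := FreeAlgebra.ι ℂ (Gen.s r)

/-- The KLR relations. -/
inductive Rel (D : Dat) (n : ℕ) : FA D n → FA D n → Prop
  | S_out (r : ℕ) (h : ¬ (r + 1 < n)) : Rel D n (fs r) 0
  | E_mul (w w' : Wd D n) : Rel D n (fe w * fe w') (if w = w' then fe w else 0)
  | E_sum : Rel D n (∑ w, fe w) 1
  | Y_E (k : Fin n) (w : Wd D n) : Rel D n (fy k * fe w) (fe w * fy k)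
  | Y_Y (k l : Fin n) : Rel D n (fy k * fy l) (fy l * fy k)
  | S_E (r : ℕ) (w : Wd D n) : Rel D n (fs r * fe w) (fe (w ∘ sw n r) * fs r)
  | S_far (r s : ℕ) (h : r + 1 < s) : Rel D n (fs r * fs s) (fs s * fs r)
  | S_Y (r : ℕ) (h : r + 1 < n) (k : Fin n) (w : Wd D n) :
    Rel D n (fs r * fy k * fe w) (fy (sw n r k) * fs r * fe w +
      (if w ⟨r, by omega⟩ = w ⟨r + 1, h⟩ then
        (if k = ⟨r, by omega⟩ then (1 : ℂ) else if k = ⟨r + 1, h⟩ then -1 else 0) else 0) • fe w)
  | S_S (r : ℕ) (h : r + 1 < n) (w : Wd D n) :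
    Rel D n (fs r * fs r * fe w)
      (if w ⟨r, by omega⟩ = w ⟨r + 1, h⟩ then 0
      else if D.arr (w ⟨r, by omega⟩) (w ⟨r + 1, h⟩) = true then
        (fy ⟨r, by omega⟩ - fy ⟨r + 1, h⟩) * fe w
      else if D.arr (w ⟨r + 1, h⟩) (w ⟨r, by omega⟩) = true then
        (fy ⟨r + 1, h⟩ - fy ⟨r, by omega⟩) * fe w
      else fe w)
  | S_braid (r : ℕ) (h : r + 2 < n) (w : Wd D n) :
    Rel D n ((fs (r + 1) * fs r * fs (r + 1) - fs r * fs (r + 1) * fs r) * fe w)
      ((if w ⟨r, by omega⟩ = w ⟨r + 2, h⟩ then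
        (if D.arr (w ⟨r, by omega⟩) (w ⟨r + 1, by omega⟩) = true then (-1 : ℂ)
         else if D.arr (w ⟨r + 1, by omega⟩) (w ⟨r, by omega⟩) = true then 1 else 0) else 0) • fe w)

/-- The KLR algebra of rank n. -/
def R (D : Dat) (n : ℕ) : Type := RingQuot (Rel D n)

noncomputable instance (D : Dat) (n : ℕ) : Ring (R D n) :=
  inferInstanceAs (Ring (RingQuot (Rel D n)))
noncomputable instance (D : Dat) (n : ℕ) : Algebra ℂ (R D n) :=
  inferInstanceAs (Algebra ℂ (RingQuot (Rel D n)))

variable {D : Dat} {n : ℕ}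

/-- The quotient map. -/
noncomputable def mkR (D : Dat) (n : ℕ) : FA D n →ₐ[ℂ] R D n := RingQuot.mkAlgHom ℂ (Rel D n)

/-- Idempotent of a word. -/
noncomputable def ew (w : Wd D n) : R D n := mkR D n (fe w)
/-- The variable y_k. -/
noncomputable def yk (k : Fin n) : R D n := mkR D n (fy k)
/-- The generator psi_r. -/
noncomputable def ps (r : ℕ) : R D n := mkR D n (fs r)

lemma mkR_rel {a b : FA D n} (h : Rel D n a b) : mkR D n a = mkR D n b :=
  RingQuot.mkAlgHom_rel ℂ h

/-- The generators of `R D n` satisfy the relations. -/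
theorem isRep_R (D : Dat) (n : ℕ) :
    IsRep D n (A := R D n) (fun w => ew w) (fun k => yk k) (fun r => ps r) where
  S_out r h := by simpa [ps] using mkR_rel (Rel.S_out (D := D) r h)
  E_mul w w' := by
    have := mkR_rel (Rel.E_mul w w')
    rw [map_mul] at this
    rw [show ew w * ew w' = _ from this]
    split_ifs <;> simp [ew]
  E_sum := by
    have := mkR_rel (Rel.E_sum (D := D) (n := n))
    rw [map_sum, map_one] at this
    exact this
  Y_E k w := by simpa [ew, yk] using mkR_rel (Rel.Y_E k w)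
  Y_Y k l := by simpa [yk] using mkR_rel (Rel.Y_Y (D := D) k l)
  S_E r w := by simpa [ew, ps] using mkR_rel (Rel.S_E r w)
  S_far r s h := by simpa [ps] using mkR_rel (Rel.S_far (D := D) (n := n) r s h)
  S_Y r h k w := by
    have := mkR_rel (Rel.S_Y r h k w)
    simp only [map_add, map_mul, map_smul] at this
    exact this
  S_S r h w := by
    have := mkR_rel (Rel.S_S r h w)
    simp only [map_mul] at this
    rw [show ps r * ps r * ew w = _ from this]
    split_ifs <;> simp [ew, yk]
  S_braid r h w := by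
    have := mkR_rel (Rel.S_braid r h w)
    simp only [map_sub, map_mul, map_smul] at this
    exact this

/-- The images of the generators. -/
def genMap {A : Type*} (E : Wd D n → A) (Y : Fin n → A) (S : ℕ → A) : Gen D n → A
  | .e w => E w
  | .y k => Y k
  | .s r => S r

/-- The universal property. -/
noncomputable def liftR {A : Type*} [Ring A] [Algebra ℂ A]
    {E : Wd D n → A} {Y : Fin n → A} {S : ℕ → A} (h : IsRep D n E Y S) : R D n →ₐ[ℂ] A :=
  RingQuot.liftAlgHom ℂ ⟨FreeAlgebra.lift ℂ (genMap E Y S), by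
    intro a b hab
    cases hab with
    | S_out r hr => simpa [fs, genMap] using h.S_out r hr
    | E_mul w w' =>
      have := h.E_mul w w'
      simp only [map_mul, fe, FreeAlgebra.lift_ι_apply, genMap]
      rw [this]
      split_ifs <;> simp [genMap]
    | E_sum => simpa [fe, genMap] using h.E_sum
    | Y_E k w => simpa [fe, fy, genMap] using h.Y_E k w
    | Y_Y k l => simpa [fy, genMap] using h.Y_Y k l
    | S_E r w => simpa [fe, fs, genMap] using h.S_E r w
    | S_far r s hrs => simpa [fs, genMap] using h.S_far r s hrs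
    | S_Y r hr k w =>
      have := h.S_Y r hr k w
      simp only [map_add, map_mul, map_smul, fe, fy, fs, FreeAlgebra.lift_ι_apply, genMap]
      exact this
    | S_S r hr w =>
      have := h.S_S r hr w
      simp only [map_mul, fe, fs, FreeAlgebra.lift_ι_apply, genMap]
      rw [this]
      split_ifs <;> simp [fy, genMap]
    | S_braid r hr w =>
      have := h.S_braid r hr w
      simp only [map_sub, map_mul, map_smul, fe, fs, FreeAlgebra.lift_ι_apply, genMap]
      exact this⟩

section lift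
variable {A : Type*} [Ring A] [Algebra ℂ A]
    {E : Wd D n → A} {Y : Fin n → A} {S : ℕ → A} (h : IsRep D n E Y S)

lemma liftR_mkR (a : FA D n) : liftR h (mkR D n a) = FreeAlgebra.lift ℂ (genMap E Y S) a :=
  RingQuot.liftAlgHom_mkAlgHom_apply ℂ _ _ a

@[simp] lemma liftR_ew (w : Wd D n) : liftR h (ew w) = E w := by
  rw [ew, liftR_mkR]; simp [fe, genMap]
@[simp] lemma liftR_yk (k : Fin n) : liftR h (yk k) = Y k := by
  rw [yk, liftR_mkR]; simp [fy, genMap]
@[simp] lemma liftR_ps (r : ℕ) : liftR h (ps r) = S r := by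
  rw [ps, liftR_mkR]; simp [fs, genMap]

/-- Homomorphisms out of `R D n` are determined by the generators. -/
theorem R_hom_ext {f g : R D n →ₐ[ℂ] A} (he : ∀ w, f (ew w) = g (ew w))
    (hy : ∀ k, f (yk k) = g (yk k)) (hs : ∀ r, f (ps r) = g (ps r)) : f = g := by
  have : f.comp (mkR D n) = g.comp (mkR D n) := by
    apply FreeAlgebra.hom_ext
    funext x
    cases x with
    | e w => exact he w
    | y k => exact hy k
    | s r => exact hs r
  apply RingQuot.ringQuot_ext'
  exact this

/-- Induction principle: a property that holds for the generators and the scalars and is closed under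
sums and products holds on `R D n`. -/
theorem R_induction {p : R D n → Prop} (hc : ∀ c : ℂ, p (algebraMap ℂ _ c))
    (he : ∀ w, p (ew w)) (hy : ∀ k, p (yk k)) (hs : ∀ r, p (ps r))
    (ha : ∀ x y, p x → p y → p (x + y)) (hm : ∀ x y, p x → p y → p (x * y)) (x : R D n) : p x := by
  obtain ⟨a, rfl⟩ := RingQuot.mkAlgHom_surjective ℂ (Rel D n) x
  induction a using FreeAlgebra.induction with
  | grade0 c => rw [AlgHom.commutes]; exact hc c
  | grade1 x =>
    cases x with
    | e w => exact he w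
    | y k => exact hy k
    | s r => exact hs r
  | mul a b ha' hb' => rw [map_mul]; exact hm _ _ ha' hb'
  | add a b ha' hb' => rw [map_add]; exact ha _ _ ha' hb'

end lift

/-- Polynomials in the y_k. -/
theorem exists_pol (D : Dat) (n : ℕ) : ∃ f : MvPolynomial (Fin n) ℂ →ₐ[ℂ] R D n,
    ∀ k, f (X k) = yk k := by
  let _ : CommRing (Algebra.adjoin ℂ (Set.range (fun k : Fin n => (yk k : R D n)))) :=
    Algebra.adjoinCommRingOfComm ℂ (by
      rintro _ ⟨a, rfl⟩ _ ⟨b, rfl⟩
      exact (isRep_R D n).Y_Y a b)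
  refine ⟨(Algebra.adjoin ℂ (Set.range (fun k : Fin n => (yk k : R D n)))).val.comp
    (aeval (fun k => ⟨yk k, Algebra.subset_adjoin ⟨k, rfl⟩⟩)), fun k => ?_⟩
  simp

/-- Polynomials in the y_k, as elements of the KLR algebra. -/
noncomputable def pol {D : Dat} {n : ℕ} : MvPolynomial (Fin n) ℂ →ₐ[ℂ] R D n :=
  (exists_pol D n).choose

@[simp] lemma pol_X (k : Fin n) : (pol (X k) : R D n) = yk k := (exists_pol D n).choose_spec k

lemma pol_ew (f : MvPolynomial (Fin n) ℂ) (w : Wd D n) :
    (pol f : R D n) * ew w = ew w * pol f := by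
  induction f using MvPolynomial.induction_on with
  | C a => rw [← MvPolynomial.algebraMap_eq, AlgHom.commutes, Algebra.commutes]
  | add p q hp hq => rw [map_add, add_mul, mul_add, hp, hq]
  | mul_X p k hp =>
    rw [map_mul, pol_X, mul_assoc, (isRep_R D n).Y_E, ← mul_assoc, hp, mul_assoc]

/-- The product ps p * ps (p+1) * ... * ps (q-1); it moves the letter at position q to position p
(it is 1 if q ≤ p). -/
noncomputable def Cc {D : Dat} {n : ℕ} (p q : ℕ) : R D n :=
  ((List.range' p (q - p)).map (fun r => (ps r : R D n))).prod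

/-- `Fil D n s d`: span of the products with at most d factors `ps r`, all with r + 1 < s
(and any number of factors `yk`, `ew`). -/
noncomputable def Fil (D : Dat) (n s : ℕ) : ℕ → Submodule ℂ (R D n)
  | 0 => Submodule.span ℂ {x | ∃ (f : MvPolynomial (Fin n) ℂ) (w : Wd D n), x = pol f * ew w}
  | d + 1 => Fil D n s d ⊔
      Submodule.span ℂ {x | ∃ (r : ℕ) (z : R D n), r + 1 < s ∧ z ∈ Fil D n s d ∧ x = ps r * z}

/-- The product for a sequence p 0, ..., p (k-1):
`Cc (p (k-1)) (m+k-1) * ... * Cc (p 1) (m+1) * Cc (p 0) m`. -/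
noncomputable def CS {D : Dat} {n : ℕ} (m : ℕ) : ℕ → (ℕ → ℕ) → R D n
  | 0, _ => 1
  | k + 1, p => Cc (p k) (m + k) * CS m k p

/-- Strictly increasing sequences with p j ≤ m + j (shuffles of m and k letters). -/
def IsSh (m k : ℕ) (p : ℕ → ℕ) : Prop :=
  (∀ j < k, p j ≤ m + j) ∧ (∀ j, j + 1 < k → p j < p (j + 1))

/-- The parabolic subalgebra: generated by all `ew`, all `yk` and the `ps r` with
r + 1 < m + k and r + 1 ≠ m. -/
noncomputable def Par (D : Dat) (n m k : ℕ) : Subalgebra ℂ (R D n) :=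
  Algebra.adjoin ℂ ({x | ∃ w, x = ew w} ∪ {x | ∃ j, x = yk j} ∪
    {x | ∃ r : ℕ, r + 1 < m + k ∧ r + 1 ≠ m ∧ x = ps r})

/-- Number of factors ps in `CS m k p`. -/
def lenS (m k : ℕ) (p : ℕ → ℕ) : ℕ := ∑ j ∈ Finset.range k, (m + j - p j)

end CA1492
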