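import Mathlib
import Pool.Agent.Lib.MP_ca1492_al.Alg.Defs

/-!
The parabolic embeddings of `R D m` (first m positions) and `R D k` (last k positions) in
`R D (m + k)`.
-/

namespace CA1492

open MvPolynomial TensorProduct

variable {D : Dat}

/-- The embedding of the positions `0, ..., m-1` as `a, ..., a+m-1`. -/
def iotaPhi (N m a : ℕ) (h : a + m ≤ N) (j : Fin m) : Fin N := ⟨a + j, by omega⟩

lemma iota_sw_phi (N m a : ℕ) (h : a + m ≤ N) (r : ℕ) (hr : r + 1 < m) (j : Fin m) :
    sw N (a + r) (iotaPhi N m a h j) = iotaPhi N m a h (sw m r j) := by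
  have h1 : a + r + 1 < N := by omega
  simp only [sw, hr, h1, dif_pos, iotaPhi, Equiv.swap_apply_def, Fin.ext_iff]
  split_ifs <;> simp_all <;> omega

lemma iota_sw_sw (n r : ℕ) (j : Fin n) : sw n r (sw n r j) = j := by
  unfold sw
  split_ifs <;> simp

lemma iota_comp_sw_sw {n : ℕ} (r : ℕ) (w : Wd D n) : (w ∘ sw n r) ∘ sw n r = w := by
  funext j
  simp [iota_sw_sw]

/-- The sum of the idempotents of the words that extend `u`. -/
noncomputable def iotaE (D : Dat) (N m a : ℕ) (h : a + m ≤ N) (u : Wd D m) : R D N :=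
  ∑ w ∈ Finset.univ.filter (fun w : Wd D N => w ∘ iotaPhi N m a h = u), ew w

lemma iota_S_E (N m a : ℕ) (h : a + m ≤ N) (r : ℕ) (hr : r + 1 < m) (u : Wd D m) :
    ps (a + r) * iotaE D N m a h u = iotaE D N m a h (u ∘ sw m r) * ps (a + r) := by
  unfold iotaE
  rw [Finset.mul_sum, Finset.sum_mul]
  refine Finset.sum_bij' (fun w _ => w ∘ sw N (a + r)) (fun w _ => w ∘ sw N (a + r)) ?_ ?_ ?_ ?_ ?_
  · intro w hw
    simp only [Finset.mem_filter, Finset.mem_univ, true_and] at hw ⊢
    funext j
    simp only [Function.comp_apply]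
    rw [iota_sw_phi N m a h r hr, ← hw]
    rfl
  · intro w hw
    simp only [Finset.mem_filter, Finset.mem_univ, true_and] at hw ⊢
    funext j
    simp only [Function.comp_apply]
    rw [iota_sw_phi N m a h r hr]
    have := congrFun hw (sw m r j)
    simp only [Function.comp_apply, iota_sw_sw] at this
    exact this
  · intro w _
    exact iota_comp_sw_sw _ _
  · intro w _
    exact iota_comp_sw_sw _ _
  · intro w _
    exact (isRep_R D N).S_E _ _

/-- The interval subalgebra: the KLR relations. -/
theorem iota_isRep (D : Dat) (N m a : ℕ) (h : a + m ≤ N) :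
    IsRep D m (A := R D N) (iotaE D N m a h) (fun j => yk (iotaPhi N m a h j))
      (fun r => if r + 1 < m then ps (a + r) else 0) where
  S_out r hr := by simp [hr]
  E_mul u u' := by
    unfold iotaE
    rw [Finset.sum_mul_sum]
    simp only [(isRep_R D N).E_mul]
    split_ifs with huu
    · subst huu
      refine Finset.sum_congr rfl fun w hw => ?_
      rw [Finset.sum_ite_eq, if_pos hw]
    · refine Finset.sum_eq_zero fun w hw => ?_
      rw [Finset.sum_ite_eq, if_neg]
      simp only [Finset.mem_filter, Finset.mem_univ, true_and] at hw ⊢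
      rw [hw]
      exact huu
  E_sum := by
    unfold iotaE
    rw [Finset.sum_fiberwise]
    exact (isRep_R D N).E_sum
  Y_E j u := by
    unfold iotaE
    rw [Finset.mul_sum, Finset.sum_mul]
    exact Finset.sum_congr rfl fun w _ => (isRep_R D N).Y_E _ _
  Y_Y j l := (isRep_R D N).Y_Y _ _
  S_E r u := by
    by_cases hr : r + 1 < m
    · simp only [hr, if_true]
      exact iota_S_E N m a h r hr u
    · simp [hr]
  S_far r s hrs := by
    by_cases hs : s + 1 < m
    · have hr : r + 1 < m := by omega
      simp only [hs, hr, if_true]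
      exact (isRep_R D N).S_far _ _ (by omega)
    · simp [hs]
  S_Y r hr j u := by
    simp only [hr, if_true]
    rw [← iota_sw_phi N m a h r hr]
    unfold iotaE
    rw [Finset.mul_sum, Finset.mul_sum, Finset.smul_sum, ← Finset.sum_add_distrib]
    refine Finset.sum_congr rfl fun w hw => ?_
    simp only [Finset.mem_filter, Finset.mem_univ, true_and] at hw
    subst hw
    have := (isRep_R D N).S_Y (a + r) (by omega) (iotaPhi N m a h j) w
    simp only [Function.comp_apply]
    rw [this]
    congr 2
    simp only [iotaPhi, Fin.ext_iff, Nat.add_left_cancel_iff, add_assoc]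
  S_S r hr u := by
    simp only [hr, if_true]
    unfold iotaE
    rw [Finset.mul_sum, Finset.mul_sum, Finset.mul_sum]
    have key : ∀ w : Wd D N, w ∘ iotaPhi N m a h = u → (ps (a + r) * ps (a + r) * ew w : R D N) =
      if u ⟨r, by omega⟩ = u ⟨r + 1, hr⟩ then 0
      else if D.arr (u ⟨r, by omega⟩) (u ⟨r + 1, hr⟩) = true then
        (yk (iotaPhi N m a h ⟨r, by omega⟩) - yk (iotaPhi N m a h ⟨r + 1, hr⟩)) * ew w
      else if D.arr (u ⟨r + 1, hr⟩) (u ⟨r, by omega⟩) = true then
        (yk (iotaPhi N m a h ⟨r + 1, hr⟩) - yk (iotaPhi N m a h ⟨r, by omega⟩)) * ew w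
      else ew w := by
      intro w hw
      subst hw
      exact (isRep_R D N).S_S (a + r) (by omega) w
    split_ifs at key ⊢ with h1 h2 h3
    · exact Finset.sum_eq_zero fun w hw => key w (by simpa using hw)
    · exact Finset.sum_congr rfl fun w hw => key w (by simpa using hw)
    · exact Finset.sum_congr rfl fun w hw => key w (by simpa using hw)
    · exact Finset.sum_congr rfl fun w hw => key w (by simpa using hw)
  S_braid r hr u := by
    have hr1 : r + 1 < m := by omega
    have hr2 : r + 1 + 1 < m := by omega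
    simp only [hr1, hr2, if_true]
    unfold iotaE
    rw [Finset.mul_sum, Finset.smul_sum]
    refine Finset.sum_congr rfl fun w hw => ?_
    simp only [Finset.mem_filter, Finset.mem_univ, true_and] at hw
    subst hw
    exact (isRep_R D N).S_braid (a + r) (by omega) w

lemma iotaE_L (m k : ℕ) (u : Wd D m) :
    iotaE D (m + k) m 0 (by omega) u = ∑ v : Wd D k, ew (Fin.append u v) := by
  unfold iotaE
  symm
  refine Finset.sum_bij (fun v _ => Fin.append u v) ?_ ?_ ?_ ?_
  · intro v _
    simp only [Finset.mem_filter, Finset.mem_univ, true_and]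
    funext j
    have : iotaPhi (m + k) m 0 (by omega) j = Fin.castAdd k j := by
      ext; simp [iotaPhi]
    simp only [Function.comp_apply, this, Fin.append_left]
  · intro v _ v' _ hv
    funext j
    have := congrFun hv (Fin.natAdd m j)
    simpa using this
  · intro w hw
    simp only [Finset.mem_filter, Finset.mem_univ, true_and] at hw
    refine ⟨fun j => w (Fin.natAdd m j), Finset.mem_univ _, ?_⟩
    funext j
    refine Fin.addCases (fun i => ?_) (fun i => ?_) j
    · rw [Fin.append_left, ← hw]
      simp only [Function.comp_apply]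
      congr 1
      ext; simp [iotaPhi]
    · rw [Fin.append_right]
  · intro v _
    rfl

lemma iotaE_R (m k : ℕ) (v : Wd D k) :
    iotaE D (m + k) k m (by omega) v = ∑ u : Wd D m, ew (Fin.append u v) := by
  unfold iotaE
  symm
  refine Finset.sum_bij (fun u _ => Fin.append u v) ?_ ?_ ?_ ?_
  · intro u _
    simp only [Finset.mem_filter, Finset.mem_univ, true_and]
    funext j
    have : iotaPhi (m + k) k m (by omega) j = Fin.natAdd m j := by
      ext; simp [iotaPhi]
    simp only [Function.comp_apply, this, Fin.append_right]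
  · intro u _ u' _ hu
    funext j
    have := congrFun hu (Fin.castAdd k j)
    simpa using this
  · intro w hw
    simp only [Finset.mem_filter, Finset.mem_univ, true_and] at hw
    refine ⟨fun j => w (Fin.castAdd k j), Finset.mem_univ _, ?_⟩
    funext j
    refine Fin.addCases (fun i => ?_) (fun i => ?_) j
    · rw [Fin.append_left]
    · rw [Fin.append_right, ← hw]
      simp only [Function.comp_apply]
      congr 1
  · intro v _
    rfl

/-- PROOF: `liftR` with the given elements; check the relations `IsRep` with `isRep_R D (m + k)`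
multiplied by ew (Fin.append u v) and summed over v. Useful: Fin.append is injective in the pair,
every word of length m + k is Fin.append u v for exactly one pair
(`Fin.appendEquiv`, `Fin.append_castAdd_natAdd`), and
Fin.append u v ∘ sw (m+k) r = Fin.append (u ∘ sw m r) v for r + 1 < m. -/
theorem exists_iotaL (D : Dat) (m k : ℕ) : ∃ f : R D m →ₐ[ℂ] R D (m + k),
    (∀ u : Wd D m, f (ew u) = ∑ v : Wd D k, ew (Fin.append u v)) ∧
    (∀ j, f (yk j) = yk (Fin.castAdd k j)) ∧
    (∀ r, r + 1 < m → f (ps r) = ps r) := by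
  refine ⟨liftR (iota_isRep D (m + k) m 0 (by omega)), fun u => ?_, fun j => ?_, fun r hr => ?_⟩
  · rw [liftR_ew, iotaE_L]
  · rw [liftR_yk]
    congr 1
    ext; simp [iotaPhi]
  · rw [liftR_ps, if_pos hr, Nat.zero_add]

/-- PROOF: the same; Fin.append u v ∘ sw (m+k) (m+r) = Fin.append u (v ∘ sw k r) for r + 1 < k. -/
theorem exists_iotaR (D : Dat) (m k : ℕ) : ∃ f : R D k →ₐ[ℂ] R D (m + k),
    (∀ v : Wd D k, f (ew v) = ∑ u : Wd D m, ew (Fin.append u v)) ∧
    (∀ j, f (yk j) = yk (Fin.natAdd m j)) ∧
    (∀ r, r + 1 < k → f (ps r) = ps (m + r)) := by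
  refine ⟨liftR (iota_isRep D (m + k) k m (by omega)), fun u => ?_, fun j => ?_, fun r hr => ?_⟩
  · rw [liftR_ew, iotaE_R]
  · rw [liftR_yk]
    congr 1
  · rw [liftR_ps, if_pos hr]

noncomputable def iotaL (D : Dat) (m k : ℕ) : R D m →ₐ[ℂ] R D (m + k) := (exists_iotaL D m k).choose
noncomputable def iotaR (D : Dat) (m k : ℕ) : R D k →ₐ[ℂ] R D (m + k) := (exists_iotaR D m k).choose

lemma iotaL_spec (D : Dat) (m k : ℕ) :
    (∀ u : Wd D m, iotaL D m k (ew u) = ∑ v : Wd D k, ew (Fin.append u v)) ∧
    (∀ j, iotaL D m k (yk j) = yk (Fin.castAdd k j)) ∧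
    (∀ r, r + 1 < m → iotaL D m k (ps r) = ps r) := (exists_iotaL D m k).choose_spec

lemma iotaR_spec (D : Dat) (m k : ℕ) :
    (∀ v : Wd D k, iotaR D m k (ew v) = ∑ u : Wd D m, ew (Fin.append u v)) ∧
    (∀ j, iotaR D m k (yk j) = yk (Fin.natAdd m j)) ∧
    (∀ r, r + 1 < k → iotaR D m k (ps r) = ps (m + r)) := (exists_iotaR D m k).choose_spec

lemma iota_ps_out {n : ℕ} (r : ℕ) (h : ¬ (r + 1 < n)) : (ps r : R D n) = 0 :=
  (isRep_R D n).S_out r h

lemma iota_ps_yk {n : ℕ} (r : ℕ) (h : r + 1 < n) (j : Fin n) (h1 : j.val ≠ r)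
    (h2 : j.val ≠ r + 1) : (ps r * yk j : R D n) = yk j * ps r := by
  have hs : sw n r j = j := by
    simp only [sw, h, dif_pos]
    apply Equiv.swap_apply_of_ne_of_ne
    · intro hh; exact h1 (by rw [hh])
    · intro hh; exact h2 (by rw [hh])
  have key : ∀ w : Wd D n, (ps r * yk j * ew w : R D n) = yk j * ps r * ew w := by
    intro w
    have := (isRep_R D n).S_Y r h j w
    have e1 : ¬ j = ⟨r, by omega⟩ := fun hh => h1 (by rw [hh])
    have e2 : ¬ j = ⟨r + 1, h⟩ := fun hh => h2 (by rw [hh])
    simp only [e1, e2, if_false, ite_self, zero_smul, add_zero, hs] at this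
    exact this
  have e := (isRep_R D n).E_sum
  calc (ps r * yk j : R D n) = ps r * yk j * ∑ w, ew w := by rw [e, mul_one]
    _ = yk j * ps r * ∑ w, ew w := by
      rw [Finset.mul_sum, Finset.mul_sum]
      exact Finset.sum_congr rfl fun w _ => key w
    _ = yk j * ps r := by rw [e, mul_one]

lemma iota_ew_comm {n : ℕ} (w w' : Wd D n) : Commute (ew w : R D n) (ew w') := by
  unfold Commute SemiconjBy
  rw [(isRep_R D n).E_mul w w', (isRep_R D n).E_mul w' w]
  by_cases h : w = w'
  · subst h; rfl
  · rw [if_neg h, if_neg (Ne.symm h)]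

lemma iota_ps_L (m k : ℕ) (v : Wd D k) (r : ℕ) (hr : r + 1 < m) :
    Commute (ps r : R D (m + k)) (∑ u : Wd D m, ew (Fin.append u v)) := by
  unfold Commute SemiconjBy
  rw [Finset.mul_sum, Finset.sum_mul]
  refine Finset.sum_bij' (fun u _ => u ∘ sw m r) (fun u _ => u ∘ sw m r) ?_ ?_ ?_ ?_ ?_
  · intro _ _; exact Finset.mem_univ _
  · intro _ _; exact Finset.mem_univ _
  · intro w _; exact iota_comp_sw_sw _ _
  · intro w _; exact iota_comp_sw_sw _ _
  · intro u _
    rw [(isRep_R D (m + k)).S_E]
    congr 2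
    funext j
    have h1 : r + 1 < m + k := by omega
    refine Fin.addCases (fun i => ?_) (fun i => ?_) j
    · have := iota_sw_phi (m + k) m 0 (by omega) r hr i
      have e1 : ∀ i : Fin m, iotaPhi (m + k) m 0 (by omega) i = Fin.castAdd k i := by
        intro i; ext; simp [iotaPhi]
      rw [e1, e1, Nat.zero_add] at this
      simp only [Function.comp_apply, this, Fin.append_left]
    · have : sw (m + k) r (Fin.natAdd m i) = Fin.natAdd m i := by
        simp only [sw, h1, dif_pos]
        apply Equiv.swap_apply_of_ne_of_ne <;> (intro hh; simp [Fin.ext_iff] at hh; omega)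
      simp only [Function.comp_apply, this, Fin.append_right]

lemma iota_ps_R (m k : ℕ) (u : Wd D m) (r : ℕ) (hr : r + 1 < k) :
    Commute (ps (m + r) : R D (m + k)) (∑ v : Wd D k, ew (Fin.append u v)) := by
  unfold Commute SemiconjBy
  rw [Finset.mul_sum, Finset.sum_mul]
  refine Finset.sum_bij' (fun u _ => u ∘ sw k r) (fun u _ => u ∘ sw k r) ?_ ?_ ?_ ?_ ?_
  · intro _ _; exact Finset.mem_univ _
  · intro _ _; exact Finset.mem_univ _
  · intro w _; exact iota_comp_sw_sw _ _
  · intro w _; exact iota_comp_sw_sw _ _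
  · intro v _
    rw [(isRep_R D (m + k)).S_E]
    congr 2
    funext j
    have h1 : m + r + 1 < m + k := by omega
    refine Fin.addCases (fun i => ?_) (fun i => ?_) j
    · have : sw (m + k) (m + r) (Fin.castAdd k i) = Fin.castAdd k i := by
        simp only [sw, h1, dif_pos]
        apply Equiv.swap_apply_of_ne_of_ne <;> (intro hh; simp [Fin.ext_iff] at hh; omega)
      simp only [Function.comp_apply, this, Fin.append_left]
    · have := iota_sw_phi (m + k) k m (by omega) r hr i
      have e1 : ∀ i : Fin k, iotaPhi (m + k) k m (by omega) i = Fin.natAdd m i := by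
        intro i; ext; simp [iotaPhi]
      rw [e1, e1] at this
      simp only [Function.comp_apply, this, Fin.append_right]

/-- Everything that commutes with the images of the generators commutes with the image. -/
lemma iota_commute_of {A : Type*} [Ring A] [Algebra ℂ A] {n : ℕ} (f : R D n →ₐ[ℂ] A) (z : A)
    (he : ∀ w, Commute (f (ew w)) z) (hy : ∀ j, Commute (f (yk j)) z)
    (hs : ∀ r, r + 1 < n → Commute (f (ps r)) z) (x : R D n) : Commute (f x) z := by
  induction x using R_induction with
  | hc c => rw [AlgHom.commutes]; exact Algebra.commutes c z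
  | he w => exact he w
  | hy j => exact hy j
  | hs r =>
    by_cases hr : r + 1 < n
    · exact hs r hr
    · rw [iota_ps_out r hr, map_zero]; exact Commute.zero_left _
  | ha x y hx hy => rw [map_add]; exact hx.add_left hy
  | hm x y hx hy => rw [map_mul]; exact hx.mul_left hy

/-- PROOF: `R_induction` in both variables; on generators: idempotents commute (both products are
ew (Fin.append u v) or the double sum), yk with everything far, ps r * ps (m + r') with
r + 1 < m ≤ m + r'. ps r * ew: S_E. -/
theorem iota_comm (m k : ℕ) (x : R D m) (y : R D k) :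
    Commute (iotaL D m k x) (iotaR D m k y) := by
  obtain ⟨Le, Ly, Ls⟩ := iotaL_spec D m k
  obtain ⟨Re, Ry, Rs⟩ := iotaR_spec D m k
  refine iota_commute_of _ _ (fun u => ?_) (fun j => ?_) (fun r hr => ?_) x
  · refine (iota_commute_of _ _ (fun v => ?_) (fun j => ?_) (fun r hr => ?_) y).symm
    · rw [Le, Re]
      exact Commute.sum_left _ _ _ fun _ _ => Commute.sum_right _ _ _ fun _ _ => iota_ew_comm _ _
    · rw [Le, Ry]
      exact Commute.sum_right _ _ _ fun _ _ => (isRep_R D (m + k)).Y_E _ _
    · rw [Le, Rs r hr]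
      exact iota_ps_R m k u r hr
  · refine (iota_commute_of _ _ (fun v => ?_) (fun l => ?_) (fun r hr => ?_) y).symm
    · rw [Ly, Re]
      exact Commute.sum_left _ _ _ fun _ _ => ((isRep_R D (m + k)).Y_E _ _).symm
    · rw [Ly, Ry]
      exact (isRep_R D (m + k)).Y_Y _ _
    · rw [Ly, Rs r hr]
      exact iota_ps_yk (m + r) (by omega) _ (by simp; omega) (by simp; omega)
  · refine (iota_commute_of _ _ (fun v => ?_) (fun l => ?_) (fun r' hr' => ?_) y).symm
    · rw [Ls r hr, Re]
      exact (iota_ps_L m k v r hr).symm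
    · rw [Ls r hr, Ry]
      exact (iota_ps_yk r (by omega) _ (by simp; omega) (by simp; omega)).symm
    · rw [Ls r hr, Rs r' hr']
      exact ((isRep_R D (m + k)).S_far r (m + r') (by omega)).symm

/-- The parabolic embedding of the tensor product. -/
noncomputable def iota (D : Dat) (m k : ℕ) : R D m ⊗[ℂ] R D k →ₐ[ℂ] R D (m + k) :=
  Algebra.TensorProduct.lift (iotaL D m k) (iotaR D m k) (fun x y => iota_comm m k x y)

/-- PROOF: iotaL (ew u) * iotaR (ew v) = ∑∑ ew (append u v') * ew (append u' v), only (u, v) survives. -/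
theorem iota_ew' (m k : ℕ) (u : Wd D m) (v : Wd D k) :
    iota D m k (ew u ⊗ₜ ew v) = ew (Fin.append u v) := by
  obtain ⟨Le, Ly, Ls⟩ := iotaL_spec D m k
  obtain ⟨Re, Ry, Rs⟩ := iotaR_spec D m k
  rw [iota, Algebra.TensorProduct.lift_tmul, Le, Re, Finset.sum_mul_sum]
  rw [Finset.sum_eq_single v, Finset.sum_eq_single u]
  · rw [(isRep_R D (m + k)).E_mul, if_pos rfl]
  · intro u' _ hu'
    rw [(isRep_R D (m + k)).E_mul, if_neg]
    intro hh
    apply hu'
    funext j
    have := congrFun hh (Fin.castAdd k j)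
    simpa using this.symm
  · intro hh; exact absurd (Finset.mem_univ _) hh
  · intro v' _ hv'
    refine Finset.sum_eq_zero fun u' _ => ?_
    rw [(isRep_R D (m + k)).E_mul, if_neg]
    intro hh
    apply hv'
    funext j
    have := congrFun hh (Fin.natAdd m j)
    simpa using this
  · intro hh; exact absurd (Finset.mem_univ _) hh

lemma iota_mem_of {A : Type*} [Ring A] [Algebra ℂ A] {n : ℕ} (f : R D n →ₐ[ℂ] A)
    (S : Subalgebra ℂ A)
    (he : ∀ w, f (ew w) ∈ S) (hy : ∀ j, f (yk j) ∈ S)
    (hs : ∀ r, r + 1 < n → f (ps r) ∈ S) (x : R D n) : f x ∈ S := by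
  induction x using R_induction with
  | hc c => rw [AlgHom.commutes]; exact S.algebraMap_mem c
  | he w => exact he w
  | hy j => exact hy j
  | hs r =>
    by_cases hr : r + 1 < n
    · exact hs r hr
    · rw [iota_ps_out r hr, map_zero]; exact S.zero_mem
  | ha x y hx hy => rw [map_add]; exact S.add_mem hx hy
  | hm x y hx hy => rw [map_mul]; exact S.mul_mem hx hy

/-- PROOF: generators: iota (ew u ⊗ ew v) = ew (Fin.append u v) gives all idempotents; every j is
castAdd or natAdd; ps r with r + 1 < m or r = m + r', r' + 1 < k. Conversely `Algebra.adjoin`. -/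
theorem iota_range (m k : ℕ) : (iota D m k).range = Par D (m + k) m k := by
  obtain ⟨Le, Ly, Ls⟩ := iotaL_spec D m k
  obtain ⟨Re, Ry, Rs⟩ := iotaR_spec D m k
  have hL : ∀ x, iota D m k (x ⊗ₜ 1) = iotaL D m k x := by
    intro x; rw [iota, Algebra.TensorProduct.lift_tmul, map_one, mul_one]
  have hR : ∀ y, iota D m k (1 ⊗ₜ y) = iotaR D m k y := by
    intro x; rw [iota, Algebra.TensorProduct.lift_tmul, map_one, one_mul]
  have hew : ∀ w : Wd D (m + k), (ew w : R D (m + k)) ∈ Par D (m + k) m k := fun w =>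
    Algebra.subset_adjoin (Or.inl (Or.inl ⟨w, rfl⟩))
  have hyk : ∀ j : Fin (m + k), (yk j : R D (m + k)) ∈ Par D (m + k) m k := fun w =>
    Algebra.subset_adjoin (Or.inl (Or.inr ⟨w, rfl⟩))
  have hps : ∀ r : ℕ, r + 1 < m + k → r + 1 ≠ m → (ps r : R D (m + k)) ∈ Par D (m + k) m k :=
    fun r h1 h2 => Algebra.subset_adjoin (Or.inr ⟨r, h1, h2, rfl⟩)
  apply le_antisymm
  · rintro _ ⟨t, rfl⟩
    have : iota D m k t ∈ Par D (m + k) m k := by
      induction t using TensorProduct.induction_on with
      | zero => rw [map_zero]; exact Subalgebra.zero_mem _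
      | add x y hx hy => rw [map_add]; exact Subalgebra.add_mem _ hx hy
      | tmul x y =>
        rw [iota, Algebra.TensorProduct.lift_tmul]
        refine Subalgebra.mul_mem _ ?_ ?_
        · refine iota_mem_of _ _ (fun u => ?_) (fun j => ?_) (fun r hr => ?_) x
          · rw [Le]; exact Subalgebra.sum_mem _ fun v _ => hew _
          · rw [Ly]; exact hyk _
          · rw [Ls r hr]; exact hps r (by omega) (by omega)
        · refine iota_mem_of _ _ (fun u => ?_) (fun j => ?_) (fun r hr => ?_) y
          · rw [Re]; exact Subalgebra.sum_mem _ fun v _ => hew _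
          · rw [Ry]; exact hyk _
          · rw [Rs r hr]; exact hps (m + r) (by omega) (by omega)
    exact this
  · apply Algebra.adjoin_le
    rintro x ((⟨w, rfl⟩ | ⟨j, rfl⟩) | ⟨r, h1, h2, rfl⟩)
    · refine ⟨ew (fun i => w (Fin.castAdd k i)) ⊗ₜ ew (fun i => w (Fin.natAdd m i)), ?_⟩
      have : Fin.append (fun i => w (Fin.castAdd k i)) (fun i => w (Fin.natAdd m i)) = w := by
        funext j
        refine Fin.addCases (fun i => ?_) (fun i => ?_) j
        · rw [Fin.append_left]
        · rw [Fin.append_right]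
      show iota D m k _ = _
      rw [iota_ew', this]
    · refine Fin.addCases (fun i => ?_) (fun i => ?_) j
      · exact ⟨yk i ⊗ₜ 1, by show iota D m k _ = _; rw [hL, Ly]⟩
      · exact ⟨1 ⊗ₜ yk i, by show iota D m k _ = _; rw [hR, Ry]⟩
    · by_cases hr : r + 1 < m
      · exact ⟨ps r ⊗ₜ 1, by show iota D m k _ = _; rw [hL, Ls r hr]⟩
      · obtain ⟨r', rfl⟩ : ∃ r', r = m + r' := ⟨r - m, by omega⟩
        exact ⟨1 ⊗ₜ ps r', by show iota D m k _ = _; rw [hR, Rs r' (by omega)]⟩

/-- PROOF: iotaL (ew u) * iotaR (ew v) = ∑∑ ew (append u v') * ew (append u' v), only (u, v) survives. -/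
theorem iota_ew (m k : ℕ) (u : Wd D m) (v : Wd D k) :
    iota D m k (ew u ⊗ₜ ew v) = ew (Fin.append u v) := iota_ew' m k u v

end CA1492
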