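import Mathlib
import Pool.Agent.Lib.MP_ca1492_al.Alg.Iota

/-!
The scaling automorphisms `alpha lam` (the grading), and the words and degrees of `Cc`, `CS`.
-/

namespace CA1492

open MvPolynomial

variable {D : Dat} {n : ℕ}

/-- Degree of `ps r * ew w` (0 if r is out of range). -/
def wdg (w : Wd D n) (r : ℕ) : ℤ :=
  if h : r + 1 < n then dg D (w ⟨r, by omega⟩) (w ⟨r + 1, h⟩) else 0

lemma alpha_dg_comm (D : Dat) (i j : D.J) : dg D i j = dg D j i := by
  unfold dg
  by_cases h : i = j
  · subst h; rfl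
  · rw [if_neg h, if_neg (Ne.symm h), Bool.or_comm]

lemma alpha_dg_self (D : Dat) (i : D.J) : dg D i i = -2 := by
  simp [dg]

lemma alpha_sw_left {r : ℕ} (h : r + 1 < n) : sw n r ⟨r, by omega⟩ = ⟨r + 1, h⟩ := by
  simp [sw, h]

lemma alpha_sw_right {r : ℕ} (h : r + 1 < n) : sw n r ⟨r + 1, h⟩ = ⟨r, by omega⟩ := by
  simp [sw, h]

lemma alpha_sw_ne {r : ℕ} (j : Fin n) (h1 : j.val ≠ r) (h2 : j.val ≠ r + 1) : sw n r j = j := by
  unfold sw
  split_ifs with h
  · apply Equiv.swap_apply_of_ne_of_ne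
    · intro hh; exact h1 (by rw [hh])
    · intro hh; exact h2 (by rw [hh])
  · rfl

lemma alpha_wdg_sw (w : Wd D n) (r : ℕ) : wdg (w ∘ sw n r) r = wdg w r := by
  unfold wdg
  split_ifs with h
  · simp only [Function.comp_apply, alpha_sw_left h, alpha_sw_right h]
    exact alpha_dg_comm D _ _
  · rfl

lemma alpha_wdg_far (w : Wd D n) (r s : ℕ) (hrs : r + 1 < s ∨ s + 1 < r) :
    wdg (w ∘ sw n s) r = wdg w r := by
  unfold wdg
  split_ifs with h
  · simp only [Function.comp_apply]
    rw [alpha_sw_ne ⟨r, by omega⟩ (by simp only; omega) (by simp only; omega),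
      alpha_sw_ne ⟨r + 1, h⟩ (by simp only; omega) (by simp only; omega)]
  · rfl

lemma alpha_sum_right {x : R D n} : ∑ w, x * ew w = x := by
  rw [← Finset.mul_sum, (isRep_R D n).E_sum, mul_one]

/-- Two elements that agree after multiplication by all idempotents are equal. -/
lemma alpha_ext {x y : R D n} (h : ∀ w, x * ew w = y * ew w) : x = y := by
  rw [← alpha_sum_right (x := x), ← alpha_sum_right (x := y)]
  exact Finset.sum_congr rfl fun w _ => h w

/-- The coefficient. -/
noncomputable def alphaC (lam : ℂˣ) (w : Wd D n) (r : ℕ) : ℂ := ((lam ^ (wdg w r) : ℂˣ) : ℂ)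

/-- The images of `ps r`. -/
noncomputable def alphaS (D : Dat) (n : ℕ) (lam : ℂˣ) (r : ℕ) : R D n :=
  ∑ w, alphaC lam w r • (ps r * ew w)

lemma alphaS_ew (lam : ℂˣ) (r : ℕ) (w : Wd D n) :
    alphaS D n lam r * ew w = alphaC lam w r • (ps r * ew w) := by
  unfold alphaS
  rw [Finset.sum_mul, Finset.sum_eq_single w]
  · rw [smul_mul_assoc, mul_assoc, (isRep_R D n).E_mul, if_pos rfl]
  · intro w' _ hw'
    rw [smul_mul_assoc, mul_assoc, (isRep_R D n).E_mul, if_neg hw', mul_zero, smul_zero]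
  · intro hh; exact absurd (Finset.mem_univ _) hh

lemma alphaS_ew' (lam : ℂˣ) (r : ℕ) (w : Wd D n) :
    ew (w ∘ sw n r) * alphaS D n lam r = alphaC lam w r • (ps r * ew w) := by
  unfold alphaS
  rw [Finset.mul_sum, Finset.sum_eq_single w]
  · rw [mul_smul_comm, (isRep_R D n).S_E, ← mul_assoc, (isRep_R D n).E_mul, if_pos rfl]
  · intro w' _ hw'
    rw [mul_smul_comm, (isRep_R D n).S_E, ← mul_assoc, (isRep_R D n).E_mul, if_neg, zero_mul,
      smul_zero]
    intro hh
    apply hw'
    have := congrArg (fun v => v ∘ sw n r) hh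
    simp only [iota_comp_sw_sw] at this
    exact this.symm
  · intro hh; exact absurd (Finset.mem_univ _) hh

lemma alphaS_two (lam : ℂˣ) (r s : ℕ) (w : Wd D n) :
    alphaS D n lam r * alphaS D n lam s * ew w =
      (alphaC lam (w ∘ sw n s) r * alphaC lam w s) • (ps r * ps s * ew w) := by
  rw [mul_assoc, alphaS_ew, mul_smul_comm, (isRep_R D n).S_E, ← mul_assoc, alphaS_ew,
    smul_mul_assoc, smul_smul, mul_comm (alphaC lam w s), mul_assoc, ← (isRep_R D n).S_E,
    ← mul_assoc]

lemma alphaS_three (lam : ℂˣ) (q r s : ℕ) (w : Wd D n) :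
    alphaS D n lam q * alphaS D n lam r * alphaS D n lam s * ew w =
      (alphaC lam ((w ∘ sw n s) ∘ sw n r) q * alphaC lam (w ∘ sw n s) r * alphaC lam w s) •
        (ps q * ps r * ps s * ew w) := by
  rw [mul_assoc, alphaS_ew, mul_smul_comm, (isRep_R D n).S_E, ← mul_assoc, alphaS_two,
    smul_mul_assoc, smul_smul, mul_comm (alphaC lam w s), mul_assoc (ps q * ps r),
    ← (isRep_R D n).S_E, ← mul_assoc (ps q * ps r)]

lemma alphaC_mul (lam : ℂˣ) (v w : Wd D n) (r s : ℕ) :
    alphaC lam v r * alphaC lam w s = ((lam ^ (wdg v r + wdg w s) : ℂˣ) : ℂ) := by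
  unfold alphaC
  rw [zpow_add, Units.val_mul]

lemma alpha_wdg_eq (w : Wd D n) (r : ℕ) (h : r + 1 < n) :
    wdg w r = dg D (w ⟨r, by omega⟩) (w ⟨r + 1, h⟩) := by
  simp [wdg, h]

lemma alpha_braid_deg (w : Wd D n) (r : ℕ) (h : r + 2 < n) :
    wdg ((w ∘ sw n (r + 1)) ∘ sw n r) (r + 1) + wdg (w ∘ sw n (r + 1)) r + wdg w (r + 1) =
      dg D (w ⟨r, by omega⟩) (w ⟨r + 1, by omega⟩) + dg D (w ⟨r, by omega⟩) (w ⟨r + 2, h⟩) +
      dg D (w ⟨r + 1, by omega⟩) (w ⟨r + 2, h⟩) := by
  have h1 : r + 1 < n := by omega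
  have h2 : r + 1 + 1 < n := by omega
  rw [alpha_wdg_eq _ (r + 1) h2, alpha_wdg_eq _ r h1, alpha_wdg_eq _ (r + 1) h2]
  simp only [Function.comp_apply]
  rw [alpha_sw_right h1, alpha_sw_ne (r := r) ⟨r + 1 + 1, h2⟩ (by simp only; omega) (by simp),
    alpha_sw_ne (r := r + 1) ⟨r, by omega⟩ (by simp) (by simp; omega), alpha_sw_left h2,
    alpha_sw_right h2]

lemma alpha_braid_deg' (w : Wd D n) (r : ℕ) (h : r + 2 < n) :
    wdg ((w ∘ sw n r) ∘ sw n (r + 1)) r + wdg (w ∘ sw n r) (r + 1) + wdg w r =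
      dg D (w ⟨r, by omega⟩) (w ⟨r + 1, by omega⟩) + dg D (w ⟨r, by omega⟩) (w ⟨r + 2, h⟩) +
      dg D (w ⟨r + 1, by omega⟩) (w ⟨r + 2, h⟩) := by
  have h1 : r + 1 < n := by omega
  have h2 : r + 1 + 1 < n := by omega
  rw [alpha_wdg_eq _ (r + 1) h2, alpha_wdg_eq _ r h1, alpha_wdg_eq _ r h1]
  simp only [Function.comp_apply]
  rw [alpha_sw_ne (r := r + 1) ⟨r, by omega⟩ (by simp) (by simp; omega), alpha_sw_left h2,
    alpha_sw_left h1, alpha_sw_right h1, alpha_sw_ne (r := r) ⟨r + 1 + 1, h2⟩ (by simp only; omega) (by simp)]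
  ring

theorem alpha_isRep (D : Dat) (n : ℕ) (lam : ℂˣ) :
    IsRep D n (A := R D n) (fun w => ew w) (fun k => ((lam : ℂ) ^ 2) • yk k)
      (alphaS D n lam) where
  S_out r h := by
    unfold alphaS
    exact Finset.sum_eq_zero fun w _ => by rw [iota_ps_out r h, zero_mul, smul_zero]
  E_mul w w' := (isRep_R D n).E_mul w w'
  E_sum := (isRep_R D n).E_sum
  Y_E k w := by
    rw [smul_mul_assoc, (isRep_R D n).Y_E, mul_smul_comm]
  Y_Y k l := by
    rw [smul_mul_assoc, mul_smul_comm, (isRep_R D n).Y_Y, smul_mul_assoc, mul_smul_comm]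
  S_E r w := by
    rw [alphaS_ew, alphaS_ew']
  S_far r s hrs := by
    apply alpha_ext
    intro w
    rw [alphaS_two, alphaS_two, (isRep_R D n).S_far r s hrs, alphaC_mul, alphaC_mul,
      alpha_wdg_far w r s (Or.inl hrs), alpha_wdg_far w s r (Or.inr hrs), add_comm (wdg w r)]
  S_Y r h k w := by
    rw [mul_smul_comm, smul_mul_assoc, mul_assoc, (isRep_R D n).Y_E, ← mul_assoc, alphaS_ew,
      smul_mul_assoc, mul_assoc, ← (isRep_R D n).Y_E, ← mul_assoc, (isRep_R D n).S_Y r h k w,
      smul_mul_assoc, smul_mul_assoc, mul_assoc (yk _) (alphaS D n lam r), alphaS_ew,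
      mul_smul_comm, smul_add, smul_add, mul_assoc (yk _) (ps r)]
    congr 1
    rw [smul_smul, smul_smul]
    congr 1
    by_cases he : w ⟨r, by omega⟩ = w ⟨r + 1, h⟩
    · rw [if_pos he]
      have : (lam : ℂ) ^ 2 * alphaC lam w r = 1 := by
        unfold alphaC
        rw [alpha_wdg_eq w r h, he, alpha_dg_self, ← Units.val_pow_eq_pow_val, ← Units.val_mul,
          ← zpow_natCast, ← zpow_add]
        norm_num
      rw [this, one_mul]
    · rw [if_neg he, mul_zero]
  S_S r h w := by
    rw [alphaS_two, (isRep_R D n).S_S r h w, alphaC_mul, alpha_wdg_sw, alpha_wdg_eq w r h]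
    unfold dg
    split_ifs with h1 h2 h3 h4 h5 h6 <;> simp_all [smul_sub, sub_mul]
  S_braid r h w := by
    have key : alphaC lam ((w ∘ sw n (r + 1)) ∘ sw n r) (r + 1) * alphaC lam (w ∘ sw n (r + 1)) r *
        alphaC lam w (r + 1) = alphaC lam ((w ∘ sw n r) ∘ sw n (r + 1)) r *
        alphaC lam (w ∘ sw n r) (r + 1) * alphaC lam w r := by
      unfold alphaC
      rw [← Units.val_mul, ← Units.val_mul, ← Units.val_mul, ← Units.val_mul, ← zpow_add,
        ← zpow_add, ← zpow_add, ← zpow_add, alpha_braid_deg w r h, alpha_braid_deg' w r h]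
    rw [sub_mul, alphaS_three, alphaS_three, key, ← smul_sub, ← sub_mul,
      (isRep_R D n).S_braid r h w, smul_smul]
    congr 1
    by_cases he : w ⟨r, by omega⟩ = w ⟨r + 2, h⟩
    · rw [if_pos he]
      by_cases h1 : D.arr (w ⟨r, by omega⟩) (w ⟨r + 1, by omega⟩) = true ∨
          D.arr (w ⟨r + 1, by omega⟩) (w ⟨r, by omega⟩) = true
      · have hd : dg D (w ⟨r, by omega⟩) (w ⟨r + 1, by omega⟩) = 1 := by
          unfold dg
          rw [if_neg, if_pos]
          · rcases h1 with h1 | h1 <;> simp [h1]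
          · intro hh
            rw [hh] at h1
            simp [D.irr] at h1
        have : alphaC lam ((w ∘ sw n r) ∘ sw n (r + 1)) r *
            alphaC lam (w ∘ sw n r) (r + 1) * alphaC lam w r = 1 := by
          unfold alphaC
          rw [← Units.val_mul, ← Units.val_mul, ← zpow_add, ← zpow_add, alpha_braid_deg' w r h,
            ← he, alpha_dg_self, alpha_dg_comm D (w ⟨r + 1, by omega⟩), hd]
          norm_num
        rw [this, one_mul]
      · push Not at h1
        rw [if_neg h1.1, if_neg h1.2, mul_zero]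
    · rw [if_neg he, mul_zero]

/-- PROOF: `liftR` with E w = ew w, Y k = lam^2 • yk k, S r = ∑ w, lam^(wdg w r) • (ps r * ew w).
The relations: wdg (w ∘ sw n r) r = wdg w r (dg is symmetric), wdg (w ∘ sw n r) s = wdg w s for
|r - s| > 1; S_Y: degree 2 - 2 = 0 for equal letters; S_S: degree 2 * wdg = 2 for adjacent letters, 0 for
non-adjacent ones; braid: for w_r = w_{r+2} adjacent to w_{r+1} the total degree is 1 - 2 + 1 = 0, and in
general both triple products have the total degree dg(a,b) + dg(a,c) + dg(b,c). -/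
theorem exists_alpha (D : Dat) (n : ℕ) (lam : ℂˣ) : ∃ f : R D n →ₐ[ℂ] R D n,
    (∀ w, f (ew w) = ew w) ∧ (∀ k, f (yk k) = ((lam : ℂ) ^ 2) • yk k) ∧
    (∀ r w, f (ps r * ew w) = ((lam ^ (wdg w r) : ℂˣ) : ℂ) • (ps r * ew w)) := by
  refine ⟨liftR (alpha_isRep D n lam), fun w => ?_, fun k => ?_, fun r w => ?_⟩
  · rw [liftR_ew]
  · rw [liftR_yk]
  · rw [map_mul, liftR_ew, liftR_ps, alphaS_ew]
    rfl

/-- The scaling automorphism: multiplies elements of degree d by lam^d. -/
noncomputable def alpha (D : Dat) (n : ℕ) (lam : ℂˣ) : R D n →ₐ[ℂ] R D n :=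
  (exists_alpha D n lam).choose

lemma alpha_spec (D : Dat) (n : ℕ) (lam : ℂˣ) :
    (∀ w, alpha D n lam (ew w) = ew w) ∧ (∀ k, alpha D n lam (yk k) = ((lam : ℂ) ^ 2) • yk k) ∧
    (∀ r w, alpha D n lam (ps r * ew w) = ((lam ^ (wdg w r) : ℂˣ) : ℂ) • (ps r * ew w)) :=
  (exists_alpha D n lam).choose_spec

/-- Homomorphisms that agree on `ew w`, `yk k` and `ps r * ew w` are equal. -/
lemma alpha_hom_ext {A : Type*} [Ring A] [Algebra ℂ A] {f g : R D n →ₐ[ℂ] A}
    (he : ∀ w, f (ew w) = g (ew w)) (hy : ∀ k, f (yk k) = g (yk k))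
    (hs : ∀ r w, f (ps r * ew w) = g (ps r * ew w)) : f = g := by
  apply R_hom_ext he hy
  intro r
  rw [← alpha_sum_right (x := ps r), map_sum, map_sum]
  exact Finset.sum_congr rfl fun w _ => hs r w

/-- PROOF: `R_hom_ext`, with ps r = ∑ w, ps r * ew w. -/
theorem alpha_mul (lam mu : ℂˣ) (x : R D n) :
    alpha D n lam (alpha D n mu x) = alpha D n (lam * mu) x := by
  have : (alpha D n lam).comp (alpha D n mu) = alpha D n (lam * mu) := by
    obtain ⟨e1, y1, s1⟩ := alpha_spec D n lam
    obtain ⟨e2, y2, s2⟩ := alpha_spec D n mu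
    obtain ⟨e3, y3, s3⟩ := alpha_spec D n (lam * mu)
    apply alpha_hom_ext
    · intro w
      rw [AlgHom.comp_apply, e2, e1, e3]
    · intro k
      rw [AlgHom.comp_apply, y2, map_smul, y1, y3, smul_smul, Units.val_mul]
      congr 1
      ring
    · intro r w
      rw [AlgHom.comp_apply, s2, map_smul, s1, s3, smul_smul, ← Units.val_mul, mul_zpow,
        mul_comm (mu ^ _)]
  exact DFunLike.congr_fun this x

/-- PROOF: `R_hom_ext`. -/
theorem alpha_one (x : R D n) : alpha D n 1 x = x := by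
  have : alpha D n 1 = AlgHom.id ℂ (R D n) := by
    obtain ⟨e1, y1, s1⟩ := alpha_spec D n 1
    apply alpha_hom_ext
    · intro w
      rw [e1, AlgHom.id_apply]
    · intro k
      rw [y1, AlgHom.id_apply, Units.val_one, one_pow, one_smul]
    · intro r w
      rw [s1, AlgHom.id_apply, one_zpow, Units.val_one, one_smul]
  rw [this, AlgHom.id_apply]

/-- PROOF: induction on f. -/
theorem alpha_pol (lam : ℂˣ) (f : MvPolynomial (Fin n) ℂ) :
    alpha D n lam (pol f) = pol (aeval (fun k => ((lam : ℂ) ^ 2) • (X k : MvPolynomial (Fin n) ℂ)) f) := by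
  have : (alpha D n lam).comp pol =
      pol.comp (aeval (fun k => ((lam : ℂ) ^ 2) • (X k : MvPolynomial (Fin n) ℂ))) := by
    apply MvPolynomial.algHom_ext
    intro k
    rw [AlgHom.comp_apply, AlgHom.comp_apply, pol_X, (alpha_spec D n lam).2.1, aeval_X, map_smul,
      pol_X]
  exact DFunLike.congr_fun this f

/-- Compatibility with the parabolic embeddings. PROOF: `R_hom_ext` for the two compositions;
wdg (Fin.append u v) r = wdg u r (r + 1 < m), wdg (Fin.append u v) (m + r) = wdg v r. -/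
theorem alpha_iotaL (m k : ℕ) (lam : ℂˣ) (x : R D m) :
    alpha D (m + k) lam (iotaL D m k x) = iotaL D m k (alpha D m lam x) := by
  have : (alpha D (m + k) lam).comp (iotaL D m k) = (iotaL D m k).comp (alpha D m lam) := by
    obtain ⟨Le, Ly, Ls⟩ := iotaL_spec D m k
    obtain ⟨e1, y1, s1⟩ := alpha_spec D (m + k) lam
    obtain ⟨e2, y2, s2⟩ := alpha_spec D m lam
    apply alpha_hom_ext
    · intro w
      rw [AlgHom.comp_apply, AlgHom.comp_apply, e2, Le, map_sum]
      exact Finset.sum_congr rfl fun v _ => e1 _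
    · intro j
      rw [AlgHom.comp_apply, AlgHom.comp_apply, y2, Ly, y1, map_smul, Ly]
    · intro r w
      rw [AlgHom.comp_apply, AlgHom.comp_apply, s2, map_smul]
      by_cases hr : r + 1 < m
      · rw [map_mul, Ls r hr, Le, Finset.mul_sum, map_sum, Finset.smul_sum]
        refine Finset.sum_congr rfl fun v _ => ?_
        rw [s1]
        congr 3
        have h1 : r + 1 < m + k := by omega
        rw [alpha_wdg_eq _ r h1, alpha_wdg_eq _ r hr]
        have a1 : (⟨r, by omega⟩ : Fin (m + k)) = Fin.castAdd k ⟨r, by omega⟩ := rfl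
        have a2 : (⟨r + 1, h1⟩ : Fin (m + k)) = Fin.castAdd k ⟨r + 1, hr⟩ := rfl
        rw [a1, a2, Fin.append_left, Fin.append_left]
      · rw [iota_ps_out r hr, zero_mul, map_zero, map_zero, smul_zero]
  exact DFunLike.congr_fun this x

theorem alpha_iotaR (m k : ℕ) (lam : ℂˣ) (x : R D k) :
    alpha D (m + k) lam (iotaR D m k x) = iotaR D m k (alpha D k lam x) := by
  have : (alpha D (m + k) lam).comp (iotaR D m k) = (iotaR D m k).comp (alpha D k lam) := by
    obtain ⟨Le, Ly, Ls⟩ := iotaR_spec D m k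
    obtain ⟨e1, y1, s1⟩ := alpha_spec D (m + k) lam
    obtain ⟨e2, y2, s2⟩ := alpha_spec D k lam
    apply alpha_hom_ext
    · intro w
      rw [AlgHom.comp_apply, AlgHom.comp_apply, e2, Le, map_sum]
      exact Finset.sum_congr rfl fun v _ => e1 _
    · intro j
      rw [AlgHom.comp_apply, AlgHom.comp_apply, y2, Ly, y1, map_smul, Ly]
    · intro r w
      rw [AlgHom.comp_apply, AlgHom.comp_apply, s2, map_smul]
      by_cases hr : r + 1 < k
      · rw [map_mul, Ls r hr, Le, Finset.mul_sum, map_sum, Finset.smul_sum]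
        refine Finset.sum_congr rfl fun v _ => ?_
        rw [s1]
        congr 3
        have h1 : m + r + 1 < m + k := by omega
        rw [alpha_wdg_eq _ (m + r) h1, alpha_wdg_eq _ r hr]
        have a1 : (⟨m + r, by omega⟩ : Fin (m + k)) = Fin.natAdd m ⟨r, by omega⟩ := rfl
        have a2 : (⟨m + r + 1, h1⟩ : Fin (m + k)) = Fin.natAdd m ⟨r + 1, hr⟩ := rfl
        rw [a1, a2, Fin.append_right, Fin.append_right]
      · rw [iota_ps_out r hr, zero_mul, map_zero, map_zero, smul_zero]
  exact DFunLike.congr_fun this x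

/-- The word after `Cc p q` (the letter at q is moved to p). -/
def cyW (w : Wd D n) (p : ℕ) : ℕ → Wd D n
  | 0 => w
  | q + 1 => if p ≤ q then cyW (w ∘ sw n q) p q else w

/-- The degree of `Cc p q * ew w`. -/
def cdeg (w : Wd D n) (p : ℕ) : ℕ → ℤ
  | 0 => 0
  | q + 1 => if p ≤ q then wdg w q + cdeg (w ∘ sw n q) p q else 0

/-- The word after `CS m k p`. -/
def shW (m : ℕ) : ℕ → (ℕ → ℕ) → Wd D n → Wd D n
  | 0, _, w => w
  | k + 1, p, w => cyW (shW m k p w) (p k) (m + k)

/-- The degree of `CS m k p * ew w`. -/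
def sdeg (m : ℕ) : ℕ → (ℕ → ℕ) → Wd D n → ℤ
  | 0, _, _ => 0
  | k + 1, p, w => cdeg (shW m k p w) (p k) (m + k) + sdeg m k p w

lemma alpha_Cc_succ {p q : ℕ} (h : p ≤ q) : (Cc p (q + 1) : R D n) = Cc p q * ps q := by
  unfold Cc
  rw [show q + 1 - p = (q - p) + 1 by omega, List.range'_concat, List.map_append,
    List.prod_append, List.map_singleton, List.prod_singleton]
  congr 2
  omega

lemma alpha_Cc_of_le {p q : ℕ} (h : q ≤ p) : (Cc p q : R D n) = 1 := by
  unfold Cc
  rw [show q - p = 0 by omega]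
  rfl

/-- PROOF: induction on q generalizing w: for p ≤ q, Cc p (q+1) = Cc p q * ps q
(List.range' / or prove it first), ps q * ew w = ew (w ∘ sw n q) * ps q (S_E). -/
theorem Cc_ew (w : Wd D n) (p q : ℕ) : (Cc p q * ew w : R D n) = ew (cyW w p q) * Cc p q ∧
    ∀ lam, alpha D n lam (Cc p q * ew w) = ((lam ^ (cdeg w p q) : ℂˣ) : ℂ) • (Cc p q * ew w) := by
  induction q generalizing w with
  | zero =>
    rw [alpha_Cc_of_le (Nat.zero_le p)]
    refine ⟨?_, fun lam => ?_⟩
    · rw [one_mul, mul_one]; rfl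
    · rw [one_mul, (alpha_spec D n lam).1, cdeg, zpow_zero, Units.val_one, one_smul]
  | succ q ih =>
    by_cases h : p ≤ q
    · obtain ⟨ih1, ih2⟩ := ih (w ∘ sw n q)
      have e : (Cc p (q + 1) * ew w : R D n) = Cc p q * ew (w ∘ sw n q) * (ps q * ew w) := by
        rw [alpha_Cc_succ h, (isRep_R D n).S_E, mul_assoc, (isRep_R D n).S_E, mul_assoc,
          ← mul_assoc (ew _) (ew _), (isRep_R D n).E_mul, if_pos rfl]
      refine ⟨?_, fun lam => ?_⟩
      · rw [cyW, if_pos h, alpha_Cc_succ h, mul_assoc, (isRep_R D n).S_E, ← mul_assoc, ih1,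
          mul_assoc]
      · rw [e, map_mul, ih2, (alpha_spec D n lam).2.2, smul_mul_smul_comm, cdeg, if_pos h,
          zpow_add, Units.val_mul, mul_comm (((lam ^ wdg w q : ℂˣ) : ℂ))]
    · rw [alpha_Cc_of_le (by omega : q + 1 ≤ p)]
      refine ⟨?_, fun lam => ?_⟩
      · rw [one_mul, mul_one, cyW, if_neg h]
      · rw [one_mul, (alpha_spec D n lam).1, cdeg, if_neg h, zpow_zero, Units.val_one, one_smul]

/-- PROOF: induction on k with `Cc_ew`. -/
theorem CS_ew (m k : ℕ) (p : ℕ → ℕ) (w : Wd D n) :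
    (CS m k p * ew w : R D n) = ew (shW m k p w) * CS m k p ∧
    ∀ lam, alpha D n lam (CS m k p * ew w) =
      ((lam ^ (sdeg m k p w) : ℂˣ) : ℂ) • (CS m k p * ew w) := by
  induction k with
  | zero =>
    refine ⟨?_, fun lam => ?_⟩
    · rw [CS, one_mul, mul_one]; rfl
    · rw [CS, one_mul, (alpha_spec D n lam).1, sdeg, zpow_zero, Units.val_one, one_smul]
  | succ k ih =>
    obtain ⟨ih1, ih2⟩ := ih
    obtain ⟨c1, c2⟩ := Cc_ew (shW m k p w) (p k) (m + k)
    have e : (CS m (k + 1) p * ew w : R D n) =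
        Cc (p k) (m + k) * ew (shW m k p w) * (CS m k p * ew w) := by
      rw [CS, mul_assoc, ih1, mul_assoc, ← mul_assoc (ew _) (ew _), (isRep_R D n).E_mul, if_pos rfl]
    refine ⟨?_, fun lam => ?_⟩
    · rw [shW, CS, mul_assoc, ih1, ← mul_assoc, c1, mul_assoc]
    · rw [e, map_mul, ih2, c2, smul_mul_smul_comm, sdeg, zpow_add, Units.val_mul]

/-- Explicit form of the words. PROOF: induction on q. -/
theorem cyW_apply (w : Wd D n) {p q : ℕ} (hpq : p ≤ q) (hq : q < n) (j : Fin n) :
    cyW w p q j = if j.val < p ∨ q < j.val then w j else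
      if j.val = p then w ⟨q, hq⟩ else w ⟨j.val - 1, by omega⟩ := by
  induction q generalizing w with
  | zero =>
    obtain rfl : p = 0 := by omega
    rw [cyW]
    split_ifs with h1 h2
    · rfl
    · congr 1
      ext
      exact h2
    · omega
  | succ q ih =>
    by_cases h : p ≤ q
    · rw [cyW, if_pos h, ih (w ∘ sw n q) h (by omega)]
      simp only [Function.comp_apply]
      by_cases hj : j.val < p
      · rw [if_pos (Or.inl hj), if_pos (Or.inl hj), alpha_sw_ne j (by omega) (by omega)]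
      · by_cases hj2 : q < j.val
        · rw [if_pos (Or.inr hj2)]
          by_cases hj3 : j.val = q + 1
          · obtain rfl : j = ⟨q + 1, hq⟩ := Fin.ext hj3
            rw [alpha_sw_right hq, if_neg (by simp only; omega), if_neg (by simp only; omega)]
            rfl
          · rw [alpha_sw_ne j (by omega) hj3, if_pos (by omega)]
        · have hA : ¬ (j.val < p ∨ q < j.val) := by omega
          have hB : ¬ (j.val < p ∨ q + 1 < j.val) := by omega
          by_cases hj3 : j.val = p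
          · rw [if_neg hA, if_neg hB, if_pos hj3, if_pos hj3, alpha_sw_left hq]
          · rw [if_neg hA, if_neg hB, if_neg hj3, if_neg hj3,
              alpha_sw_ne ⟨j.val - 1, by omega⟩ (by simp only; omega) (by simp only; omega)]
    · obtain rfl : p = q + 1 := by omega
      rw [cyW, if_neg h]
      split_ifs with h1 h2
      · rfl
      · congr 1
        ext
        exact h2
      · omega

/-- PROOF: induction on q, the letter w q moves past w (q-1), ..., w p; dg is symmetric. -/
theorem cdeg_eq (w : Wd D n) {p q : ℕ} (hpq : p ≤ q) (hq : q < n) :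
    cdeg w p q = ∑ j : Fin n, if p ≤ j.val ∧ j.val < q then dg D (w j) (w ⟨q, hq⟩) else 0 := by
  induction q generalizing w with
  | zero =>
    rw [cdeg]
    symm
    exact Finset.sum_eq_zero fun j _ => by rw [if_neg (by omega)]
  | succ q ih =>
    by_cases h : p ≤ q
    · rw [cdeg, if_pos h, ih (w ∘ sw n q) h (by omega), alpha_wdg_eq w q hq]
      have e : (dg D (w ⟨q, by omega⟩) (w ⟨q + 1, hq⟩) : ℤ) =
          ∑ j : Fin n, if j = ⟨q, by omega⟩ then dg D (w j) (w ⟨q + 1, hq⟩) else 0 := by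
        rw [Finset.sum_ite_eq' Finset.univ, if_pos (Finset.mem_univ _)]
      rw [e, ← Finset.sum_add_distrib]
      refine Finset.sum_congr rfl fun j _ => ?_
      simp only [Function.comp_apply, alpha_sw_left hq]
      by_cases hj : j = ⟨q, by omega⟩
      · subst hj
        rw [if_pos rfl, if_neg (by simp), if_pos (by simp only; omega), add_zero]
      · have hj' : j.val ≠ q := fun hh => hj (Fin.ext hh)
        rw [if_neg hj, zero_add]
        by_cases hj2 : p ≤ j.val ∧ j.val < q
        · rw [if_pos hj2, if_pos (by omega), alpha_sw_ne j hj' (by omega)]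
        · rw [if_neg hj2, if_neg (by omega)]
    · rw [cdeg, if_neg h]
      symm
      exact Finset.sum_eq_zero fun j _ => by rw [if_neg (by omega)]

lemma alpha_cyW_const (i : D.J) (p q : ℕ) :
    cyW (fun _ : Fin n => i) p q = (fun _ : Fin n => i) := by
  induction q with
  | zero => rfl
  | succ q ih =>
    rw [cyW]
    split_ifs
    · exact ih
    · rfl

lemma alpha_cdeg_const (i : D.J) {p q : ℕ} (hpq : p ≤ q) (hq : q < n) :
    cdeg (fun _ : Fin n => i) p q = -2 * ((q - p : ℕ) : ℤ) := by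
  induction q with
  | zero => rw [cdeg, Nat.zero_sub]; rfl
  | succ q ih =>
    rw [cdeg]
    by_cases h : p ≤ q
    · have e : (fun _ : Fin n => i) ∘ sw n q = (fun _ : Fin n => i) := rfl
      rw [if_pos h, alpha_wdg_eq _ q hq, alpha_dg_self, e, ih h (by omega)]
      push_cast [Nat.cast_sub h, Nat.cast_sub hpq]
      ring
    · rw [if_neg h, show q + 1 - p = 0 by omega]
      rfl

/-- Constant words: all degrees are -2 * length. PROOF: the word stays constant, every crossing has
degree -2. -/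
theorem shW_const (i : D.J) (m k : ℕ) (p : ℕ → ℕ) :
    shW m k p (fun _ : Fin n => i) = (fun _ : Fin n => i) := by
  induction k with
  | zero => rfl
  | succ k ih => rw [shW, ih, alpha_cyW_const]

theorem sdeg_const (i : D.J) (m k : ℕ) (p : ℕ → ℕ) (h : m + k ≤ n) (hp : ∀ j < k, p j ≤ m + j) :
    sdeg m k p (fun _ : Fin n => i) = -2 * (lenS m k p : ℤ) := by
  induction k with
  | zero => simp [sdeg, lenS]
  | succ k ih =>
    rw [sdeg, shW_const, ih (by omega) (fun j hj => hp j (by omega)),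
      alpha_cdeg_const i (hp k (by omega)) (by omega)]
    unfold lenS
    rw [Finset.sum_range_succ]
    push_cast
    ring

end CA1492
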