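import Mathlib
import Pool.Agent.Lib.MP_ca1492_al.Alg.Defs

/-!
Commutation of `ps r` with polynomials, and other direct consequences of the relations.
-/

namespace CA1492

open MvPolynomial

variable {D : Dat} {n : ℕ}

/-- Multiplication of idempotents, sum of the idempotents, decomposition of an element.
PROOF: `isRep_R`. For the last one: x = x * 1 = x * ∑ ew w. -/
theorem ew_facts : (∀ w w' : Wd D n, (ew w * ew w' : R D n) = if w = w' then ew w else 0) ∧
    (∑ w : Wd D n, (ew w : R D n) = 1) ∧ (∀ x : R D n, x = ∑ w : Wd D n, x * ew w) ∧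
    (∀ x : R D n, x = ∑ w : Wd D n, ew w * x) := by
  have hs : ∑ w : Wd D n, (ew w : R D n) = 1 := (isRep_R D n).E_sum
  refine ⟨fun w w' => (isRep_R D n).E_mul w w', hs, fun x => ?_, fun x => ?_⟩
  · rw [← Finset.mul_sum, hs, mul_one]
  · rw [← Finset.sum_mul, hs, one_mul]

theorem PolPs_YE (k : Fin n) (w : Wd D n) : (yk k * ew w : R D n) = ew w * yk k :=
  (isRep_R D n).Y_E k w

theorem PolPs_SY (r : ℕ) (h : r + 1 < n) (k : Fin n) (w : Wd D n) :
    (ps r * yk k * ew w : R D n) = yk (sw n r k) * ps r * ew w +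
      (if w ⟨r, by omega⟩ = w ⟨r + 1, h⟩ then
        (if k = ⟨r, by omega⟩ then (1 : ℂ) else if k = ⟨r + 1, h⟩ then -1 else 0) else 0) • ew w :=
  (isRep_R D n).S_Y r h k w

theorem PolPs_X (r : ℕ) (h : r + 1 < n) (k : Fin n) :
    (X k - X (sw n r k) : MvPolynomial (Fin n) ℂ) = (X ⟨r, by omega⟩ - X ⟨r + 1, h⟩) *
      C (if k = ⟨r, by omega⟩ then (1 : ℂ) else if k = ⟨r + 1, h⟩ then -1 else 0) := by
  have hsw : sw n r = Equiv.swap ⟨r, by omega⟩ ⟨r + 1, h⟩ := by
    unfold sw
    rw [dif_pos h]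
  rw [hsw]
  by_cases h1 : k = ⟨r, by omega⟩
  · rw [if_pos h1, h1, Equiv.swap_apply_left, C_1, mul_one]
  · rw [if_neg h1]
    by_cases h2 : k = ⟨r + 1, h⟩
    · rw [if_pos h2, h2, Equiv.swap_apply_right, C_neg, C_1]
      ring
    · rw [if_neg h2, Equiv.swap_apply_of_ne_of_ne h1 h2, C_0, mul_zero, sub_self]

/-- PROOF: induction on f. For f = C a: f' = 0. Sum: clear. For f * X k (write s = sw n r, all on
`ew w`): ps r * pol f * yk k * ew w = ps r * pol f * ew w * yk k
= (pol (s f) * ps r + [w_r = w_{r+1}] pol f') * yk k * ew w, and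
ps r * yk k * ew w = (yk (s k) * ps r + [w_r = w_{r+1}] c_k) * ew w with
c_k = 1, -1, 0 for k = r, r+1, other. So the new f' is f' * X k + c_k * s f, and
(X r - X (r+1)) (f' X k + c_k s f) = (f - s f) X k + (X k - X (s k)) s f = f X k - s f X (s k). -/
theorem ps_pol (r : ℕ) (h : r + 1 < n) (f : MvPolynomial (Fin n) ℂ) :
    ∃ f' : MvPolynomial (Fin n) ℂ,
      (X ⟨r, by omega⟩ - X ⟨r + 1, h⟩) * f' = f - rename (sw n r) f ∧
      ∀ w : Wd D n, (ps r * pol f * ew w : R D n) =
        pol (rename (sw n r) f) * ps r * ew w +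
          (if w ⟨r, by omega⟩ = w ⟨r + 1, h⟩ then pol f' * ew w else 0) := by
  induction f using MvPolynomial.induction_on with
  | C a =>
    refine ⟨0, ?_, fun w => ?_⟩
    · rw [rename_C, sub_self, mul_zero]
    · rw [rename_C, map_zero, zero_mul, ite_self, add_zero, ← MvPolynomial.algebraMap_eq,
        AlgHom.commutes, Algebra.commutes]
  | add p q hp hq =>
    obtain ⟨p', hp1, hp2⟩ := hp
    obtain ⟨q', hq1, hq2⟩ := hq
    refine ⟨p' + q', ?_, fun w => ?_⟩
    · rw [mul_add, hp1, hq1, map_add]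
      ring
    · rw [map_add, mul_add, add_mul, hp2, hq2, map_add, map_add, add_mul, add_mul, map_add,
        add_mul]
      split_ifs
      · abel
      · abel
  | mul_X p k hp =>
    obtain ⟨p', hp1, hp2⟩ := hp
    refine ⟨p' * X k + C (if k = ⟨r, by omega⟩ then (1 : ℂ) else
      if k = ⟨r + 1, h⟩ then -1 else 0) * rename (sw n r) p, ?_, fun w => ?_⟩
    · have h1 := PolPs_X r h k
      rw [mul_add, ← mul_assoc, hp1, ← mul_assoc, ← h1, map_mul, rename_X]
      ring
    · have e1 : (ps r * pol (p * X k) * ew w : R D n) = ps r * pol p * ew w * yk k := by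
        rw [map_mul, pol_X]
        simp only [mul_assoc]
        rw [PolPs_YE]
      have e2 : (pol (rename (sw n r) p) * ps r * ew w * yk k : R D n) =
          pol (rename (sw n r) p) * (ps r * yk k * ew w) := by
        simp only [mul_assoc]
        rw [PolPs_YE]
      have e3 : (pol p' * ew w * yk k : R D n) = pol (p' * X k) * ew w := by
        rw [map_mul, pol_X]
        simp only [mul_assoc]
        rw [PolPs_YE]
      have e5 : (pol (rename (sw n r) (p * X k)) * ps r * ew w : R D n) =
          pol (rename (sw n r) p) * (yk (sw n r k) * ps r * ew w) := by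
        rw [map_mul, rename_X, map_mul, pol_X]
        simp only [mul_assoc]
      have e6 : ∀ c : ℂ, (pol (p' * X k + C c * rename (sw n r) p) * ew w : R D n) =
          pol (p' * X k) * ew w + c • (pol (rename (sw n r) p) * ew w) := by
        intro c
        rw [map_add, add_mul, MvPolynomial.C_mul', map_smul, smul_mul_assoc]
      rw [e1, hp2, add_mul, e2, PolPs_SY r h k w, ite_mul, zero_mul, e3, mul_add, e5, e6]
      by_cases hw : w ⟨r, by omega⟩ = w ⟨r + 1, h⟩
      · rw [if_pos hw, if_pos hw, if_pos hw, mul_smul_comm]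
        abel
      · rw [if_neg hw, if_neg hw, if_neg hw, zero_smul, mul_zero, add_zero]

/-- The same with the polynomial on the left.
PROOF: apply `ps_pol` to `rename (sw n r) f` and solve for the term `pol f * ps r * ew w`
(sw is an involution, so rename (sw) (rename (sw) f) = f). -/
theorem pol_ps (r : ℕ) (h : r + 1 < n) (f : MvPolynomial (Fin n) ℂ) :
    ∃ f' : MvPolynomial (Fin n) ℂ, ∀ w : Wd D n, (pol f * ps r * ew w : R D n) =
        ps r * pol (rename (sw n r) f) * ew w +
          (if w ⟨r, by omega⟩ = w ⟨r + 1, h⟩ then pol f' * ew w else 0) := by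
  obtain ⟨g, -, hg⟩ := ps_pol (D := D) r h (rename (sw n r) f)
  have hinv : rename (sw n r) (rename (sw n r) f) = f := by
    rw [rename_rename]
    have h1 : (sw n r : Fin n → Fin n) ∘ (sw n r) = id := by
      funext k
      unfold sw
      rw [dif_pos h]
      change Equiv.swap (⟨r, by omega⟩ : Fin n) ⟨r + 1, h⟩
        (Equiv.swap (⟨r, by omega⟩ : Fin n) ⟨r + 1, h⟩ k) = k
      rw [← Equiv.Perm.mul_apply, Equiv.swap_mul_self, Equiv.Perm.one_apply]
    rw [h1, rename_id, AlgHom.id_apply]
  refine ⟨-g, fun w => ?_⟩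
  have h2 := hg w
  rw [hinv] at h2
  rw [h2, map_neg, neg_mul]
  split_ifs
  · abel
  · abel

end CA1492
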