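import Mathlib
import Pool.Agent.Lib.MP_ca1492_al.Alg.PolPs

/-!
The filtration `Fil D n s d` by the number of factors `ps r`, r + 1 < s.
-/

namespace CA1492

open MvPolynomial

variable {D : Dat} {n : ℕ}

theorem FilB_zero (s : ℕ) : Fil D n s 0 =
    Submodule.span ℂ {x | ∃ (f : MvPolynomial (Fin n) ℂ) (w : Wd D n), x = pol f * ew w} := rfl

theorem FilB_succ (s d : ℕ) : Fil D n s (d + 1) = Fil D n s d ⊔
    Submodule.span ℂ {x | ∃ (r : ℕ) (z : R D n), r + 1 < s ∧ z ∈ Fil D n s d ∧ x = ps r * z} :=
  rfl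

theorem FilB_le (s d : ℕ) : Fil D n s d ≤ Fil D n s (d + 1) := by
  rw [FilB_succ]
  exact le_sup_left

theorem FilB_ps {s d r : ℕ} {z : R D n} (hr : r + 1 < s) (hz : z ∈ Fil D n s d) :
    ps r * z ∈ Fil D n s (d + 1) := by
  rw [FilB_succ]
  exact Submodule.mem_sup_right (Submodule.subset_span ⟨r, z, hr, hz, rfl⟩)

/-- Monotone in d and s.
PROOF: in d: `le_sup_left`. In s: induction on d. -/
theorem Fil_mono {s s' d d' : ℕ} (hs : s ≤ s') (hd : d ≤ d') : Fil D n s d ≤ Fil D n s' d' := by
  have h1 : Fil D n s d ≤ Fil D n s d' := monotone_nat_of_le_succ (FilB_le s) hd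
  refine h1.trans ?_
  clear h1 hd
  induction d' with
  | zero => rw [FilB_zero, FilB_zero]
  | succ d' ih =>
    rw [FilB_succ, FilB_succ]
    refine sup_le_sup ih (Submodule.span_mono ?_)
    rintro x ⟨r, z, hr, hz, rfl⟩
    exact ⟨r, z, by omega, ih hz, rfl⟩

theorem FilB_pe (s : ℕ) (f : MvPolynomial (Fin n) ℂ) (w : Wd D n) :
    (pol f * ew w : R D n) ∈ Fil D n s 0 := by
  rw [FilB_zero]
  exact Submodule.subset_span ⟨f, w, rfl⟩

/-- Elements of low degree.
PROOF: 1 = ∑ ew w = ∑ pol 1 * ew w; ew w' = pol 1 * ew w'; pol f = ∑ pol f * ew w;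
yk k = pol (X k); ps r = ps r * 1; for r + 1 ≥ n, ps r = 0. -/
theorem mem_Fil : (∀ s, (1 : R D n) ∈ Fil D n s 0) ∧ (∀ s (w : Wd D n), (ew w : R D n) ∈ Fil D n s 0) ∧
    (∀ s (f : MvPolynomial (Fin n) ℂ), (pol f : R D n) ∈ Fil D n s 0) ∧
    (∀ s (k : Fin n), (yk k : R D n) ∈ Fil D n s 0) ∧
    (∀ s r, r + 1 < s → (ps r : R D n) ∈ Fil D n s 1) := by
  have h2 : ∀ s (w : Wd D n), (ew w : R D n) ∈ Fil D n s 0 := by
    intro s w
    have := FilB_pe (D := D) s (1 : MvPolynomial (Fin n) ℂ) w
    rwa [map_one, one_mul] at this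
  have h1 : ∀ s, (1 : R D n) ∈ Fil D n s 0 := by
    intro s
    rw [← (ew_facts (D := D) (n := n)).2.1]
    exact Submodule.sum_mem _ fun w _ => h2 s w
  have h3 : ∀ s (f : MvPolynomial (Fin n) ℂ), (pol f : R D n) ∈ Fil D n s 0 := by
    intro s f
    rw [(ew_facts (D := D) (n := n)).2.2.1 (pol f)]
    exact Submodule.sum_mem _ fun w _ => FilB_pe s f w
  refine ⟨h1, h2, h3, ?_, ?_⟩
  · intro s k
    rw [← pol_X]
    exact h3 s (X k)
  · intro s r hr
    have := FilB_ps (D := D) hr (h1 s)
    rwa [mul_one] at this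

theorem FilB_00 {s : ℕ} {x y : R D n} (hx : x ∈ Fil D n s 0) (hy : y ∈ Fil D n s 0) :
    x * y ∈ Fil D n s 0 := by
  rw [FilB_zero] at hx
  induction hx using Submodule.span_induction with
  | mem x hx =>
    obtain ⟨f, w, rfl⟩ := hx
    rw [FilB_zero] at hy
    induction hy using Submodule.span_induction with
    | mem y hy =>
      obtain ⟨g, w', rfl⟩ := hy
      have h1 : (pol f * ew w * (pol g * ew w') : R D n) = pol (f * g) * (ew w * ew w') := by
        rw [map_mul, mul_assoc, ← mul_assoc (ew w), ← pol_ew, mul_assoc, mul_assoc]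
      rw [h1, (ew_facts (D := D) (n := n)).1]
      split_ifs
      · exact FilB_pe s _ _
      · rw [mul_zero]
        exact Submodule.zero_mem _
    | zero =>
      rw [mul_zero]
      exact Submodule.zero_mem _
    | add a b _ _ ha hb =>
      rw [mul_add]
      exact Submodule.add_mem _ ha hb
    | smul c a _ ha =>
      rw [mul_smul_comm]
      exact Submodule.smul_mem _ _ ha
  | zero =>
    rw [zero_mul]
    exact Submodule.zero_mem _
  | add a b _ _ ha hb =>
    rw [add_mul]
    exact Submodule.add_mem _ ha hb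
  | smul c a _ ha =>
    rw [smul_mul_assoc]
    exact Submodule.smul_mem _ _ ha

theorem FilB_sw (r : ℕ) (w : Wd D n) : (w ∘ sw n r) ∘ sw n r = w := by
  funext k
  simp only [Function.comp_apply]
  congr 1
  unfold sw
  split_ifs with h
  · exact Equiv.swap_apply_self _ _ _
  · rfl

theorem FilB_0b {s : ℕ} (b : ℕ) : ∀ {x y : R D n}, x ∈ Fil D n s 0 → y ∈ Fil D n s b →
    x * y ∈ Fil D n s b := by
  induction b with
  | zero => exact fun hx hy => FilB_00 hx hy
  | succ b ih =>
    intro x y hx hy
    rw [FilB_succ] at hy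
    obtain ⟨y1, hy1, y2, hy2, rfl⟩ := Submodule.mem_sup.mp hy
    rw [mul_add]
    refine Submodule.add_mem _ (FilB_le s b (ih hx hy1)) ?_
    induction hy2 using Submodule.span_induction with
    | mem y2 hy2 =>
      obtain ⟨r, z, hr, hz, rfl⟩ := hy2
      by_cases hrn : r + 1 < n
      · rw [FilB_zero] at hx
        induction hx using Submodule.span_induction with
        | mem x hx =>
          obtain ⟨f, w, rfl⟩ := hx
          have h1 : (ew w * ps r : R D n) = ps r * ew (w ∘ sw n r) := by
            have := (isRep_R D n).S_E r (w ∘ sw n r)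
            simp only [FilB_sw] at this
            exact this.symm
          obtain ⟨f', hf'⟩ := pol_ps (D := D) r hrn f
          have h2 : (pol f * ew w * (ps r * z) : R D n) =
              (pol f * ps r * ew (w ∘ sw n r)) * z := by
            rw [mul_assoc, ← mul_assoc (ew w), h1, mul_assoc, mul_assoc, mul_assoc]
          rw [h2, hf', add_mul]
          refine Submodule.add_mem _ ?_ ?_
          · rw [mul_assoc, mul_assoc, ← mul_assoc (pol _)]
            exact FilB_ps hr (ih (FilB_pe s _ _) hz)
          · split_ifs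
            · exact FilB_le s b (ih (FilB_pe s _ _) hz)
            · rw [zero_mul]
              exact Submodule.zero_mem _
        | zero =>
          rw [zero_mul]
          exact Submodule.zero_mem _
        | add a c _ _ ha hc =>
          rw [add_mul]
          exact Submodule.add_mem _ ha hc
        | smul c a _ ha =>
          rw [smul_mul_assoc]
          exact Submodule.smul_mem _ _ ha
      · have h3 : (ps r : R D n) = 0 := (isRep_R D n).S_out r hrn
        rw [h3, zero_mul, mul_zero]
        exact Submodule.zero_mem _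
    | zero =>
      rw [mul_zero]
      exact Submodule.zero_mem _
    | add a c _ _ ha hc =>
      rw [mul_add]
      refine Submodule.add_mem _ (ha ?_) (hc ?_)
      · rw [← FilB_succ]
        rw [FilB_succ]
        exact Submodule.add_mem _ (Submodule.mem_sup_left hy1)
          (Submodule.mem_sup_right (by assumption))
      · exact Submodule.add_mem _ (Submodule.mem_sup_left hy1)
          (Submodule.mem_sup_right (by assumption))
    | smul c a _ ha =>
      rw [mul_smul_comm]
      refine Submodule.smul_mem _ _ (ha ?_)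
      exact Submodule.add_mem _ (Submodule.mem_sup_left hy1)
          (Submodule.mem_sup_right (by assumption))

/-- Products.
PROOF. Step 1: Fil s 0 is closed under multiplication (pol f * ew w * (pol g * ew w') = pol (f g) * ew w
if w = w', else 0; `pol_ew`). Step 2: Fil s 0 * Fil s b ⊆ Fil s b by induction on b: for z ∈ Fil s b,
pol f * ew w * ps r * z = pol f * ps r * ew (w ∘ sw n r) * z (use S_E with w replaced by w ∘ sw n r and
that sw is an involution; for r + 1 ≥ n everything is 0) and by `pol_ps`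
pol f * ps r * ew w' = ps r * pol f1 * ew w' + (0 or pol f' * ew w'), so the product is in
ps r * (Fil s 0 * Fil s b) + Fil s 0 * Fil s b ⊆ Fil s (b+1) by induction.
Step 3: Fil s a * Fil s b ⊆ Fil s (a + b) by induction on a (ps r * z * x with z * x ∈ Fil s (a + b)). -/
theorem Fil_mul {s a b : ℕ} {x y : R D n} (hx : x ∈ Fil D n s a) (hy : y ∈ Fil D n s b) :
    x * y ∈ Fil D n s (a + b) := by
  induction a generalizing x with
  | zero =>
    rw [Nat.zero_add]
    exact FilB_0b b hx hy
  | succ a ih =>
    rw [FilB_succ] at hx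
    obtain ⟨x1, hx1, x2, hx2, rfl⟩ := Submodule.mem_sup.mp hx
    rw [add_mul, show a + 1 + b = a + b + 1 by omega]
    refine Submodule.add_mem _ (FilB_le s _ (ih hx1)) ?_
    clear hx hx1
    induction hx2 using Submodule.span_induction with
    | mem x2 hx2 =>
      obtain ⟨r, z, hr, hz, rfl⟩ := hx2
      rw [mul_assoc]
      exact FilB_ps hr (ih hz)
    | zero =>
      rw [zero_mul]
      exact Submodule.zero_mem _
    | add u v _ _ hu hv =>
      rw [add_mul]
      exact Submodule.add_mem _ hu hv
    | smul c u _ hu =>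
      rw [smul_mul_assoc]
      exact Submodule.smul_mem _ _ hu

theorem FilB_range (s : ℕ) : ∀ (k p : ℕ), (k = 0 ∨ p + k < s) →
    (((List.range' p k).map (fun r => (ps r : R D n))).prod) ∈ Fil D n s k := by
  intro k
  induction k with
  | zero =>
    intro p _
    simpa using (mem_Fil (D := D) (n := n)).1 s
  | succ k ih =>
    intro p hp
    have hp' : p + (k + 1) < s := by omega
    rw [List.range'_succ, List.map_cons, List.prod_cons, Nat.add_comm k 1]
    exact Fil_mul ((mem_Fil (D := D) (n := n)).2.2.2.2 s p (by omega)) (ih (p + 1) (by omega))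

/-- `Cc` and `CS` in the filtration.
PROOF: Cc p q is a product of q - p factors ps r with p ≤ r < q, so r + 1 ≤ q < s; induction and
`Fil_mul`. CS m k p: induction on k, the factors are Cc (p j) (m + j) with m + j < m + k ≤ s. -/
theorem Cc_mem {s p q : ℕ} (h : q < s) : (Cc p q : R D n) ∈ Fil D n s (q - p) := by
  unfold Cc
  exact FilB_range s (q - p) p (by omega)

theorem CS_mem {s m k : ℕ} (p : ℕ → ℕ) (h : m + k ≤ s) :
    (CS m k p : R D n) ∈ Fil D n s (lenS m k p) := by
  induction k with
  | zero =>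
    unfold lenS CS
    rw [Finset.sum_range_zero]
    exact (mem_Fil (D := D) (n := n)).1 s
  | succ k ih =>
    have h1 : lenS m (k + 1) p = (m + k - p k) + lenS m k p := by
      unfold lenS
      rw [Finset.sum_range_succ, Nat.add_comm]
    rw [h1]
    exact Fil_mul (Cc_mem (by omega)) (ih (by omega))

/-- Every element lies in some Fil n d.
PROOF: `R_induction` (sums by `Fil_mono`, products by `Fil_mul`); ps r with r + 1 ≥ n is 0. -/
theorem exists_Fil (x : R D n) : ∃ d, x ∈ Fil D n n d := by
  obtain ⟨h1, h2, h3, h4, h5⟩ := mem_Fil (D := D) (n := n)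
  refine R_induction (p := fun x => ∃ d, x ∈ Fil D n n d) ?_ ?_ ?_ ?_ ?_ ?_ x
  · intro c
    refine ⟨0, ?_⟩
    rw [Algebra.algebraMap_eq_smul_one]
    exact Submodule.smul_mem _ _ (h1 n)
  · exact fun w => ⟨0, h2 n w⟩
  · exact fun k => ⟨0, h4 n k⟩
  · intro r
    by_cases hr : r + 1 < n
    · exact ⟨1, h5 n r hr⟩
    · refine ⟨0, ?_⟩
      have h6 : (ps r : R D n) = 0 := (isRep_R D n).S_out r hr
      rw [h6]
      exact Submodule.zero_mem _
  · rintro x y ⟨d, hd⟩ ⟨e, he⟩
    exact ⟨max d e, Submodule.add_mem _ (Fil_mono le_rfl (le_max_left _ _) hd)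
      (Fil_mono le_rfl (le_max_right _ _) he)⟩
  · rintro x y ⟨d, hd⟩ ⟨e, he⟩
    exact ⟨d + e, Fil_mul hd he⟩

end CA1492
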