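import Mathlib
import Pool.Agent.Lib.MP_ca1492_al.Alg.FilB

/-!
Moving `ps r` through `Cc p q = ps p * ... * ps (q-1)`.
All congruences are modulo products with fewer factors `ps`.
-/

namespace CA1492

variable {D : Dat} {n : ℕ}

/-- PROOF: `List.range'` recursion: for p < q, `Cc p q = ps p * Cc (p+1) q = Cc p (q-1) * ps (q-1)`,
and in general `Cc p q = Cc p t * Cc t q` for p ≤ t ≤ q; `Cc p q = 1` for q ≤ p. -/
theorem Cc_facts : (∀ p q, q ≤ p → (Cc p q : R D n) = 1) ∧
    (∀ p q, p < q → (Cc p q : R D n) = ps p * Cc (p + 1) q) ∧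
    (∀ p q, p ≤ q → (Cc p (q + 1) : R D n) = Cc p q * ps q) ∧
    (∀ p t q, p ≤ t → t ≤ q → (Cc p q : R D n) = Cc p t * Cc t q) := by
  refine ⟨?_, ?_, ?_, ?_⟩
  · intro p q h
    have h0 : q - p = 0 := Nat.sub_eq_zero_of_le h
    rw [Cc, h0]
    rfl
  · intro p q h
    have h0 : q - p = (q - (p + 1)) + 1 := by omega
    rw [Cc, h0, List.range'_succ, List.map_cons, List.prod_cons]
    rfl
  · intro p q h
    have h0 : q + 1 - p = (q - p) + 1 := by omega
    rw [Cc, h0, List.range'_1_concat, List.map_append, List.prod_append]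
    have h1 : p + (q - p) = q := by omega
    rw [h1]
    simp only [List.map_cons, List.map_nil, List.prod_cons, List.prod_nil, mul_one]
    rfl
  · intro p t q h1 h2
    rw [Cc, Cc, Cc, ← List.prod_append, ← List.map_append]
    congr 2
    have h3 : q - p = (t - p) + (q - t) := by omega
    have h4 : t = p + (t - p) := by omega
    rw [h3]
    conv_rhs => rw [h4]
    have h5 : p + (t - p) - p = t - p := by omega
    have h6 : q - (p + (t - p)) = q - t := by omega
    rw [h5, h6, List.range'_append_1]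

/-- Far commutation. PROOF: S_far (in both orders), induction on q - p. -/
theorem ps_Cc_far {r p q : ℕ} (h : r + 1 < p ∨ q < r) :
    (ps r * Cc p q : R D n) = Cc p q * ps r := by
  have hc : Commute (ps r : R D n) (Cc p q) := by
    refine Commute.list_prod_right _ _ fun x hx => ?_
    obtain ⟨t, ht, rfl⟩ := List.mem_map.1 hx
    rw [List.mem_range'_1] at ht
    rcases h with h | h
    · exact (isRep_R D n).S_far r t (by omega)
    · exact ((isRep_R D n).S_far t r (by omega)).symm
  exact hc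

/-- Squares and braids: PROOF: x = ∑ x * ew w and the relations S_S, S_braid; for r out of range the
elements ps r are 0. -/
theorem ps_sq (s r : ℕ) : (ps r * ps r : R D n) ∈ Fil D n s 0 := by
  by_cases h : r + 1 < n
  · rw [(ew_facts (D := D) (n := n)).2.2.1 (ps r * ps r)]
    refine Submodule.sum_mem _ fun w _ => ?_
    have h1 := (isRep_R D n).S_S r h w
    rw [h1]
    obtain ⟨-, hE, -, hY, -⟩ := mem_Fil (D := D) (n := n)
    split_ifs
    · exact Submodule.zero_mem _
    · exact Fil_mul (a := 0) (b := 0) (Submodule.sub_mem _ (hY s _) (hY s _)) (hE s w)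
    · exact Fil_mul (a := 0) (b := 0) (Submodule.sub_mem _ (hY s _) (hY s _)) (hE s w)
    · exact hE s w
  · have h0 : (ps r : R D n) = 0 := (isRep_R D n).S_out r h
    rw [h0, mul_zero]
    exact Submodule.zero_mem _

theorem ps_braid (s r : ℕ) :
    (ps (r + 1) * ps r * ps (r + 1) - ps r * ps (r + 1) * ps r : R D n) ∈ Fil D n s 0 := by
  by_cases h : r + 2 < n
  · rw [(ew_facts (D := D) (n := n)).2.2.1
      (ps (r + 1) * ps r * ps (r + 1) - ps r * ps (r + 1) * ps r)]
    refine Submodule.sum_mem _ fun w _ => ?_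
    have h1 := (isRep_R D n).S_braid r h w
    rw [h1]
    exact Submodule.smul_mem _ _ ((mem_Fil (D := D) (n := n)).2.1 s w)
  · have h0 : (ps (r + 1) : R D n) = 0 := (isRep_R D n).S_out (r + 1) (by omega)
    rw [h0, mul_zero, mul_zero, zero_mul, sub_zero]
    exact Submodule.zero_mem _

/-- L0: for p < q: ps p * Cc p q = ps p * ps p * Cc (p+1) q has fewer factors.
PROOF: ps_sq, Cc_mem, Fil_mul. -/
theorem ps_Cc_eq {s p q : ℕ} (h : p < q) (hq : q < s) :
    (ps p * Cc p q : R D n) ∈ Fil D n s (q - p - 1) := by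
  rw [Cc_facts.2.1 p q h, ← mul_assoc]
  have h1 := Fil_mul (ps_sq (D := D) (n := n) s p) (Cc_mem (D := D) (n := n) (s := s) (p := p + 1) hq)
  have h2 : 0 + (q - (p + 1)) = q - p - 1 := by omega
  rwa [h2] at h1

/-- L1: for p < r < q: ps r * Cc p q ≡ Cc p q * ps (r-1) modulo Fil (q - p - 2).
PROOF: Cc p q = Cc p (r-1) * ps (r-1) * ps r * Cc (r+1) q; ps r commutes with Cc p (r-1);
ps r * ps (r-1) * ps r = ps (r-1) * ps r * ps (r-1) + z, z ∈ Fil 0 (`ps_braid`); ps (r-1) commutes
with Cc (r+1) q. The error is Cc p (r-1) * z * Cc (r+1) q with (r-1-p) + (q-r-1) = q-p-2 factors. -/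
theorem ps_Cc_mid {s p q r : ℕ} (h1 : p < r) (h2 : r < q) (hq : q < s) :
    (ps r * Cc p q - Cc p q * ps (r - 1) : R D n) ∈ Fil D n s (q - p - 2) := by
  obtain ⟨t, rfl⟩ : ∃ t, r = t + 1 := ⟨r - 1, by omega⟩
  rw [Nat.add_sub_cancel]
  have e0 : (Cc p q : R D n) = Cc p t * (ps t * (ps (t + 1) * Cc (t + 2) q)) := by
    rw [Cc_facts.2.2.2 p t q (by omega) (by omega), Cc_facts.2.1 t q (by omega),
      Cc_facts.2.1 (t + 1) q (by omega)]
  have e1 : (ps (t + 1) * Cc p t : R D n) = Cc p t * ps (t + 1) :=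
    ps_Cc_far (Or.inr (by omega))
  have e2 : (ps t * Cc (t + 2) q : R D n) = Cc (t + 2) q * ps t :=
    ps_Cc_far (Or.inl (by omega))
  have e3 : (ps (t + 1) * Cc p q - Cc p q * ps t : R D n) =
      Cc p t * (ps (t + 1) * ps t * ps (t + 1) - ps t * ps (t + 1) * ps t) * Cc (t + 2) q := by
    rw [e0, ← mul_assoc (ps (t + 1)) (Cc p t) _, e1]
    rw [mul_sub, sub_mul]
    congr 1
    · simp only [mul_assoc]
    · simp only [mul_assoc]
      rw [e2]
  rw [e3]
  have h5 := Fil_mul (Fil_mul (Cc_mem (D := D) (n := n) (s := s) (p := p) (q := t) (by omega))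
    (ps_braid (D := D) (n := n) s t)) (Cc_mem (D := D) (n := n) (s := s) (p := t + 2) hq)
  have h6 : t - p + 0 + (q - (t + 2)) = q - p - 2 := by omega
  rwa [h6] at h5

theorem CL_claim {s p q : ℕ} (hq : q < s) : ∀ k r, r + k = q → p < r →
    (Cc r q * Cc p q - Cc p q * Cc (r - 1) (q - 1) : R D n) ∈ Fil D n s (k + (q - p) - 1) := by
  intro k
  induction k with
  | zero =>
    intro r h1 h2
    have h3 : r = q := by omega
    subst h3
    rw [Cc_facts.1 r r le_rfl, Cc_facts.1 (r - 1) (r - 1) le_rfl, one_mul, mul_one, sub_self]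
    exact Submodule.zero_mem _
  | succ k ih =>
    intro r h1 h2
    have h3 := ih (r + 1) (by omega) (by omega)
    rw [Nat.add_sub_cancel] at h3
    have h4 := ps_Cc_mid (D := D) (n := n) (s := s) (p := p) (q := q) (r := r) h2 (by omega) hq
    have e1 : (Cc r q : R D n) = ps r * Cc (r + 1) q := Cc_facts.2.1 r q (by omega)
    have e2 : (Cc (r - 1) (q - 1) : R D n) = ps (r - 1) * Cc r (q - 1) := by
      have := Cc_facts (D := D) (n := n) |>.2.1 (r - 1) (q - 1) (by omega)
      rwa [show r - 1 + 1 = r from by omega] at this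
    have e3 : (Cc r q * Cc p q - Cc p q * Cc (r - 1) (q - 1) : R D n) =
        ps r * (Cc (r + 1) q * Cc p q - Cc p q * Cc r (q - 1)) +
          (ps r * Cc p q - Cc p q * ps (r - 1)) * Cc r (q - 1) := by
      rw [e1, e2]
      simp only [mul_sub, sub_mul, mul_assoc]
      abel
    rw [e3]
    refine Submodule.add_mem _ ?_ ?_
    · have h5 := Fil_mul ((mem_Fil (D := D) (n := n)).2.2.2.2 s r (by omega)) h3
      exact Fil_mono le_rfl (by omega) h5
    · have h5 := Fil_mul h4 (Cc_mem (D := D) (n := n) (s := s) (p := r) (q := q - 1) (by omega))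
      exact Fil_mono le_rfl (by omega) h5

/-- L2: for p < q: Cc p q * Cc p (q-1) ≡ Cc (p+1) q * Cc p (q-1) * ps (q-1) modulo
Fil (2 (q-p) - 2).
PROOF: the right side is Cc (p+1) q * Cc p q. Claim: for p < r ≤ q,
(ps r * ps (r+1) * ... * ps (q-1)) * Cc p q ≡ Cc p q * (ps (r-1) * ... * ps (q-2)),
i.e. Cc r q * Cc p q - Cc p q * Cc (r-1) (q-1) ∈ Fil ((q-r) + (q-p) - 1), by downward induction on r
with L1. For r = p + 1 this is the statement: Cc (p+1) q * Cc p q ≡ Cc p q * Cc p (q-1). -/
theorem Cc_Cc {s p q : ℕ} (h : p < q) (hq : q < s) :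
    (Cc p q * Cc p (q - 1) - Cc (p + 1) q * Cc p (q - 1) * ps (q - 1) : R D n) ∈
      Fil D n s (2 * (q - p) - 2) := by
  have h1 := CL_claim (D := D) (n := n) (p := p) hq (q - p - 1) (p + 1) (by omega) (by omega)
  rw [Nat.add_sub_cancel] at h1
  have e1 : (Cc p q : R D n) = Cc p (q - 1) * ps (q - 1) := by
    have := Cc_facts (D := D) (n := n) |>.2.2.1 p (q - 1) (by omega)
    rwa [show q - 1 + 1 = q from by omega] at this
  rw [mul_assoc (Cc (p + 1) q) _ _, ← e1]
  have h2 := Submodule.neg_mem _ h1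
  rw [neg_sub] at h2
  exact Fil_mono le_rfl (by omega) h2

end CA1492
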