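import Mathlib
import Pool.Agent.Lib.MP_ca1492_al.Alg.CL

/-!
The trichotomy for `ps r * CS m k p`.
-/

namespace CA1492

variable {D : Dat} {n : ℕ}

/-- `CS m k p` and `lenS m k p` depend only on p j, j < k. PROOF: induction on k. -/
theorem CS_congr {m k : ℕ} {p p' : ℕ → ℕ} (h : ∀ j < k, p j = p' j) :
    (CS m k p : R D n) = CS m k p' ∧ lenS m k p = lenS m k p' := by
  constructor
  · induction k with
    | zero => rfl
    | succ k ih =>
      show Cc (p k) (m + k) * CS m k p = Cc (p' k) (m + k) * CS m k p'
      rw [ih fun j hj => h j (Nat.lt_succ_of_lt hj), h k (Nat.lt_succ_self k)]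
  · exact Finset.sum_congr rfl fun j hj => by rw [h j (Finset.mem_range.1 hj)]

theorem Tri_len (m k : ℕ) (p : ℕ → ℕ) : lenS m (k + 1) p = lenS m k p + (m + k - p k) :=
  Finset.sum_range_succ _ _

theorem Tri_CS (m k : ℕ) (p : ℕ → ℕ) :
    (CS m (k + 1) p : R D n) = Cc (p k) (m + k) * CS m k p := rfl

/-- far commutation with `CS` -/
theorem Tri_comm {m k r : ℕ} (p : ℕ → ℕ) (h : m + k ≤ r) :
    (ps r * CS m k p : R D n) = CS m k p * ps r := by
  induction k with
  | zero => show ps r * (1 : R D n) = 1 * ps r; rw [mul_one, one_mul]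
  | succ k ih =>
    rw [Tri_CS, ← mul_assoc, ps_Cc_far (Or.inr (by omega)), mul_assoc, ih (by omega), mul_assoc]

/-- the induction step in the cases where `ps r` can be moved through the first factor -/
theorem Tri_lift {m k : ℕ} {p : ℕ → ℕ} (hp : IsSh m (k + 1) p) {r r' : ℕ}
    (hd : (ps r * Cc (p k) (m + k) - Cc (p k) (m + k) * ps r' : R D n) ∈
      Fil D n (m + k + 1) (m + k - p k))
    (ih : (∃ p', IsSh m k p' ∧ (∀ j, p' j ≤ p j) ∧ lenS m k p' = lenS m k p + 1 ∧
      (ps r' * CS m k p - CS m k p' : R D n) ∈ Fil D n (m + k) (lenS m k p)) ∨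
    (∃ s, s + 1 < m + k ∧ s + 1 ≠ m ∧
      (ps r' * CS m k p - CS m k p * ps s : R D n) ∈ Fil D n (m + k) (lenS m k p)) ∨
    (ps r' * CS m k p : R D n) ∈ Fil D n (m + k) (lenS m k p)) :
    (∃ p', IsSh m (k + 1) p' ∧ (∀ j, p' j ≤ p j) ∧ lenS m (k + 1) p' = lenS m (k + 1) p + 1 ∧
      (ps r * CS m (k + 1) p - CS m (k + 1) p' : R D n) ∈
        Fil D n (m + (k + 1)) (lenS m (k + 1) p)) ∨
    (∃ s, s + 1 < m + (k + 1) ∧ s + 1 ≠ m ∧
      (ps r * CS m (k + 1) p - CS m (k + 1) p * ps s : R D n) ∈
        Fil D n (m + (k + 1)) (lenS m (k + 1) p)) ∨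
    (ps r * CS m (k + 1) p : R D n) ∈ Fil D n (m + (k + 1)) (lenS m (k + 1) p) := by
  have hC : (CS m k p : R D n) ∈ Fil D n (m + (k + 1)) (lenS m k p) := CS_mem p (by omega)
  have hCc : (Cc (p k) (m + k) : R D n) ∈ Fil D n (m + (k + 1)) (m + k - p k) :=
    Cc_mem (by omega)
  have h1 : ((ps r * Cc (p k) (m + k) - Cc (p k) (m + k) * ps r') * CS m k p : R D n) ∈
      Fil D n (m + (k + 1)) (lenS m (k + 1) p) := by
    rw [Tri_len, add_comm (lenS m k p)]
    exact Fil_mul hd hC
  have h2 : ∀ z : R D n, z ∈ Fil D n (m + k) (lenS m k p) → Cc (p k) (m + k) * z ∈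
      Fil D n (m + (k + 1)) (lenS m (k + 1) p) := by
    intro z hz
    rw [Tri_len, add_comm (lenS m k p)]
    exact Fil_mul hCc (Fil_mono (by omega) le_rfl hz)
  rcases ih with ⟨p', hp', hle, hlen, hz⟩ | ⟨s, hs1, hs2, hz⟩ | hz
  · left
    have hcongr := CS_congr (D := D) (n := n) (m := m) (k := k)
      (p := Function.update p' k (p k)) (p' := p')
      fun j hj => Function.update_of_ne (ne_of_lt hj) _ _
    refine ⟨Function.update p' k (p k), ⟨?_, ?_⟩, ?_, ?_, ?_⟩
    · intro j hj
      rcases Nat.lt_succ_iff_lt_or_eq.1 hj with h | h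
      · rw [Function.update_of_ne (ne_of_lt h)]
        exact hp'.1 j h
      · rw [h, Function.update_self]
        exact hp.1 k (Nat.lt_succ_self k)
    · intro j hj
      rcases Nat.lt_succ_iff_lt_or_eq.1 hj with h | h
      · rw [Function.update_of_ne (by omega), Function.update_of_ne (by omega)]
        exact hp'.2 j h
      · rw [h, Function.update_self, Function.update_of_ne (by omega)]
        refine lt_of_le_of_lt (hle j) ?_
        have h3 := hp.2 j hj
        rwa [h] at h3
    · intro j
      by_cases h : j = k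
      · rw [h, Function.update_self]
      · rw [Function.update_of_ne h]
        exact hle j
    · rw [Tri_len, Tri_len, hcongr.2, Function.update_self, hlen]
      omega
    · have e : (ps r * CS m (k + 1) p - CS m (k + 1) (Function.update p' k (p k)) : R D n)
          = (ps r * Cc (p k) (m + k) - Cc (p k) (m + k) * ps r') * CS m k p
            + Cc (p k) (m + k) * (ps r' * CS m k p - CS m k p') := by
        rw [Tri_CS, Tri_CS, hcongr.1, Function.update_self]
        noncomm_ring
      rw [e]
      exact Submodule.add_mem _ h1 (h2 _ hz)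
  · right; left
    refine ⟨s, by omega, hs2, ?_⟩
    have e : (ps r * CS m (k + 1) p - CS m (k + 1) p * ps s : R D n)
        = (ps r * Cc (p k) (m + k) - Cc (p k) (m + k) * ps r') * CS m k p
          + Cc (p k) (m + k) * (ps r' * CS m k p - CS m k p * ps s) := by
      rw [Tri_CS]
      noncomm_ring
    rw [e]
    exact Submodule.add_mem _ h1 (h2 _ hz)
  · right; right
    have e : (ps r * CS m (k + 1) p : R D n)
        = (ps r * Cc (p k) (m + k) - Cc (p k) (m + k) * ps r') * CS m k p
          + Cc (p k) (m + k) * (ps r' * CS m k p) := by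
      rw [Tri_CS]
      noncomm_ring
    rw [e]
    exact Submodule.add_mem _ h1 (h2 _ hz)

/-- THE TRICHOTOMY: multiplying a shuffle element by a generator on the left gives, modulo products with
at most `lenS m k p` factors, a longer shuffle element, or the same one times a parabolic generator on
the right, or nothing.

PROOF. Induction on k. k = 0: CS = 1, second case with s = r (r + 1 < m).
Step k → k + 1. Write q = m + k, c = p k ≤ q, C = CS m k p, so CS m (k+1) p = Cc c q * C; r < q.
lenS m (k+1) p = (q - c) + lenS m k p. IsSh m k p holds.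
(a) r + 1 < c: ps r * Cc c q = Cc c q * ps r (`ps_Cc_far`), and r + 1 < m + k, so the induction
hypothesis applies to ps r * C. If it gives p', put p'' j = p' j for j < k and p'' k = c: IsSh since
p' (k-1) ≤ p (k-1) < c. The other two cases are immediate (`Fil_mul`, `Cc_mem`).
(b) r + 1 = c: ps r * Cc c q = Cc r q. If k = 0 or p (k-1) < r: first case, exactly, with
p'' = Function.update p k r. Otherwise p (k-1) = r = c - 1 (k ≥ 1), C = Cc r (q-1) * C', C' = CS m (k-1) p,
and by `Cc_Cc` (with p := r, q := q) Cc r q * Cc r (q-1) ≡ Cc (r+1) q * Cc r (q-1) * ps (q-1); ps (q-1)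
commutes with C' (all indices there are ≤ m + k - 3, `ps_Cc_far`), so second case with s = q - 1
= m + k - 1, s + 1 = m + k < m + (k+1), s + 1 ≠ m since k ≥ 1.
The error is in Fil (2 (q-r) - 2 + lenS m (k-1) p), and 2 (q - r) - 2 + lenS m (k-1) p
= (q - c) + (q - 1 - r) + lenS m (k-1) p = lenS m (k+1) p.
(c) r = c (so c < q): `ps_Cc_eq`, third case.
(d) c < r < q: `ps_Cc_mid`: ps r * Cc c q ≡ Cc c q * ps (r-1), then the induction hypothesis for
ps (r-1) * C ((r - 1) + 1 = r < q = m + k), as in (a). -/
theorem trichotomy {m k : ℕ} {p : ℕ → ℕ} (hp : IsSh m k p) {r : ℕ} (hr : r + 1 < m + k) :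
    (∃ p', IsSh m k p' ∧ (∀ j, p' j ≤ p j) ∧ lenS m k p' = lenS m k p + 1 ∧
      (ps r * CS m k p - CS m k p' : R D n) ∈ Fil D n (m + k) (lenS m k p)) ∨
    (∃ s, s + 1 < m + k ∧ s + 1 ≠ m ∧
      (ps r * CS m k p - CS m k p * ps s : R D n) ∈ Fil D n (m + k) (lenS m k p)) ∨
    (ps r * CS m k p : R D n) ∈ Fil D n (m + k) (lenS m k p) := by
  induction k generalizing r with
  | zero =>
    right; left
    refine ⟨r, hr, by omega, ?_⟩
    have e : (ps r * CS m 0 p - CS m 0 p * ps r : R D n) = 0 := by
      show ps r * (1 : R D n) - 1 * ps r = 0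
      rw [mul_one, one_mul, sub_self]
    rw [e]
    exact Submodule.zero_mem _
  | succ k ih =>
    have hpk : IsSh m k p := ⟨fun j hj => hp.1 j (by omega), fun j hj => hp.2 j (by omega)⟩
    have hc : p k ≤ m + k := hp.1 k (Nat.lt_succ_self k)
    have hrq : r < m + k := by omega
    rcases lt_trichotomy (r + 1) (p k) with h | h | h
    · -- case (a)
      refine Tri_lift hp (r' := r) ?_ (ih hpk (by omega))
      rw [ps_Cc_far (Or.inl h), sub_self]
      exact Submodule.zero_mem _
    · -- case (b)
      have hCc : (ps r * Cc (p k) (m + k) : R D n) = Cc r (m + k) := by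
        rw [← h]
        exact (Cc_facts.2.1 r (m + k) hrq).symm
      by_cases hb : ∀ j, j + 1 = k → p j < r
      · left
        have hcongr := CS_congr (D := D) (n := n) (m := m) (k := k)
          (p := Function.update p k r) (p' := p)
          fun j hj => Function.update_of_ne (ne_of_lt hj) _ _
        refine ⟨Function.update p k r, ⟨?_, ?_⟩, ?_, ?_, ?_⟩
        · intro j hj
          rcases Nat.lt_succ_iff_lt_or_eq.1 hj with h' | h'
          · rw [Function.update_of_ne (ne_of_lt h')]
            exact hp.1 j hj
          · rw [h', Function.update_self]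
            omega
        · intro j hj
          rcases Nat.lt_succ_iff_lt_or_eq.1 hj with h' | h'
          · rw [Function.update_of_ne (by omega), Function.update_of_ne (by omega)]
            exact hp.2 j hj
          · rw [h', Function.update_self, Function.update_of_ne (by omega)]
            exact hb j h'
        · intro j
          by_cases h' : j = k
          · rw [h', Function.update_self]
            omega
          · rw [Function.update_of_ne h']
        · rw [Tri_len, Tri_len, hcongr.2, Function.update_self]
          omega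
        · have e : (ps r * CS m (k + 1) p - CS m (k + 1) (Function.update p k r) : R D n)
              = 0 := by
            rw [Tri_CS, Tri_CS, hcongr.1, Function.update_self, ← mul_assoc, hCc, sub_self]
          rw [e]
          exact Submodule.zero_mem _
      · push Not at hb
        obtain ⟨j, hj, hjr⟩ := hb
        subst hj
        have hpj : p j = r := by
          have h3 := hp.2 j (by omega)
          omega
        right; left
        refine ⟨m + j, by omega, by omega, ?_⟩
        have h4 := Cc_Cc (D := D) (n := n) (s := m + (j + 1 + 1)) (p := r) (q := m + (j + 1))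
          (by omega) (by omega)
        have h5 : m + (j + 1) - 1 = m + j := by omega
        rw [h5] at h4
        have e : (ps r * CS m (j + 1 + 1) p - CS m (j + 1 + 1) p * ps (m + j) : R D n)
            = (Cc r (m + (j + 1)) * Cc r (m + j) -
              Cc (r + 1) (m + (j + 1)) * Cc r (m + j) * ps (m + j)) * CS m j p := by
          rw [Tri_CS, ← mul_assoc, hCc, Tri_CS, hpj, ← h, sub_mul]
          simp only [mul_assoc]
          rw [Tri_comm p (le_refl (m + j))]
        rw [e]
        have h6 : (CS m j p : R D n) ∈ Fil D n (m + (j + 1 + 1)) (lenS m j p) :=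
          CS_mem p (by omega)
        refine Fil_mono le_rfl ?_ (Fil_mul h4 h6)
        rw [Tri_len, Tri_len, hpj, ← h]
        omega
    · rcases Nat.lt_or_ge (p k) r with h' | h'
      · -- case (d)
        refine Tri_lift hp (r' := r - 1) ?_ (ih hpk (by omega))
        exact Fil_mono le_rfl (by omega) (ps_Cc_mid h' hrq (Nat.lt_succ_self _))
      · -- case (c)
        have hrc : r = p k := by omega
        right; right
        have h1 : (ps r * Cc (p k) (m + k) : R D n) ∈
            Fil D n (m + (k + 1)) (m + k - p k - 1) := by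
          rw [hrc]
          exact ps_Cc_eq (by omega) (by omega)
        have h2 : (CS m k p : R D n) ∈ Fil D n (m + (k + 1)) (lenS m k p) :=
          CS_mem p (by omega)
        rw [Tri_CS, ← mul_assoc]
        refine Fil_mono le_rfl ?_ (Fil_mul h1 h2)
        rw [Tri_len]
        omega

end CA1492
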