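import Mathlib
import Pool.Agent.Lib.MP_ca1492_al.Alg.Tri

/-!
The shuffle elements generate over the parabolic subalgebra.
-/

namespace CA1492

variable {D : Dat} {n : ℕ}

/-- The spanning set (auxiliary). -/
def SpanSet (D : Dat) (n m k d : ℕ) : Set (R D n) :=
  {z : R D n | ∃ (p : ℕ → ℕ) (b : R D n), IsSh m k p ∧ lenS m k p ≤ d ∧
      b ∈ Par D n m k ∧ z = CS m k p * b}

lemma SpanSet_mono (m k : ℕ) {d d' : ℕ} (h : d ≤ d') :
    Submodule.span ℂ (SpanSet D n m k d) ≤ Submodule.span ℂ (SpanSet D n m k d') := by
  apply Submodule.span_mono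
  rintro z ⟨p, b, h1, h2, h3, h4⟩
  exact ⟨p, b, h1, h2.trans h, h3, h4⟩

lemma Span_mul_par (m k d : ℕ) {b : R D n} (hb : b ∈ Par D n m k) {x : R D n}
    (hx : x ∈ Submodule.span ℂ (SpanSet D n m k d)) :
    x * b ∈ Submodule.span ℂ (SpanSet D n m k d) := by
  induction hx using Submodule.span_induction with
  | mem z hz =>
    obtain ⟨p, b', h1, h2, h3, h4⟩ := hz
    apply Submodule.subset_span
    exact ⟨p, b' * b, h1, h2, (Par D n m k).mul_mem h3 hb, by rw [h4, mul_assoc]⟩
  | zero => rw [zero_mul]; exact Submodule.zero_mem _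
  | add y z _ _ hy hz => rw [add_mul]; exact Submodule.add_mem _ hy hz
  | smul c y _ hy => rw [smul_mul_assoc]; exact Submodule.smul_mem _ _ hy

lemma Span_pol_mem (m k : ℕ) (f : MvPolynomial (Fin n) ℂ) : (pol f : R D n) ∈ Par D n m k := by
  induction f using MvPolynomial.induction_on with
  | C a =>
    rw [← MvPolynomial.algebraMap_eq, AlgHom.commutes]
    exact (Par D n m k).algebraMap_mem a
  | add p q hp hq => rw [map_add]; exact (Par D n m k).add_mem hp hq
  | mul_X p j hp =>
    rw [map_mul, pol_X]
    exact (Par D n m k).mul_mem hp (Algebra.subset_adjoin (Or.inl (Or.inr ⟨j, rfl⟩)))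

lemma Span_CS_one (m k : ℕ) : (CS m k (fun j => m + j) : R D n) = 1 := by
  induction k with
  | zero => rfl
  | succ k ih =>
    have h : (CS m (k + 1) (fun j => m + j) : R D n) =
        Cc (m + k) (m + k) * CS m k (fun j => m + j) := rfl
    rw [h, ih, Cc_facts.1 (m + k) (m + k) le_rfl, mul_one]

/-- PROOF. Induction on d. d = 0: p j = m + j gives CS m k p = 1, lenS = 0, and Fil 0 ⊆ Par.
Step: the new elements are ps r * z, r + 1 < m + k, z ∈ Fil d; by induction (and linearity) z may be
replaced by CS m k p * b with lenS m k p ≤ d, b ∈ Par. By `trichotomy` ps r * CS m k p is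
CS m k p' + E, or CS m k p * ps s + E, or E, with E ∈ Fil (lenS m k p) ⊆ Fil d; ps s ∈ Par.
E * b is in the span by the induction hypothesis for E (the span is stable under right multiplication
by Par). -/
theorem Fil_le_span (m k d : ℕ) : ∀ x ∈ Fil D n (m + k) d,
    x ∈ Submodule.span ℂ {z : R D n | ∃ (p : ℕ → ℕ) (b : R D n), IsSh m k p ∧ lenS m k p ≤ d ∧
      b ∈ Par D n m k ∧ z = CS m k p * b} := by
  show ∀ x ∈ Fil D n (m + k) d, x ∈ Submodule.span ℂ (SpanSet D n m k d)
  induction d with
  | zero =>
    intro x hx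
    have h0 : Fil D n (m + k) 0 ≤ Submodule.span ℂ (SpanSet D n m k 0) := by
      refine Submodule.span_le.2 ?_
      rintro y ⟨f, w, rfl⟩
      apply Submodule.subset_span
      refine ⟨fun j => m + j, pol f * ew w, ⟨fun j _ => le_rfl, fun j _ => ?_⟩, ?_, ?_, ?_⟩
      · show m + j < m + (j + 1)
        omega
      · have : lenS m k (fun j => m + j) = 0 := by
          unfold lenS
          apply Finset.sum_eq_zero
          intro j _
          exact Nat.sub_self _
        exact this.le
      · exact (Par D n m k).mul_mem (Span_pol_mem m k f)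
          (Algebra.subset_adjoin (Or.inl (Or.inl ⟨w, rfl⟩)))
      · rw [Span_CS_one, one_mul]
    exact h0 hx
  | succ d ih =>
    have key : ∀ r : ℕ, r + 1 < m + k → ∀ z ∈ Submodule.span ℂ (SpanSet D n m k d),
        ps r * z ∈ Submodule.span ℂ (SpanSet D n m k (d + 1)) := by
      intro r hr z hz
      induction hz using Submodule.span_induction with
      | mem z hz =>
        obtain ⟨p, b, h1, h2, h3, rfl⟩ := hz
        rw [← mul_assoc]
        have hE : ∀ e : R D n, e ∈ Fil D n (m + k) (lenS m k p) →
            e * b ∈ Submodule.span ℂ (SpanSet D n m k (d + 1)) := by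
          intro e he
          have he' : e ∈ Submodule.span ℂ (SpanSet D n m k d) := ih e (Fil_mono le_rfl h2 he)
          exact SpanSet_mono m k (Nat.le_succ d) (Span_mul_par m k d h3 he')
        rcases trichotomy (D := D) (n := n) h1 hr with ⟨p', q1, -, q3, q4⟩ | ⟨s, q1, q2, q3⟩ | q
        · have e1 : (ps r * CS m k p : R D n) * b =
              (ps r * CS m k p - CS m k p') * b + CS m k p' * b := by
            rw [sub_mul, sub_add_cancel]
          rw [e1]
          refine Submodule.add_mem _ (hE _ q4) (Submodule.subset_span ⟨p', b, q1, ?_, h3, rfl⟩)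
          omega
        · have e1 : (ps r * CS m k p : R D n) * b =
              (ps r * CS m k p - CS m k p * ps s) * b + CS m k p * (ps s * b) := by
            rw [sub_mul, mul_assoc (CS m k p) (ps s) b, sub_add_cancel]
          rw [e1]
          refine Submodule.add_mem _ (hE _ q3)
            (Submodule.subset_span ⟨p, ps s * b, h1, h2.trans (Nat.le_succ d), ?_, rfl⟩)
          exact (Par D n m k).mul_mem (Algebra.subset_adjoin (Or.inr ⟨s, q1, q2, rfl⟩)) h3
        · exact hE _ q
      | zero => rw [mul_zero]; exact Submodule.zero_mem _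
      | add y z _ _ hy hz => rw [mul_add]; exact Submodule.add_mem _ hy hz
      | smul c y _ hy => rw [mul_smul_comm]; exact Submodule.smul_mem _ _ hy
    intro x hx
    have h0 : Fil D n (m + k) (d + 1) ≤ Submodule.span ℂ (SpanSet D n m k (d + 1)) := by
      refine sup_le ?_ (Submodule.span_le.2 ?_)
      · intro y hy
        exact SpanSet_mono m k (Nat.le_succ d) (ih y hy)
      · rintro y ⟨r, z, hr, hz, rfl⟩
        exact key r hr z (ih z hz)
    exact h0 hx

end CA1492
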