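import Mathlib
import Pool.Agent.Lib.MP_ca1492_al.Alg.Iota
import Pool.Agent.Lib.MP_ca1492_al.Alg.Span

/-!
`R D (m + k)` is a free right module over the parabolic subalgebra `R D m ⊗ R D k`, with basis the
shuffle elements.
-/

namespace CA1492

open MvPolynomial TensorProduct

variable {D : Dat}

/-- Shuffles: strictly increasing positions of the k right letters. -/
abbrev Shf (m k : ℕ) : Type := {p : Fin k → Fin (m + k) // StrictMono p}

/-- As a function on ℕ. -/
def shf {m k : ℕ} (p : Shf m k) : ℕ → ℕ := fun j => if h : j < k then (p.1 ⟨j, h⟩).val else 0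

/-- The identity shuffle. -/
def shfId (m k : ℕ) : Shf m k := ⟨fun j => Fin.natAdd m j, fun a b h => by simpa using h⟩

/-- PROOF: p j ≤ m + j because p is strictly increasing with values < m + k. -/
theorem isSh_shf {m k : ℕ} (p : Shf m k) : IsSh m k (shf p) := by
  have h1 : ∀ d j : ℕ, ∀ hj : j < k, j + d + 1 = k → (p.1 ⟨j, hj⟩).val ≤ m + j := by
    intro d
    induction d with
    | zero =>
      intro j hj hjk
      have := (p.1 ⟨j, hj⟩).isLt
      omega
    | succ d ih =>
      intro j hj hjk
      have h2 := ih (j + 1) (by omega) (by omega)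
      have h3 : p.1 ⟨j, hj⟩ < p.1 ⟨j + 1, by omega⟩ := p.2 (by
        rw [Fin.mk_lt_mk]
        omega)
      have h4 : (p.1 ⟨j, hj⟩).val < (p.1 ⟨j + 1, by omega⟩).val := h3
      omega
  refine ⟨fun j hj => ?_, fun j hj => ?_⟩
  · unfold shf
    rw [dif_pos hj]
    exact h1 (k - j - 1) j hj (by omega)
  · have hj' : j < k := by omega
    unfold shf
    rw [dif_pos hj, dif_pos hj']
    exact p.2 (by
      rw [Fin.mk_lt_mk]
      omega)

/-- Conversely. PROOF: p j ≤ m + j < m + k. -/
theorem exists_shf {m k : ℕ} {p : ℕ → ℕ} (hp : IsSh m k p) :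
    ∃ q : Shf m k, ∀ j < k, shf q j = p j := by
  obtain ⟨h1, h2⟩ := hp
  have h3 : ∀ j i : ℕ, i < j → j < k → p i < p j := by
    intro j
    induction j with
    | zero => intro i hi _; omega
    | succ j ih =>
      intro i hi hj
      have h4 := h2 j hj
      rcases Nat.lt_succ_iff_lt_or_eq.1 hi with h | h
      · exact lt_trans (ih i h (by omega)) h4
      · rw [h]; exact h4
  refine ⟨⟨fun j => ⟨p j.val, by have := h1 j.val j.isLt; have := j.isLt; omega⟩,
    fun a b hab => ?_⟩, fun j hj => ?_⟩
  · exact h3 b.val a.val hab b.isLt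
  · unfold shf
    rw [dif_pos hj]

/-- PROOF: strictly monotone maps Fin k → Fin (m+k) correspond to the subsets with k elements
(`Finset.orderEmbOfFin`, `Fintype.card_finset_len`, Nat.choose_symm). -/
theorem card_shf (m k : ℕ) : Fintype.card (Shf m k) = (m + k).choose k := by
  classical
  have e : Shf m k ≃ {s : Finset (Fin (m + k)) // s.card = k} :=
    { toFun := fun p => ⟨Finset.univ.map ⟨p.1, p.2.injective⟩, by
        rw [Finset.card_map, Finset.card_univ, Fintype.card_fin]⟩
      invFun := fun s => ⟨s.1.orderEmbOfFin s.2, (s.1.orderEmbOfFin s.2).strictMono⟩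
      left_inv := fun p => by
        apply Subtype.ext
        symm
        apply Finset.orderEmbOfFin_unique
        · intro x
          simp
        · exact p.2
      right_inv := fun s => by
        apply Subtype.ext
        ext x
        simp only [Finset.mem_map, Finset.mem_univ, true_and, Function.Embedding.coeFn_mk]
        have := Finset.range_orderEmbOfFin s.1 s.2
        constructor
        · rintro ⟨y, rfl⟩
          exact Finset.orderEmbOfFin_mem s.1 s.2 y
        · intro hx
          have h1 : x ∈ Set.range (s.1.orderEmbOfFin s.2) := by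
            rw [this]
            exact hx
          exact h1 }
  rw [Fintype.card_congr e, Fintype.card_finset_len, Fintype.card_fin]

/-- Every element is a combination of the shuffle elements.
PROOF: `exists_Fil`, `Fil_le_span` (n = m + k), `iota_range` (Par = range of iota), `exists_shf`,
`CS_congr`. -/
theorem free_span (m k : ℕ) (x : R D (m + k)) :
    ∃ z : Shf m k → R D m ⊗[ℂ] R D k, x = ∑ p, CS m k (shf p) * iota D m k (z p) := by
  classical
  obtain ⟨d, hd⟩ := exists_Fil x
  have h1 := Fil_le_span m k d x hd
  clear hd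
  induction h1 using Submodule.span_induction with
  | mem x hx =>
    obtain ⟨p, b, hp, _, hb, rfl⟩ := hx
    obtain ⟨q, hq⟩ := exists_shf hp
    rw [← iota_range] at hb
    obtain ⟨t, ht⟩ := hb
    have ht' : iota D m k t = b := ht
    refine ⟨fun p' => if p' = q then t else 0, ?_⟩
    rw [Finset.sum_eq_single q]
    · beta_reduce
      rw [if_pos rfl, ht', (CS_congr (D := D) (n := m + k) (m := m) (k := k) hq).1]
    · intro p' _ hp'
      beta_reduce
      rw [if_neg hp', map_zero, mul_zero]
    · intro h
      exact absurd (Finset.mem_univ _) h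
  | zero =>
    refine ⟨fun _ => 0, ?_⟩
    symm
    refine Finset.sum_eq_zero fun p _ => ?_
    rw [map_zero, mul_zero]
  | add x y _ _ hx hy =>
    obtain ⟨f, hf⟩ := hx
    obtain ⟨g, hg⟩ := hy
    refine ⟨fun p => f p + g p, ?_⟩
    conv_lhs => rw [hf, hg]
    rw [← Finset.sum_add_distrib]
    refine Finset.sum_congr rfl fun p _ => ?_
    rw [map_add, mul_add]
  | smul c x _ hx =>
    obtain ⟨f, hf⟩ := hx
    refine ⟨fun p => c • f p, ?_⟩
    conv_lhs => rw [hf]
    rw [Finset.smul_sum]
    refine Finset.sum_congr rfl fun p _ => ?_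
    rw [map_smul, mul_smul_comm]

end CA1492
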