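import Mathlib
import Pool.Agent.Lib.MP_ca1492_al.Alg.Defs

/-!
For every word w0 a representation of `R D n` on the functions `Perm (Fin n) → K`,
K = field of fractions of the polynomial ring, by K-linear maps.
(The relations have been tested numerically for n = 3.)
-/

namespace CA1492

open MvPolynomial

variable {D : Dat} {n : ℕ}

/-- The field. -/
abbrev KX (n : ℕ) : Type := FractionRing (MvPolynomial (Fin n) ℂ)

/-- The variables in the field. -/
noncomputable def yv {n : ℕ} (a : Fin n) : KX n := algebraMap (MvPolynomial (Fin n) ℂ) (KX n) (X a)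

/-- The action of `ew w`. -/
noncomputable def XE (w0 w : Wd D n) : Module.End (KX n) (Equiv.Perm (Fin n) → KX n) where
  toFun F u := if w0 ∘ u.symm = w then F u else 0
  map_add' F G := by
    funext u
    simp only [Pi.add_apply]
    split_ifs <;> simp
  map_smul' c F := by
    funext u
    simp only [Pi.smul_apply, smul_eq_mul, RingHom.id_apply]
    split_ifs <;> simp

/-- The action of `yk k`. -/
noncomputable def XY (k : Fin n) : Module.End (KX n) (Equiv.Perm (Fin n) → KX n) where
  toFun F u := yv (u.symm k) * F u
  map_add' F G := by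
    funext u
    simp only [Pi.add_apply]
    ring
  map_smul' c F := by
    funext u
    simp only [Pi.smul_apply, smul_eq_mul, RingHom.id_apply]
    ring

/-- The action of `ps r`. -/
noncomputable def XS (w0 : Wd D n) (r : ℕ) : Module.End (KX n) (Equiv.Perm (Fin n) → KX n) where
  toFun F u :=
    if h : r + 1 < n then
      if w0 (u.symm ⟨r, by omega⟩) = w0 (u.symm ⟨r + 1, h⟩) then
        (F u - F (sw n r * u)) / (yv (u.symm ⟨r, by omega⟩) - yv (u.symm ⟨r + 1, h⟩))
      else
        (if D.arr (w0 (u.symm ⟨r, by omega⟩)) (w0 (u.symm ⟨r + 1, h⟩)) = true then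
          (yv (u.symm ⟨r, by omega⟩) - yv (u.symm ⟨r + 1, h⟩)) else 1) * F (sw n r * u)
    else 0
  map_add' F G := by
    funext u
    simp only [Pi.add_apply]
    split_ifs <;> ring
  map_smul' c F := by
    funext u
    simp only [Pi.smul_apply, smul_eq_mul, RingHom.id_apply]
    split_ifs <;> ring

end CA1492
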