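import Mathlib
import Pool.Agent.Lib.MP_ca1492_al.Alg.RepXDef

/-!
The relations of the representation X, except the far commutation and the braid relation.
-/

namespace CA1492

open MvPolynomial

variable {D : Dat} {n : ℕ}

/-- PROOF: yv is injective (the X a are different and the map to the field is injective). -/
theorem yv_sub_ne {a b : Fin n} (h : a ≠ b) : (yv a - yv b : KX n) ≠ 0 := by
  intro h0
  have h1 : (yv a : KX n) = yv b := sub_eq_zero.mp h0
  have h2 : (X a : MvPolynomial (Fin n) ℂ) = X b :=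
    IsFractionRing.injective (MvPolynomial (Fin n) ℂ) (KX n) h1
  exact h (MvPolynomial.X_injective h2)

theorem repXa_sw_symm (n r : ℕ) : (sw n r).symm = sw n r := by
  unfold sw
  split_ifs
  · exact Equiv.symm_swap _ _
  · rfl

theorem repXa_sw_mul (n r : ℕ) : sw n r * sw n r = 1 := by
  unfold sw
  split_ifs
  · exact Equiv.swap_mul_self _ _
  · rfl

theorem repXa_symm_apply (r : ℕ) (u : Equiv.Perm (Fin n)) (j : Fin n) :
    (sw n r * u).symm j = u.symm (sw n r j) := by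
  have h : (sw n r * u).symm j = u.symm ((sw n r).symm j) := rfl
  rw [h, repXa_sw_symm]

theorem repXa_sw_left (r : ℕ) (h : r + 1 < n) : sw n r ⟨r, by omega⟩ = ⟨r + 1, h⟩ := by
  unfold sw
  rw [dif_pos h]
  exact Equiv.swap_apply_left _ _

theorem repXa_sw_right (r : ℕ) (h : r + 1 < n) : sw n r ⟨r + 1, h⟩ = ⟨r, by omega⟩ := by
  unfold sw
  rw [dif_pos h]
  exact Equiv.swap_apply_right _ _

theorem repXa_sw_other (r : ℕ) (j : Fin n) (h1 : j.val ≠ r) (h2 : j.val ≠ r + 1) :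
    sw n r j = j := by
  unfold sw
  split_ifs
  · apply Equiv.swap_apply_of_ne_of_ne
    · intro h; exact h1 (by rw [h])
    · intro h; exact h2 (by rw [h])
  · rfl

theorem repXa_sw_sw (n r : ℕ) (j : Fin n) : sw n r (sw n r j) = j := by
  have h := congrArg (fun σ : Equiv.Perm (Fin n) => σ j) (repXa_sw_mul n r)
  exact h

/-- Inverse of sw n r * u at the positions.
PROOF: (sw n r * u).symm j = u.symm ((sw n r).symm j), and sw n r is the swap. -/
theorem sw_mul_symm (r : ℕ) (h : r + 1 < n) (u : Equiv.Perm (Fin n)) :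
    (sw n r * u).symm ⟨r, by omega⟩ = u.symm ⟨r + 1, h⟩ ∧
    (sw n r * u).symm ⟨r + 1, h⟩ = u.symm ⟨r, by omega⟩ ∧
    (∀ j : Fin n, j.val ≠ r → j.val ≠ r + 1 → (sw n r * u).symm j = u.symm j) ∧
    sw n r * (sw n r * u) = u := by
  refine ⟨?_, ?_, ?_, ?_⟩
  · rw [repXa_symm_apply, repXa_sw_left r h]
  · rw [repXa_symm_apply, repXa_sw_right r h]
  · intro j h1 h2
    rw [repXa_symm_apply, repXa_sw_other r j h1 h2]
  · rw [← mul_assoc, repXa_sw_mul, one_mul]

theorem repXa_aux {K : Type*} [Field K] (a b c d : K) :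
    (a - b) / (c - d) - (b - a) / (d - c) = 0 := by
  rw [← neg_sub a b, ← neg_sub c d, neg_div_neg_eq, sub_self]

theorem repXa_XE (w0 w : Wd D n) (F : Equiv.Perm (Fin n) → KX n) (u : Equiv.Perm (Fin n)) :
    XE w0 w F u = if w0 ∘ u.symm = w then F u else 0 := rfl

theorem repXa_XY (k : Fin n) (F : Equiv.Perm (Fin n) → KX n) (u : Equiv.Perm (Fin n)) :
    XY k F u = yv (u.symm k) * F u := rfl

theorem repXa_XS_eq (w0 : Wd D n) (r : ℕ) (h : r + 1 < n) (F : Equiv.Perm (Fin n) → KX n)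
    (u : Equiv.Perm (Fin n)) (he : w0 (u.symm ⟨r, by omega⟩) = w0 (u.symm ⟨r + 1, h⟩)) :
    XS w0 r F u =
      (F u - F (sw n r * u)) / (yv (u.symm ⟨r, by omega⟩) - yv (u.symm ⟨r + 1, h⟩)) := by
  show (if h : r + 1 < n then
      if w0 (u.symm ⟨r, by omega⟩) = w0 (u.symm ⟨r + 1, h⟩) then
        (F u - F (sw n r * u)) / (yv (u.symm ⟨r, by omega⟩) - yv (u.symm ⟨r + 1, h⟩))
      else
        (if D.arr (w0 (u.symm ⟨r, by omega⟩)) (w0 (u.symm ⟨r + 1, h⟩)) = true then
          (yv (u.symm ⟨r, by omega⟩) - yv (u.symm ⟨r + 1, h⟩)) else 1) * F (sw n r * u)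
    else 0) = _
  rw [dif_pos h, if_pos he]

theorem repXa_XS_ne (w0 : Wd D n) (r : ℕ) (h : r + 1 < n) (F : Equiv.Perm (Fin n) → KX n)
    (u : Equiv.Perm (Fin n)) (he : ¬ w0 (u.symm ⟨r, by omega⟩) = w0 (u.symm ⟨r + 1, h⟩)) :
    XS w0 r F u =
      (if D.arr (w0 (u.symm ⟨r, by omega⟩)) (w0 (u.symm ⟨r + 1, h⟩)) = true then
          (yv (u.symm ⟨r, by omega⟩) - yv (u.symm ⟨r + 1, h⟩)) else 1) * F (sw n r * u) := by
  show (if h : r + 1 < n then
      if w0 (u.symm ⟨r, by omega⟩) = w0 (u.symm ⟨r + 1, h⟩) then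
        (F u - F (sw n r * u)) / (yv (u.symm ⟨r, by omega⟩) - yv (u.symm ⟨r + 1, h⟩))
      else
        (if D.arr (w0 (u.symm ⟨r, by omega⟩)) (w0 (u.symm ⟨r + 1, h⟩)) = true then
          (yv (u.symm ⟨r, by omega⟩) - yv (u.symm ⟨r + 1, h⟩)) else 1) * F (sw n r * u)
    else 0) = _
  rw [dif_pos h, if_neg he]

theorem repXa_XS_out (w0 : Wd D n) (r : ℕ) (h : ¬ r + 1 < n) : XS w0 r = 0 :=
  LinearMap.ext fun _ => funext fun _ => dif_neg h

theorem repXa_comp (w0 : Wd D n) (r : ℕ) (u : Equiv.Perm (Fin n)) :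
    w0 ∘ (sw n r * u).symm = (w0 ∘ u.symm) ∘ sw n r := by
  funext j
  show w0 ((sw n r * u).symm j) = w0 (u.symm (sw n r j))
  rw [repXa_symm_apply]

theorem repXa_comp_sw (w v : Wd D n) (r : ℕ) : v ∘ sw n r = w ↔ v = w ∘ sw n r := by
  constructor
  · intro h
    rw [← h]
    funext j
    show v j = v (sw n r (sw n r j))
    rw [repXa_sw_sw]
  · intro h
    rw [h]
    funext j
    show w (sw n r (sw n r j)) = w j
    rw [repXa_sw_sw]

theorem repXa_eq_comp (v : Wd D n) (r : ℕ) (h : r + 1 < n)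
    (he : v ⟨r, by omega⟩ = v ⟨r + 1, h⟩) : v ∘ sw n r = v := by
  funext j
  show v (sw n r j) = v j
  by_cases h1 : j.val = r
  · have hj : j = ⟨r, by omega⟩ := Fin.ext h1
    rw [hj, repXa_sw_left r h, he]
  · by_cases h2 : j.val = r + 1
    · have hj : j = ⟨r + 1, h⟩ := Fin.ext h2
      rw [hj, repXa_sw_right r h, he]
    · rw [repXa_sw_other r j h1 h2]

/-- PROOF: direct (for E_sum: exactly one word w is equal to w0 ∘ u.symm). -/
theorem X_easy (w0 : Wd D n) : (∀ r, ¬ (r + 1 < n) → XS w0 r = 0) ∧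
    (∀ w w', XE w0 w * XE w0 w' = if w = w' then XE w0 w else 0) ∧
    (∑ w, XE w0 w = 1) ∧ (∀ k w, XY k * XE w0 w = XE w0 w * XY k) ∧
    (∀ k l : Fin n, (XY k * XY l : Module.End (KX n) (Equiv.Perm (Fin n) → KX n)) = XY l * XY k) := by
  refine ⟨fun r h => repXa_XS_out w0 r h, ?_, ?_, ?_, ?_⟩
  · intro w w'
    refine LinearMap.ext fun F => funext fun u => ?_
    show (if w0 ∘ u.symm = w then (if w0 ∘ u.symm = w' then F u else 0) else 0) = _
    by_cases hw : w = w'
    · subst hw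
      rw [if_pos rfl, repXa_XE]
      split_ifs <;> rfl
    · rw [if_neg hw]
      show _ = (0 : KX n)
      split_ifs with h1 h2
      · exact absurd (h1.symm.trans h2) hw
      · rfl
      · rfl
  · refine LinearMap.ext fun F => funext fun u => ?_
    rw [LinearMap.sum_apply, Finset.sum_apply]
    simp only [repXa_XE]
    rw [Finset.sum_ite_eq, if_pos (Finset.mem_univ _)]
    rfl
  · intro k w
    refine LinearMap.ext fun F => funext fun u => ?_
    show yv (u.symm k) * (if w0 ∘ u.symm = w then F u else 0) =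
      if w0 ∘ u.symm = w then yv (u.symm k) * F u else 0
    split_ifs
    · rfl
    · exact mul_zero _
  · intro k l
    refine LinearMap.ext fun F => funext fun u => ?_
    show yv (u.symm k) * (yv (u.symm l) * F u) = yv (u.symm l) * (yv (u.symm k) * F u)
    ring

/-- PROOF: evaluate at F, u: for r + 1 < n, w0 ∘ (sw n r * u).symm = w ↔ w0 ∘ u.symm = w ∘ sw n r;
in the case of equal letters w ∘ sw n r = w when w0 ∘ u.symm = w. -/
theorem X_S_E (w0 : Wd D n) (r : ℕ) (w : Wd D n) :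
    XS w0 r * XE w0 w = XE w0 (w ∘ sw n r) * XS w0 r := by
  by_cases h : r + 1 < n
  · refine LinearMap.ext fun F => funext fun u => ?_
    show XS w0 r (XE w0 w F) u = if w0 ∘ u.symm = w ∘ sw n r then XS w0 r F u else 0
    by_cases he : w0 (u.symm ⟨r, by omega⟩) = w0 (u.symm ⟨r + 1, h⟩)
    · rw [repXa_XS_eq w0 r h _ u he, repXa_XS_eq w0 r h _ u he, repXa_XE, repXa_XE, repXa_comp]
      have hc : (w0 ∘ u.symm) ∘ sw n r = w0 ∘ u.symm := repXa_eq_comp _ r h he
      have hi : w0 ∘ u.symm = w ∘ sw n r ↔ w0 ∘ u.symm = w := by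
        rw [← repXa_comp_sw, hc]
      rw [hc]
      by_cases hw : w0 ∘ u.symm = w
      · rw [if_pos hw, if_pos hw, if_pos (hi.mpr hw)]
      · rw [if_neg hw, if_neg hw, if_neg (fun h' => hw (hi.mp h')), sub_zero, zero_div]
    · rw [repXa_XS_ne w0 r h _ u he, repXa_XS_ne w0 r h _ u he, repXa_XE, repXa_comp]
      by_cases hw : w0 ∘ u.symm = w ∘ sw n r
      · rw [if_pos ((repXa_comp_sw w _ r).mpr hw), if_pos hw]
      · rw [if_neg (fun h' => hw ((repXa_comp_sw w _ r).mp h')), if_neg hw, mul_zero]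
  · rw [repXa_XS_out w0 r h, zero_mul, mul_zero]

/-- PROOF: evaluate at F, u; only the words with w0 ∘ u.symm = w or w ∘ sw n r matter; equal letters:
(y_j F(u) - y_{j'} F(s u))/(y_a - y_b) with the three cases for k; different letters: both sides are
the factor times y_{..} F (s u). -/
theorem X_S_Y (w0 : Wd D n) (r : ℕ) (h : r + 1 < n) (k : Fin n) (w : Wd D n) :
    XS w0 r * XY k * XE w0 w = XY (sw n r k) * XS w0 r * XE w0 w +
      (if w ⟨r, by omega⟩ = w ⟨r + 1, h⟩ then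
        (if k = ⟨r, by omega⟩ then (1 : ℂ) else if k = ⟨r + 1, h⟩ then -1 else 0) else 0) •
          XE w0 w := by
  refine LinearMap.ext fun F => funext fun u => ?_
  obtain ⟨c, hc⟩ : ∃ c : ℂ, c = (if w ⟨r, by omega⟩ = w ⟨r + 1, h⟩ then
        (if k = ⟨r, by omega⟩ then (1 : ℂ) else if k = ⟨r + 1, h⟩ then -1 else 0) else 0) := ⟨_, rfl⟩
  rw [← hc]
  show XS w0 r (XY k (XE w0 w F)) u =
    yv (u.symm (sw n r k)) * XS w0 r (XE w0 w F) u + c • XE w0 w F u
  by_cases he : w0 (u.symm ⟨r, by omega⟩) = w0 (u.symm ⟨r + 1, h⟩)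
  · rw [repXa_XS_eq w0 r h _ u he, repXa_XS_eq w0 r h _ u he, repXa_XY, repXa_XY,
      repXa_symm_apply, repXa_XE, repXa_XE, repXa_comp, repXa_eq_comp (w0 ∘ u.symm) r h he]
    by_cases hw : w0 ∘ u.symm = w
    · rw [if_pos hw, if_pos hw]
      have hww : w ⟨r, by omega⟩ = w ⟨r + 1, h⟩ := by rw [← hw]; exact he
      rw [if_pos hww] at hc
      have hne : (yv (u.symm ⟨r, by omega⟩) - yv (u.symm ⟨r + 1, h⟩) : KX n) ≠ 0 := by
        apply yv_sub_ne
        intro h'
        have := congrArg Fin.val (u.symm.injective h')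
        simp at this
      by_cases hk1 : k = ⟨r, by omega⟩
      · rw [if_pos hk1] at hc
        rw [hc, hk1, repXa_sw_left r h, one_smul]
        field_simp
        ring
      · rw [if_neg hk1] at hc
        by_cases hk2 : k = ⟨r + 1, h⟩
        · rw [if_pos hk2] at hc
          rw [hc, hk2, repXa_sw_right r h, neg_smul, one_smul]
          field_simp
          ring
        · rw [if_neg hk2] at hc
          rw [hc, zero_smul, add_zero, repXa_sw_other r k (fun h' => hk1 (Fin.ext h'))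
            (fun h' => hk2 (Fin.ext h'))]
          ring
    · rw [if_neg hw, if_neg hw, mul_zero, mul_zero, sub_zero, zero_div, mul_zero, smul_zero,
        add_zero]
  · rw [repXa_XS_ne w0 r h _ u he, repXa_XS_ne w0 r h _ u he, repXa_XY, repXa_symm_apply]
    have h0 : c • XE w0 w F u = 0 := by
      rw [repXa_XE]
      by_cases hw : w0 ∘ u.symm = w
      · have hww : ¬ w ⟨r, by omega⟩ = w ⟨r + 1, h⟩ := by rw [← hw]; exact he
        rw [hc, if_neg hww, zero_smul]
      · rw [if_neg hw, smul_zero]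
    rw [h0, add_zero]
    ring

/-- PROOF: evaluate at F, u. Equal letters: the square of (F(u) - F(su))/(y_a - y_b) is 0. Different
letters: the product of the two factors (arr is antisymmetric: `D.asym`). -/
theorem X_S_S (w0 : Wd D n) (r : ℕ) (h : r + 1 < n) (w : Wd D n) :
    XS w0 r * XS w0 r * XE w0 w =
      if w ⟨r, by omega⟩ = w ⟨r + 1, h⟩ then 0
      else if D.arr (w ⟨r, by omega⟩) (w ⟨r + 1, h⟩) = true then
        (XY ⟨r, by omega⟩ - XY ⟨r + 1, h⟩) * XE w0 w
      else if D.arr (w ⟨r + 1, h⟩) (w ⟨r, by omega⟩) = true then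
        (XY ⟨r + 1, h⟩ - XY ⟨r, by omega⟩) * XE w0 w
      else XE w0 w := by
  refine LinearMap.ext fun F => funext fun u => ?_
  have hs := sw_mul_symm r h u
  have e1 : (XS w0 r * XS w0 r * XE w0 w) F u = XS w0 r (XS w0 r (XE w0 w F)) u := rfl
  rw [e1]
  by_cases he : w0 (u.symm ⟨r, by omega⟩) = w0 (u.symm ⟨r + 1, h⟩)
  · have he' : w0 ((sw n r * u).symm ⟨r, by omega⟩) = w0 ((sw n r * u).symm ⟨r + 1, h⟩) := by
      rw [hs.1, hs.2.1, he]
    rw [repXa_XS_eq w0 r h _ u he, repXa_XS_eq w0 r h _ u he, repXa_XS_eq w0 r h _ _ he',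
      hs.1, hs.2.1, hs.2.2.2]
    rw [repXa_aux, zero_div]
    by_cases hww : w ⟨r, by omega⟩ = w ⟨r + 1, h⟩
    · rw [if_pos hww]
      rfl
    · have hw : ¬ w0 ∘ u.symm = w := by
        intro hw
        apply hww
        rw [← hw]
        exact he
      have e0 : XE w0 w F u = 0 := by rw [repXa_XE, if_neg hw]
      rw [if_neg hww]
      split_ifs
      · show (0 : KX n) = yv (u.symm ⟨r, by omega⟩) * XE w0 w F u -
          yv (u.symm ⟨r + 1, h⟩) * XE w0 w F u
        rw [e0, mul_zero, mul_zero, sub_zero]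
      · show (0 : KX n) = yv (u.symm ⟨r + 1, h⟩) * XE w0 w F u -
          yv (u.symm ⟨r, by omega⟩) * XE w0 w F u
        rw [e0, mul_zero, mul_zero, sub_zero]
      · exact e0.symm
  · have he' : ¬ w0 ((sw n r * u).symm ⟨r, by omega⟩) = w0 ((sw n r * u).symm ⟨r + 1, h⟩) := by
      rw [hs.1, hs.2.1]
      exact fun h' => he h'.symm
    rw [repXa_XS_ne w0 r h _ u he, repXa_XS_ne w0 r h _ _ he', hs.1, hs.2.1, hs.2.2.2]
    by_cases hw : w0 ∘ u.symm = w
    · have ha : w ⟨r, by omega⟩ = w0 (u.symm ⟨r, by omega⟩) := by rw [← hw]; rfl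
      have hb : w ⟨r + 1, h⟩ = w0 (u.symm ⟨r + 1, h⟩) := by rw [← hw]; rfl
      rw [ha, hb, if_neg he]
      by_cases h1 : D.arr (w0 (u.symm ⟨r, by omega⟩)) (w0 (u.symm ⟨r + 1, h⟩)) = true
      · have h2 := D.asym _ _ h1
        have h3 : ¬ D.arr (w0 (u.symm ⟨r + 1, h⟩)) (w0 (u.symm ⟨r, by omega⟩)) = true := by
          rw [h2]
          exact Bool.false_ne_true
        rw [if_pos h1, if_pos h1, if_neg h3, one_mul]
        show _ = yv (u.symm ⟨r, by omega⟩) * XE w0 w F u - yv (u.symm ⟨r + 1, h⟩) * XE w0 w F u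
        ring
      · rw [if_neg h1, if_neg h1, one_mul]
        by_cases h3 : D.arr (w0 (u.symm ⟨r + 1, h⟩)) (w0 (u.symm ⟨r, by omega⟩)) = true
        · rw [if_pos h3, if_pos h3]
          show _ = yv (u.symm ⟨r + 1, h⟩) * XE w0 w F u - yv (u.symm ⟨r, by omega⟩) * XE w0 w F u
          ring
        · rw [if_neg h3, if_neg h3, one_mul]
    · have e0 : XE w0 w F u = 0 := by rw [repXa_XE, if_neg hw]
      rw [e0, mul_zero, mul_zero]
      split_ifs
      · rfl
      · show (0 : KX n) = yv (u.symm ⟨r, by omega⟩) * XE w0 w F u -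
          yv (u.symm ⟨r + 1, h⟩) * XE w0 w F u
        rw [e0, mul_zero, mul_zero, sub_zero]
      · show (0 : KX n) = yv (u.symm ⟨r + 1, h⟩) * XE w0 w F u -
          yv (u.symm ⟨r, by omega⟩) * XE w0 w F u
        rw [e0, mul_zero, mul_zero, sub_zero]
      · exact e0.symm

end CA1492
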