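import Mathlib
import Pool.Agent.Lib.MP_ca1492_al.Alg.RepXa

/-!
The braid relation and the far commutation of the representation X.
-/

namespace CA1492

open MvPolynomial

variable {D : Dat} {n : ℕ}

/-- Coefficient of `F u` in `XS w0 r F u`. -/
noncomputable def RepXb_al (w0 : Wd D n) (a b : Fin n) : KX n :=
  if w0 a = w0 b then (yv a - yv b)⁻¹ else 0

/-- Coefficient of `F (sw n r * u)` in `XS w0 r F u`. -/
noncomputable def RepXb_be (w0 : Wd D n) (a b : Fin n) : KX n :=
  if w0 a = w0 b then -(yv a - yv b)⁻¹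
  else if D.arr (w0 a) (w0 b) = true then yv a - yv b else 1

lemma RepXb_apply (w0 : Wd D n) (r : ℕ) (h : r + 1 < n) (F : Equiv.Perm (Fin n) → KX n)
    (u : Equiv.Perm (Fin n)) :
    XS w0 r F u = RepXb_al w0 (u.symm ⟨r, by omega⟩) (u.symm ⟨r + 1, h⟩) * F u +
      RepXb_be w0 (u.symm ⟨r, by omega⟩) (u.symm ⟨r + 1, h⟩) * F (sw n r * u) := by
  change (if h : r + 1 < n then
      if w0 (u.symm ⟨r, by omega⟩) = w0 (u.symm ⟨r + 1, h⟩) then
        (F u - F (sw n r * u)) / (yv (u.symm ⟨r, by omega⟩) - yv (u.symm ⟨r + 1, h⟩))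
      else
        (if D.arr (w0 (u.symm ⟨r, by omega⟩)) (w0 (u.symm ⟨r + 1, h⟩)) = true then
          (yv (u.symm ⟨r, by omega⟩) - yv (u.symm ⟨r + 1, h⟩)) else 1) * F (sw n r * u)
    else 0) = _
  rw [dif_pos h, RepXb_al, RepXb_be]
  split_ifs
  · rw [div_eq_mul_inv]
    ring
  · ring
  · ring

lemma RepXb_sw (r : ℕ) (h : r + 1 < n) : sw n r = Equiv.swap ⟨r, by omega⟩ ⟨r + 1, h⟩ := by
  rw [sw, dif_pos h]

lemma RepXb_comm (r s : ℕ) (h : r + 1 < s) (hs : s + 1 < n) (u : Equiv.Perm (Fin n)) :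
    sw n r * (sw n s * u) = sw n s * (sw n r * u) := by
  rw [← mul_assoc, ← mul_assoc]
  congr 1
  rw [RepXb_sw r (by omega), RepXb_sw s hs]
  apply Equiv.Perm.Disjoint.commute
  rw [Equiv.Perm.disjoint_iff_eq_or_eq]
  intro x
  by_cases hx : x.val = s ∨ x.val = s + 1
  · left
    apply Equiv.swap_apply_of_ne_of_ne
    · intro e
      rw [e] at hx
      simp only at hx
      omega
    · intro e
      rw [e] at hx
      simp only at hx
      omega
  · right
    push Not at hx
    apply Equiv.swap_apply_of_ne_of_ne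
    · intro e
      rw [e] at hx
      exact hx.1 rfl
    · intro e
      rw [e] at hx
      exact hx.2 rfl

lemma RepXb_braid_aux {α : Type*} [DecidableEq α] {x y z : α} (h1 : x ≠ y) (h2 : x ≠ z)
    (h3 : y ≠ z) : Equiv.swap y z * Equiv.swap x y * Equiv.swap y z =
      Equiv.swap x y * Equiv.swap y z * Equiv.swap x y := by
  rw [Equiv.swap_mul_swap_mul_swap h1 h2, Equiv.swap_comm x y, Equiv.swap_comm y z,
    Equiv.swap_mul_swap_mul_swap h3.symm h2.symm, Equiv.swap_comm]

lemma RepXb_braid (r : ℕ) (h : r + 2 < n) (u : Equiv.Perm (Fin n)) :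
    sw n (r + 1) * (sw n r * (sw n (r + 1) * u)) = sw n r * (sw n (r + 1) * (sw n r * u)) := by
  rw [← mul_assoc, ← mul_assoc, ← mul_assoc, ← mul_assoc]
  congr 1
  rw [RepXb_sw r (by omega), RepXb_sw (r + 1) (by omega)]
  have h1 : (⟨r, by omega⟩ : Fin n) ≠ ⟨r + 1, by omega⟩ := by
    intro e
    have := congrArg Fin.val e
    simp only at this
    omega
  have h2 : (⟨r, by omega⟩ : Fin n) ≠ ⟨r + 1 + 1, by omega⟩ := by
    intro e
    have := congrArg Fin.val e
    simp only at this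
    omega
  have h3 : (⟨r + 1, by omega⟩ : Fin n) ≠ ⟨r + 1 + 1, by omega⟩ := by
    intro e
    have := congrArg Fin.val e
    simp only at this
    omega
  exact RepXb_braid_aux h1 h2 h3

/-- PROOF: permutations sw n r and sw n s commute, the positions are disjoint (`sw_mul_symm`); evaluate
at F, u; field_simp; ring after case distinctions. -/
theorem X_S_far (w0 : Wd D n) (r s : ℕ) (h : r + 1 < s) :
    XS w0 r * XS w0 s = XS w0 s * XS w0 r := by
  by_cases hs : s + 1 < n
  · have hr : r + 1 < n := by omega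
    apply LinearMap.ext
    intro F
    funext u
    rw [Module.End.mul_apply, Module.End.mul_apply]
    obtain ⟨-, -, hr3, -⟩ := sw_mul_symm r hr u
    obtain ⟨-, -, hs3, -⟩ := sw_mul_symm s hs u
    rw [RepXb_apply w0 r hr (XS w0 s F), RepXb_apply w0 s hs F u,
      RepXb_apply w0 s hs F (sw n r * u), RepXb_apply w0 s hs (XS w0 r F),
      RepXb_apply w0 r hr F u, RepXb_apply w0 r hr F (sw n s * u), ← RepXb_comm r s h hs,
      hr3 ⟨s, by omega⟩ (by change s ≠ r; omega) (by change s ≠ r + 1; omega),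
      hr3 ⟨s + 1, hs⟩ (by change s + 1 ≠ r; omega) (by change s + 1 ≠ r + 1; omega),
      hs3 ⟨r, by omega⟩ (by change r ≠ s; omega) (by change r ≠ s + 1; omega),
      hs3 ⟨r + 1, hr⟩ (by change r + 1 ≠ s; omega) (by change r + 1 ≠ s + 1; omega)]
    ring
  · rw [(X_easy w0).1 s hs, mul_zero, zero_mul]

lemma RepXb_al_symm (w0 : Wd D n) (a b : Fin n) : RepXb_al w0 b a = -RepXb_al w0 a b := by
  unfold RepXb_al
  by_cases h : w0 a = w0 b
  · rw [if_pos h.symm, if_pos h, ← inv_neg, neg_sub]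
  · rw [if_neg (fun e => h e.symm), if_neg h, neg_zero]

/-- The relation of Arnold. -/
lemma RepXb_arnold (w0 : Wd D n) {a b c : Fin n} (hab : a ≠ b) (hbc : b ≠ c) (hac : a ≠ c) :
    RepXb_al w0 b c * RepXb_al w0 a c - RepXb_al w0 a b * RepXb_al w0 b c +
      RepXb_al w0 a c * RepXb_al w0 a b = 0 := by
  unfold RepXb_al
  by_cases h1 : w0 a = w0 b
  · by_cases h2 : w0 b = w0 c
    · rw [if_pos h2, if_pos (h1.trans h2), if_pos h1]
      have e1 := yv_sub_ne hab
      have e2 := yv_sub_ne hbc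
      have e3 := yv_sub_ne hac
      field_simp
      ring
    · rw [if_neg h2, if_neg (fun e : w0 a = w0 c => h2 (h1.symm.trans e))]
      ring
  · by_cases h2 : w0 b = w0 c
    · rw [if_neg h1, if_neg (fun e : w0 a = w0 c => h1 (e.trans h2.symm))]
      ring
    · rw [if_neg h1, if_neg h2]
      ring

/-- The coefficient of `F u` in the braid relation. -/
lemma RepXb_diag (w0 : Wd D n) {a b c : Fin n} (hab : a ≠ b) (hbc : b ≠ c) (hac : a ≠ c) :
    RepXb_al w0 b c * RepXb_al w0 a b * (RepXb_al w0 b c - RepXb_al w0 a b) +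
      RepXb_al w0 a c * (RepXb_be w0 b c * RepXb_be w0 c b - RepXb_be w0 a b * RepXb_be w0 b a) =
    if w0 a = w0 c then
        (if D.arr (w0 a) (w0 b) = true then (-1 : KX n)
         else if D.arr (w0 b) (w0 a) = true then 1 else 0) else 0 := by
  unfold RepXb_al RepXb_be
  by_cases h1 : w0 a = w0 b
  · by_cases h2 : w0 b = w0 c
    · have hirr : ¬ D.arr (w0 c) (w0 c) = true := by rw [D.irr]; exact Bool.false_ne_true
      have e1 := yv_sub_ne hab
      have e2 := yv_sub_ne hbc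
      have e3 := yv_sub_ne hac
      have e4 := yv_sub_ne hab.symm
      have e5 := yv_sub_ne hbc.symm
      simp only [h1, h2, if_true, if_neg hirr]
      have e6 : (yv c - yv b : KX n) = -(yv b - yv c) := by ring
      have e7 : (yv b - yv a : KX n) = -(yv a - yv b) := by ring
      have e8 : (yv a - yv c : KX n) = (yv a - yv b) + (yv b - yv c) := by ring
      rw [e8] at e3 ⊢
      rw [e6, e7]
      generalize (yv a - yv b : KX n) = x at *
      generalize (yv b - yv c : KX n) = y at *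
      field_simp
      ring
    · have h3 : ¬ w0 a = w0 c := fun e => h2 (h1.symm.trans e)
      rw [if_neg h2, if_neg h3, if_neg h3]
      ring
  · by_cases h3 : w0 a = w0 c
    · have h2 : ¬ w0 b = w0 c := fun e => h1 (h3.trans e.symm)
      have h1' : ¬ w0 b = w0 a := fun e => h1 e.symm
      have h2' : ¬ w0 c = w0 b := fun e => h2 e.symm
      have e3 := yv_sub_ne hac
      rw [if_neg h1, if_neg h1, if_neg h2, if_neg h2, if_neg h1', if_neg h2', if_pos h3, if_pos h3,
        ← h3]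
      by_cases g1 : D.arr (w0 a) (w0 b) = true
      · have g2 : ¬ D.arr (w0 b) (w0 a) = true := by
          rw [D.asym _ _ g1]; exact Bool.false_ne_true
        rw [if_pos g1, if_pos g1, if_pos g1, if_neg g2, if_neg g2]
        field_simp
        ring
      · rw [if_neg g1, if_neg g1, if_neg g1]
        by_cases g2 : D.arr (w0 b) (w0 a) = true
        · rw [if_pos g2, if_pos g2, if_pos g2]
          field_simp
          ring
        · rw [if_neg g2, if_neg g2, if_neg g2]
          ring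
    · rw [if_neg h3, if_neg h1, if_neg h3]
      ring

/-- The braid relation, evaluated. -/
lemma RepXb_eval (w0 : Wd D n) (r : ℕ) (h : r + 2 < n) (F : Equiv.Perm (Fin n) → KX n)
    (u : Equiv.Perm (Fin n)) :
    XS w0 (r + 1) (XS w0 r (XS w0 (r + 1) F)) u - XS w0 r (XS w0 (r + 1) (XS w0 r F)) u =
      (if w0 (u.symm ⟨r, by omega⟩) = w0 (u.symm ⟨r + 2, h⟩) then
        (if D.arr (w0 (u.symm ⟨r, by omega⟩)) (w0 (u.symm ⟨r + 1, by omega⟩)) = true then (-1 : KX n)
         else if D.arr (w0 (u.symm ⟨r + 1, by omega⟩)) (w0 (u.symm ⟨r, by omega⟩)) = true then 1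
         else 0) else 0) * F u := by
  have hr : r + 1 < n := by omega
  have hr1 : r + 1 + 1 < n := h
  have key : ∀ v : Equiv.Perm (Fin n),
      (sw n r * v).symm ⟨r, by omega⟩ = v.symm ⟨r + 1, hr⟩ ∧
      (sw n r * v).symm ⟨r + 1, hr⟩ = v.symm ⟨r, by omega⟩ ∧
      (sw n r * v).symm ⟨r + 1 + 1, hr1⟩ = v.symm ⟨r + 1 + 1, hr1⟩ ∧
      (sw n (r + 1) * v).symm ⟨r, by omega⟩ = v.symm ⟨r, by omega⟩ ∧
      (sw n (r + 1) * v).symm ⟨r + 1, hr⟩ = v.symm ⟨r + 1 + 1, hr1⟩ ∧
      (sw n (r + 1) * v).symm ⟨r + 1 + 1, hr1⟩ = v.symm ⟨r + 1, hr⟩ ∧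
      sw n r * (sw n r * v) = v ∧ sw n (r + 1) * (sw n (r + 1) * v) = v := by
    intro v
    obtain ⟨a1, a2, a3, a4⟩ := sw_mul_symm r hr v
    obtain ⟨b1, b2, b3, b4⟩ := sw_mul_symm (r + 1) hr1 v
    exact ⟨a1, a2, a3 _ (by change r + 1 + 1 ≠ r; omega) (by change r + 1 + 1 ≠ r + 1; omega),
      b3 _ (by change r ≠ r + 1; omega) (by change r ≠ r + 1 + 1; omega), b1, b2, a4, b4⟩
  have hne : ∀ {i j : Fin n}, i.val ≠ j.val → u.symm i ≠ u.symm j := fun hij e =>
    hij (congrArg Fin.val (u.symm.injective e))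
  have hab : u.symm ⟨r, by omega⟩ ≠ u.symm ⟨r + 1, hr⟩ := hne (by change r ≠ r + 1; omega)
  have hbc : u.symm ⟨r + 1, hr⟩ ≠ u.symm ⟨r + 1 + 1, hr1⟩ :=
    hne (by change r + 1 ≠ r + 1 + 1; omega)
  have hac : u.symm ⟨r, by omega⟩ ≠ u.symm ⟨r + 1 + 1, hr1⟩ :=
    hne (by change r ≠ r + 1 + 1; omega)
  have hA := RepXb_arnold w0 hab hbc hac
  have hD := RepXb_diag w0 hab hbc hac
  change _ = (if w0 (u.symm ⟨r, by omega⟩) = w0 (u.symm ⟨r + 1 + 1, hr1⟩) then _ else _) * F u
  rw [← hD]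
  simp only [RepXb_apply w0 r hr, RepXb_apply w0 (r + 1) hr1, key, RepXb_braid r h]
  rw [RepXb_al_symm w0 (u.symm ⟨r, by omega⟩) (u.symm ⟨r + 1, hr⟩),
    RepXb_al_symm w0 (u.symm ⟨r + 1, hr⟩) (u.symm ⟨r + 1 + 1, hr1⟩)]
  linear_combination (RepXb_be w0 (u.symm ⟨r, by omega⟩) (u.symm ⟨r + 1, hr⟩) * F (sw n r * u) -
    RepXb_be w0 (u.symm ⟨r + 1, hr⟩) (u.symm ⟨r + 1 + 1, hr1⟩) * F (sw n (r + 1) * u)) * hA

/-- PROOF: evaluate at F, u; put a = u.symm r, b = u.symm (r+1), c = u.symm (r+2) (three different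
elements); (S F)(u) is expressed by F (u), F (s_r u), F (s_{r+1} u), F (s_r s_{r+1} u),
F (s_{r+1} s_r u), F (s_r s_{r+1} s_r u) = F (s_{r+1} s_r s_{r+1} u). With A = yv a, B = yv b, C = yv c
the identity is one of rational functions; cases for the letters i = w0 a, j = w0 b, k = w0 c: all equal;
i = j ≠ k; j = k ≠ i; i = k ≠ j (here the error: - F(u) if arr i j, + F(u) if arr j i, 0 otherwise; note
D.asym); all different. `field_simp; ring` with the differences A - B, B - C, A - C ≠ 0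
(`yv_sub_ne`). The factor for a pair of different letters is (Y - Y') if there is an arrow and 1 otherwise. -/
theorem X_S_braid (w0 : Wd D n) (r : ℕ) (h : r + 2 < n) (w : Wd D n) :
    (XS w0 (r + 1) * XS w0 r * XS w0 (r + 1) - XS w0 r * XS w0 (r + 1) * XS w0 r) * XE w0 w =
      (if w ⟨r, by omega⟩ = w ⟨r + 2, h⟩ then
        (if D.arr (w ⟨r, by omega⟩) (w ⟨r + 1, by omega⟩) = true then (-1 : ℂ)
         else if D.arr (w ⟨r + 1, by omega⟩) (w ⟨r, by omega⟩) = true then 1 else 0) else 0) •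
          XE w0 w := by
  apply LinearMap.ext
  intro F
  funext u
  rw [Module.End.mul_apply]
  have h1 := RepXb_eval w0 r h (XE w0 w F) u
  change XS w0 (r + 1) (XS w0 r (XS w0 (r + 1) (XE w0 w F))) u -
    XS w0 r (XS w0 (r + 1) (XS w0 r (XE w0 w F))) u = _
  rw [h1]
  by_cases hw : w0 ∘ u.symm = w
  · subst hw
    have h2 : ∀ (c : ℂ), (c • XE w0 (w0 ∘ u.symm)) F u
        = algebraMap ℂ (KX n) c * XE w0 (w0 ∘ u.symm) F u := by
      intro c
      change c • (XE w0 (w0 ∘ u.symm) F u) = _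
      rw [Algebra.smul_def]
    rw [h2]
    congr 1
    simp only [Function.comp_apply]
    split_ifs <;> simp
  · have h2 : XE w0 w F u = 0 := if_neg hw
    have h3 : ∀ (c : ℂ), (c • XE w0 w) F u = 0 := by
      intro c
      change c • (XE w0 w F u) = 0
      rw [h2, smul_zero]
    rw [h3, h2, mul_zero]

end CA1492
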