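import Mathlib
import Pool.Agent.Lib.MP_ca1492_al.Alg.RepXb

/-!
The representation X of `R D n`.
-/

namespace CA1492

variable {D : Dat} {n : ℕ}

/-- The relations hold. -/
theorem isRep_X (w0 : Wd D n) :
    IsRep D n (A := Module.End (KX n) (Equiv.Perm (Fin n) → KX n)) (XE w0) XY (XS w0) where
  S_out := (X_easy w0).1
  E_mul := (X_easy w0).2.1
  E_sum := (X_easy w0).2.2.1
  Y_E := (X_easy w0).2.2.2.1
  Y_Y := (X_easy w0).2.2.2.2
  S_E := X_S_E w0
  S_far := X_S_far w0
  S_Y := X_S_Y w0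
  S_S := X_S_S w0
  S_braid := X_S_braid w0

/-- The representation. -/
noncomputable def repX (w0 : Wd D n) :
    R D n →ₐ[ℂ] Module.End (KX n) (Equiv.Perm (Fin n) → KX n) := liftR (isRep_X w0)

end CA1492
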