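import Mathlib
import Pool.Agent.Lib.MP_ca1492_al.Alg.RepX

/-!
The vector δ_1 generates the representation X over K; the counting lemma.
-/

namespace CA1492

open MvPolynomial

variable {D : Dat} {n : ℕ}

/-- The vector δ_1. -/
noncomputable def dl (n : ℕ) : Equiv.Perm (Fin n) → KX n := Pi.single 1 1

theorem XSpan_ew (w0 w : Wd D n) : repX w0 (ew w) = XE w0 w := by
  unfold repX
  rw [liftR_ew]

theorem XSpan_yk (w0 : Wd D n) (k : Fin n) : repX w0 (yk k) = XY k := by
  unfold repX
  rw [liftR_yk]

theorem XSpan_ps (w0 : Wd D n) (r : ℕ) : repX w0 (ps r) = XS w0 r := by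
  unfold repX
  rw [liftR_ps]

theorem XSpan_XY_dl (k : Fin n) : XY k (dl n) = (yv k : KX n) • dl n := by
  funext u
  change yv (u.symm k) * dl n u = yv k * dl n u
  by_cases hu : u = 1
  · subst hu
    rfl
  · have h0 : dl n u = 0 := by
      unfold dl
      rw [Pi.single_apply, if_neg hu]
    rw [h0, mul_zero, mul_zero]

/-- Action on δ_1.
PROOF: ew w: (w0 ∘ 1.symm = w0). pol f: for X k it is multiplication by yv (u.symm k), at u = 1 this is
yv k; induction on f. -/
theorem rep_dl (w0 : Wd D n) : (∀ w, repX w0 (ew w) (dl n) = if w = w0 then dl n else 0) ∧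
    (∀ f : MvPolynomial (Fin n) ℂ, repX w0 (pol f) (dl n) =
      (algebraMap (MvPolynomial (Fin n) ℂ) (KX n) f) • dl n) := by
  constructor
  · intro w
    rw [XSpan_ew]
    funext u
    change (if w0 ∘ u.symm = w then dl n u else 0) = _
    by_cases hu : u = 1
    · subst hu
      have h1 : w0 ∘ (Equiv.symm (1 : Equiv.Perm (Fin n))) = w0 := rfl
      rw [h1]
      by_cases hw : w = w0
      · rw [if_pos hw, if_pos hw.symm]
      · rw [if_neg hw, if_neg (fun h => hw h.symm)]
        rfl
    · have h0 : dl n u = 0 := by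
        unfold dl
        rw [Pi.single_apply, if_neg hu]
      have h2 : (if w = w0 then dl n else 0) u = 0 := by
        split_ifs
        · exact h0
        · rfl
      rw [h2, h0]
      split_ifs <;> rfl
  · intro f
    induction f using MvPolynomial.induction_on with
    | C a =>
      rw [← MvPolynomial.algebraMap_eq, AlgHom.commutes, AlgHom.commutes,
        ← IsScalarTower.algebraMap_apply ℂ (MvPolynomial (Fin n) ℂ) (KX n), algebraMap_smul]
      rfl
    | add p q hp hq =>
      rw [map_add, map_add, LinearMap.add_apply, hp, hq, map_add, add_smul]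
    | mul_X p k hp =>
      rw [map_mul, pol_X, map_mul, Module.End.mul_apply, XSpan_yk, XSpan_XY_dl, map_smul, hp,
        smul_smul, map_mul, mul_comm]
      rfl

theorem XSpan_sw_ne (r : ℕ) (h : r + 1 < n) (u : Equiv.Perm (Fin n)) : sw n r * u ≠ u := by
  intro hu
  have h1 := (sw_mul_symm r h u).1
  rw [hu] at h1
  have h2 := u.symm.injective h1
  rw [Fin.mk.injEq] at h2
  omega

theorem XSpan_ps_single (w0 : Wd D n) (r : ℕ) (h : r + 1 < n) (u : Equiv.Perm (Fin n)) :
    ∃ c1 c2 : KX n, c1 ≠ 0 ∧ XS w0 r (Pi.single u 1) =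
      c1 • (Pi.single (sw n r * u) 1 : Equiv.Perm (Fin n) → KX n) +
        c2 • (Pi.single u 1 : Equiv.Perm (Fin n) → KX n) := by
  have hne := XSpan_sw_ne r h u
  have hss := (sw_mul_symm r h u).2.2.2
  have hyne : (yv ((sw n r * u).symm ⟨r, by omega⟩) - yv ((sw n r * u).symm ⟨r + 1, h⟩) : KX n) ≠ 0 := by
    apply yv_sub_ne
    intro he
    have h2 := (sw n r * u).symm.injective he
    rw [Fin.mk.injEq] at h2
    omega
  refine ⟨XS w0 r (Pi.single u 1) (sw n r * u), XS w0 r (Pi.single u 1) u, ?_, ?_⟩
  · change (if h : r + 1 < n then _ else (0 : KX n)) ≠ 0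
    rw [dif_pos h, hss]
    split_ifs with h1 h2
    · rw [Pi.single_eq_same, Pi.single_eq_of_ne hne, zero_sub]
      exact div_ne_zero (neg_ne_zero.2 one_ne_zero) hyne
    · rw [Pi.single_eq_same, mul_one]
      exact hyne
    · rw [Pi.single_eq_same, mul_one]
      exact one_ne_zero
  · funext u'
    rw [Pi.add_apply, Pi.smul_apply, Pi.smul_apply, smul_eq_mul, smul_eq_mul]
    by_cases h1 : u' = u
    · subst h1
      rw [Pi.single_eq_same, Pi.single_eq_of_ne hne.symm, mul_zero, mul_one, zero_add]
    · have h0 : (Pi.single u 1 : Equiv.Perm (Fin n) → KX n) u' = 0 := Pi.single_eq_of_ne h1 _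
      rw [h0, mul_zero, add_zero]
      by_cases h2 : u' = sw n r * u
      · subst h2
        rw [Pi.single_eq_same, mul_one]
      · rw [Pi.single_eq_of_ne h2, mul_zero]
        change (if h : r + 1 < n then _ else (0 : KX n)) = 0
        have h3 : sw n r * u' ≠ u := by
          intro h3
          apply h2
          rw [← h3, (sw_mul_symm r h u').2.2.2]
        rw [dif_pos h, Pi.single_eq_of_ne h1, Pi.single_eq_of_ne h3]
        split_ifs
        · rw [sub_zero, zero_div]
        · rw [mul_zero]
        · rw [mul_zero]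

/-- PROOF. Let U be the K-span. U is stable under repX w0 z for all z (the operators are K-linear).
δ_1 ∈ U. If δ_u = Pi.single u 1 ∈ U and r + 1 < n then repX w0 (ps r) δ_u = c1 • δ_{sw n r * u} + c2 • δ_u
with c1 ≠ 0 (at u' the value is F (sw n r * u') times a non-zero factor, plus possibly a multiple of
F u'), so δ_{sw n r * u} ∈ U. The adjacent transpositions generate Perm (Fin n)
(Mathlib: `Equiv.Perm.mclosure_swap_castSucc_succ` for Fin (n+1)), so all δ_u ∈ U. -/
theorem span_dl (w0 : Wd D n) :
    Submodule.span (KX n) {F | ∃ z : R D n, F = repX w0 z (dl n)} = ⊤ := by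
  set U := Submodule.span (KX n) {F | ∃ z : R D n, F = repX w0 z (dl n)} with hU
  have hstab : ∀ (z : R D n) (F : Equiv.Perm (Fin n) → KX n), F ∈ U → repX w0 z F ∈ U := by
    intro z F hF
    induction hF using Submodule.span_induction with
    | mem x hx =>
      obtain ⟨z', rfl⟩ := hx
      exact Submodule.subset_span ⟨z * z', by rw [map_mul]; rfl⟩
    | zero => rw [map_zero]; exact U.zero_mem
    | add x y _ _ hx hy => rw [map_add]; exact U.add_mem hx hy
    | smul c x _ hx => rw [map_smul]; exact U.smul_mem c hx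
  have h1 : dl n ∈ U := Submodule.subset_span ⟨1, by rw [map_one]; rfl⟩
  have hstep : ∀ (r : ℕ) (_ : r + 1 < n) (u : Equiv.Perm (Fin n)),
      (Pi.single u 1 : Equiv.Perm (Fin n) → KX n) ∈ U →
      (Pi.single (sw n r * u) 1 : Equiv.Perm (Fin n) → KX n) ∈ U := by
    intro r h u hu
    obtain ⟨c1, c2, hc, he⟩ := XSpan_ps_single w0 r h u
    have h2 := hstab (ps r) _ hu
    rw [XSpan_ps, he] at h2
    have h3 := (U.add_mem_iff_left (U.smul_mem c2 hu)).1 h2
    exact (U.smul_mem_iff hc).1 h3
  have hall : ∀ u : Equiv.Perm (Fin n), (Pi.single u 1 : Equiv.Perm (Fin n) → KX n) ∈ U := by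
    clear_value U
    clear hU hstab
    cases n with
    | zero =>
      intro u
      have hu : u = 1 := Subsingleton.elim _ _
      rw [hu]
      exact h1
    | succ m =>
      intro u
      have hmem : u ∈ Submonoid.closure
          (Set.range fun i : Fin m => Equiv.swap i.castSucc i.succ) := by
        rw [Equiv.Perm.mclosure_swap_castSucc_succ]
        trivial
      induction hmem using Submonoid.closure_induction_left with
      | one => exact h1
      | mul_left x hx y _ ih =>
        obtain ⟨i, rfl⟩ := hx
        have hsw : Equiv.swap i.castSucc i.succ = sw (m + 1) (i : ℕ) := by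
          unfold sw
          rw [dif_pos (by have := i.2; omega)]
          rfl
        change (Pi.single (Equiv.swap i.castSucc i.succ * y) 1 : Equiv.Perm (Fin (m + 1)) → KX (m + 1)) ∈ U
        rw [hsw]
        exact hstep _ (by have := i.2; omega) y ih
  rw [eq_top_iff]
  intro F _
  have hF : F = ∑ u, F u • (Pi.single u 1 : Equiv.Perm (Fin n) → KX n) := by
    funext u'
    rw [Finset.sum_apply, Finset.sum_eq_single u']
    · rw [Pi.smul_apply, Pi.single_eq_same, smul_eq_mul, mul_one]
    · intro u _ hu
      rw [Pi.smul_apply, Pi.single_eq_of_ne hu.symm, smul_zero]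
    · intro hu
      exact absurd (Finset.mem_univ _) hu
  rw [hF]
  exact U.sum_mem fun u _ => U.smul_mem _ (hall u)

theorem XSpan_apply (w0 : Wd D n) {A : Type} [Fintype A] (b : A → R D n)
    (f : A → Wd D n → MvPolynomial (Fin n) ℂ) :
    repX w0 (∑ a, ∑ w, b a * pol (f a w) * ew w) (dl n) =
      ∑ a, (algebraMap (MvPolynomial (Fin n) ℂ) (KX n) (f a w0)) • repX w0 (b a) (dl n) := by
  rw [map_sum, LinearMap.sum_apply]
  refine Finset.sum_congr rfl fun a _ => ?_
  rw [map_sum, LinearMap.sum_apply, Finset.sum_eq_single w0]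
  · rw [map_mul, map_mul, Module.End.mul_apply, Module.End.mul_apply, (rep_dl w0).1, if_pos rfl,
      (rep_dl w0).2, map_smul]
  · intro w _ hw
    rw [map_mul, Module.End.mul_apply, (rep_dl w0).1, if_neg hw, map_zero]
  · intro hw
    exact absurd (Finset.mem_univ _) hw

/-- THE COUNTING LEMMA: a family of n! elements that generates over the polynomials (on the right) is
free.
PROOF. Taking differences we may assume that the sum with coefficients h = f - g is 0 and show h = 0.
Fix w0 and apply repX w0 to δ_1 (`rep_dl`): ∑_a h(a, w0) • v_a = 0 with v_a = repX w0 (b a) δ_1 (scalars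
are the images of polynomials). By hspan and `rep_dl` every repX w0 z δ_1 is in the K-span of the v_a,
so by `span_dl` the v_a span the space, whose dimension is n! = card A
(`Module.finrank_fintype_fun_eq_card`, `Fintype.card_perm`); hence they are linearly independent
(`linearIndependent_of_top_le_span_of_card_eq_finrank`) and the coefficients vanish
(`IsFractionRing.injective`). -/
theorem count {A : Type} [Fintype A] (hA : Fintype.card A = n.factorial) (b : A → R D n)
    (hspan : ∀ x : R D n, ∃ f : A → Wd D n → MvPolynomial (Fin n) ℂ,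
      x = ∑ a, ∑ w, b a * pol (f a w) * ew w)
    (f g : A → Wd D n → MvPolynomial (Fin n) ℂ)
    (h : ∑ a, ∑ w, b a * pol (f a w) * ew w = ∑ a, ∑ w, b a * pol (g a w) * ew w) : f = g := by
  funext a w0
  have htop : ⊤ ≤ Submodule.span (KX n) (Set.range fun a => repX w0 (b a) (dl n)) := by
    rw [← span_dl w0, Submodule.span_le]
    rintro F ⟨z, rfl⟩
    obtain ⟨c, hc⟩ := hspan z
    rw [hc, XSpan_apply]
    exact Submodule.sum_mem _ fun a _ => Submodule.smul_mem _ _ (Submodule.subset_span ⟨a, rfl⟩)
  have hli : LinearIndependent (KX n) (fun a => repX w0 (b a) (dl n)) := by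
    refine linearIndependent_of_top_le_span_of_card_eq_finrank htop ?_
    rw [Module.finrank_fintype_fun_eq_card, Fintype.card_perm, Fintype.card_fin, hA]
  have h1 := congrArg (fun x => repX w0 x (dl n)) h
  simp only [XSpan_apply] at h1
  have h2 : ∑ a, (algebraMap (MvPolynomial (Fin n) ℂ) (KX n) (f a w0) -
      algebraMap (MvPolynomial (Fin n) ℂ) (KX n) (g a w0)) • repX w0 (b a) (dl n) = 0 := by
    simp only [sub_smul, Finset.sum_sub_distrib]
    rw [h1, sub_self]
  have h3 := (Fintype.linearIndependent_iff.1 hli) _ h2 a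
  exact IsFractionRing.injective (MvPolynomial (Fin n) ℂ) (KX n) (sub_eq_zero.1 h3)

end CA1492
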