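import Mathlib
import Pool.Agent.Lib.MP_ca1492_al.Alg.Span
import Pool.Agent.Lib.MP_ca1492_al.Alg.XSpan

/-!
The basis theorem.
-/

namespace CA1492

open MvPolynomial

variable {D : Dat} {n : ℕ}

/-- Sequences p with p j ≤ j. -/
abbrev Sq (n : ℕ) : Type := (j : Fin n) → Fin (j.val + 1)

/-- As a function on ℕ. -/
def sqFun {n : ℕ} (p : Sq n) : ℕ → ℕ := fun j => if h : j < n then (p ⟨j, h⟩).val else 0

/-- The basis elements `Cc (p (n-1)) (n-1) * ... * Cc (p 1) 1 * Cc (p 0) 0`. -/
noncomputable def CQ {D : Dat} {n : ℕ} (p : Sq n) : R D n := CS 0 n (sqFun p)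

/-- There are n! sequences. PROOF: `Fintype.card_pi`, `Fin.prod_univ_eq_prod_range`,
`Finset.prod_range_add_one_eq_factorial`. -/
theorem card_Sq (n : ℕ) : Fintype.card (Sq n) = n.factorial := by
  rw [Fintype.card_pi]
  simp only [Fintype.card_fin]
  rw [Fin.prod_univ_eq_prod_range (fun i => i + 1) n, Finset.prod_range_add_one_eq_factorial]

/-- The candidates for the spanning set. -/
def PBWSet (D : Dat) (n s : ℕ) : Set (R D n) :=
  {z | ∃ (p : ℕ → ℕ) (f : MvPolynomial (Fin n) ℂ) (w : Wd D n), (∀ j < s, p j ≤ j) ∧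
    z = CS 0 s p * pol f * ew w}

theorem PBW_Par {s : ℕ} {b : R D n} (hb : b ∈ Par D n s 1) : ∃ d, b ∈ Fil D n s d := by
  induction hb using Algebra.adjoin_induction with
  | mem x hx =>
    rcases hx with (⟨w, rfl⟩ | ⟨j, rfl⟩) | ⟨r, hr1, hr2, rfl⟩
    · exact ⟨0, mem_Fil.2.1 s w⟩
    · exact ⟨0, mem_Fil.2.2.2.1 s j⟩
    · exact ⟨1, mem_Fil.2.2.2.2 s r (by omega)⟩
  | algebraMap c =>
    refine ⟨0, ?_⟩
    rw [Algebra.algebraMap_eq_smul_one]
    exact Submodule.smul_mem _ _ (mem_Fil.1 s)
  | add x y _ _ hx hy =>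
    obtain ⟨d, hd⟩ := hx
    obtain ⟨d', hd'⟩ := hy
    exact ⟨max d d', Submodule.add_mem _ (Fil_mono le_rfl (le_max_left _ _) hd)
      (Fil_mono le_rfl (le_max_right _ _) hd')⟩
  | mul x y _ _ hx hy =>
    obtain ⟨d, hd⟩ := hx
    obtain ⟨d', hd'⟩ := hy
    exact ⟨d + d', Fil_mul hd hd'⟩

theorem PBW_zero (d : ℕ) : Fil D n 0 d ≤ Submodule.span ℂ (PBWSet D n 0) := by
  induction d with
  | zero =>
    refine Submodule.span_mono ?_
    rintro x ⟨f, w, rfl⟩
    refine ⟨fun _ => 0, f, w, fun j hj => absurd hj (Nat.not_lt_zero _), ?_⟩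
    change _ = 1 * pol f * ew w
    rw [one_mul]
  | succ d ih =>
    refine sup_le ih ?_
    rw [Submodule.span_le]
    rintro x ⟨r, z, hr, _⟩
    exact absurd hr (Nat.not_lt_zero _)

theorem PBW_claim (s : ℕ) : ∀ d, Fil D n s d ≤ Submodule.span ℂ (PBWSet D n s) := by
  induction s with
  | zero => exact PBW_zero
  | succ s ih =>
    intro d x hx
    have h1 := Fil_le_span s 1 d x hx
    refine Submodule.span_le.2 ?_ h1
    rintro z ⟨p, b, hp, _, hb, rfl⟩
    obtain ⟨d', hd'⟩ := PBW_Par hb
    have h2 := ih d' hd'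
    have h3 : (CS s 1 p : R D n) = Cc (p 0) s := by
      change Cc (p 0) (s + 0) * 1 = _
      rw [mul_one, Nat.add_zero]
    have hp0 : p 0 ≤ s := hp.1 0 Nat.one_pos
    rw [h3]
    change Cc (p 0) s * b ∈ Submodule.span ℂ (PBWSet D n (s + 1))
    have h4 : Submodule.span ℂ (PBWSet D n s) ≤
        (Submodule.span ℂ (PBWSet D n (s + 1))).comap
          (LinearMap.mulLeft ℂ (Cc (p 0) s : R D n)) := by
      rw [Submodule.span_le]
      rintro y ⟨p', f, w, hp', rfl⟩
      change Cc (p 0) s * (CS 0 s p' * pol f * ew w) ∈ Submodule.span ℂ (PBWSet D n (s + 1))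
      refine Submodule.subset_span ⟨Function.update p' s (p 0), f, w, ?_, ?_⟩
      · intro j hj
        by_cases hjs : j = s
        · subst hjs
          rw [Function.update_self]
          exact hp0
        · rw [Function.update_of_ne hjs]
          exact hp' j (by omega)
      · have h5 : (CS 0 s (Function.update p' s (p 0)) : R D n) = CS 0 s p' :=
          (CS_congr (D := D) (n := n) (m := 0) (k := s) (fun j hj => by
            rw [Function.update_of_ne (Nat.ne_of_lt hj)])).1
        have h6 : (CS 0 (s + 1) (Function.update p' s (p 0)) : R D n) =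
            Cc (p 0) s * CS 0 s p' := by
          change Cc (Function.update p' s (p 0) s) (0 + s) *
            CS 0 s (Function.update p' s (p 0)) = _
          rw [h5, Function.update_self, Nat.zero_add]
        rw [h6]
        simp only [mul_assoc]
    exact h4 h2

/-- PROOF. Claim for s ≤ n and all d: Fil D n s d is contained in the span of the elements
CS 0 s p * pol f * ew w with p j ≤ j for j < s. Induction on s. s = 0: there is no r with r + 1 < 0, so
Fil D n 0 d = Fil D n 0 0. Step: by `Fil_le_span` with m = s, k = 1, x is in the span of the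
Cc (p 0) s * b, p 0 ≤ s, b ∈ Par D n s 1, and every element of Par D n s 1 lies in some Fil D n s d'
(its generators are ew, yk and ps r with r + 1 < s + 1, r + 1 ≠ s, i.e. r + 1 < s; `Fil_mul`,
`Algebra.adjoin_induction`), so by induction b is in the span of the CS 0 s p' * pol f * ew w, and
Cc (p 0) s * CS 0 s p' = CS 0 (s+1) p'' with p'' j = p' j (j < s), p'' s = p 0 (`CS_congr`).
For s = n use `exists_Fil`; finally a sum of elements CQ p * pol f * ew w is of the required form. -/
theorem pbw_span (x : R D n) : ∃ f : Sq n → Wd D n → MvPolynomial (Fin n) ℂ,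
    x = ∑ p, ∑ w, CQ p * pol (f p w) * ew w := by
  classical
  obtain ⟨d, hd⟩ := exists_Fil x
  have h1 := PBW_claim n d hd
  clear hd
  induction h1 using Submodule.span_induction with
  | mem x hx =>
    obtain ⟨p, f, w, hp, rfl⟩ := hx
    refine ⟨fun p' w' => if p' = (fun j => ⟨p j.val, Nat.lt_succ_of_le (hp j.val j.isLt)⟩) then
      (if w' = w then f else 0) else 0, ?_⟩
    rw [Finset.sum_eq_single
      (fun j => ⟨p j.val, Nat.lt_succ_of_le (hp j.val j.isLt)⟩ : Sq n)]
    · rw [Finset.sum_eq_single w]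
      · beta_reduce
        rw [if_pos rfl, if_pos rfl]
        congr 2
        refine (CS_congr (D := D) (n := n) (m := 0) (k := n) (fun j hj => ?_)).1
        unfold sqFun
        rw [dif_pos hj]
      · intro w' _ hw'
        beta_reduce
        rw [if_pos rfl, if_neg hw', map_zero, mul_zero, zero_mul]
      · intro h
        exact absurd (Finset.mem_univ _) h
    · intro p' _ hp'
      refine Finset.sum_eq_zero fun w' _ => ?_
      beta_reduce
      rw [if_neg hp', map_zero, mul_zero, zero_mul]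
    · intro h
      exact absurd (Finset.mem_univ _) h
  | zero =>
    refine ⟨fun _ _ => 0, ?_⟩
    symm
    refine Finset.sum_eq_zero fun p _ => Finset.sum_eq_zero fun w _ => ?_
    rw [map_zero, mul_zero, zero_mul]
  | add x y _ _ hx hy =>
    obtain ⟨f, hf⟩ := hx
    obtain ⟨g, hg⟩ := hy
    refine ⟨fun p w => f p w + g p w, ?_⟩
    rw [hf, hg, ← Finset.sum_add_distrib]
    refine Finset.sum_congr rfl fun p _ => ?_
    rw [← Finset.sum_add_distrib]
    refine Finset.sum_congr rfl fun w _ => ?_
    rw [map_add, mul_add, add_mul]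
  | smul c x _ hx =>
    obtain ⟨f, hf⟩ := hx
    refine ⟨fun p w => c • f p w, ?_⟩
    rw [hf, Finset.smul_sum]
    refine Finset.sum_congr rfl fun p _ => ?_
    rw [Finset.smul_sum]
    refine Finset.sum_congr rfl fun w _ => ?_
    rw [map_smul, mul_smul_comm, smul_mul_assoc]

/-- PROOF: `count`, `card_Sq`, `pbw_span`. -/
theorem pbw_unique (f g : Sq n → Wd D n → MvPolynomial (Fin n) ℂ)
    (h : (∑ p, ∑ w, CQ p * pol (f p w) * ew w : R D n) = ∑ p, ∑ w, CQ p * pol (g p w) * ew w) :
    f = g :=
  count (card_Sq n) CQ pbw_span f g h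

end CA1492
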