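import Mathlib
import Pool.Agent.Lib.MP_ca1492_al.Alg.FreeA
import Pool.Agent.Lib.MP_ca1492_al.Alg.PBW

/-!
Uniqueness of the coefficients over the parabolic subalgebra.
-/

namespace CA1492

open MvPolynomial TensorProduct

variable {D : Dat}

/-- Polynomials in commuting elements of an algebra. -/
theorem FreeB_exists_pol {A : Type*} [Ring A] [Algebra ℂ A] {n : ℕ} (y : Fin n → A)
    (hy : ∀ a b, y a * y b = y b * y a) : ∃ f : MvPolynomial (Fin n) ℂ →ₐ[ℂ] A,
    ∀ k, f (X k) = y k := by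
  let _ : CommRing (Algebra.adjoin ℂ (Set.range y)) :=
    Algebra.adjoinCommRingOfComm ℂ (by
      rintro _ ⟨a, rfl⟩ _ ⟨b, rfl⟩
      exact hy a b)
  refine ⟨(Algebra.adjoin ℂ (Set.range y)).val.comp
    (aeval (fun k => ⟨y k, Algebra.subset_adjoin ⟨k, rfl⟩⟩)), fun k => ?_⟩
  simp

/-- The generators of the polynomial subalgebra of the tensor product. -/
noncomputable def FreeBy (D : Dat) (m k : ℕ) (j : Fin (m + k)) : R D m ⊗[ℂ] R D k :=
  Fin.addCases (motive := fun _ => R D m ⊗[ℂ] R D k) (fun i => yk i ⊗ₜ 1) (fun i => 1 ⊗ₜ yk i) j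

lemma FreeBy_left (D : Dat) (m k : ℕ) (i : Fin m) :
    FreeBy D m k (Fin.castAdd k i) = yk i ⊗ₜ 1 := by
  unfold FreeBy
  rw [Fin.addCases_left]

lemma FreeBy_right (D : Dat) (m k : ℕ) (i : Fin k) :
    FreeBy D m k (Fin.natAdd m i) = 1 ⊗ₜ yk i := by
  unfold FreeBy
  rw [Fin.addCases_right]

lemma FreeBy_comm (D : Dat) (m k : ℕ) (a b : Fin (m + k)) :
    FreeBy D m k a * FreeBy D m k b = FreeBy D m k b * FreeBy D m k a := by
  refine Fin.addCases (fun i => ?_) (fun i => ?_) a <;>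
    refine Fin.addCases (fun j => ?_) (fun j => ?_) b
  · rw [FreeBy_left, FreeBy_left, Algebra.TensorProduct.tmul_mul_tmul,
      Algebra.TensorProduct.tmul_mul_tmul, (isRep_R D m).Y_Y]
  · rw [FreeBy_left, FreeBy_right, Algebra.TensorProduct.tmul_mul_tmul,
      Algebra.TensorProduct.tmul_mul_tmul]
    simp
  · rw [FreeBy_left, FreeBy_right, Algebra.TensorProduct.tmul_mul_tmul,
      Algebra.TensorProduct.tmul_mul_tmul]
    simp
  · rw [FreeBy_right, FreeBy_right, Algebra.TensorProduct.tmul_mul_tmul,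
      Algebra.TensorProduct.tmul_mul_tmul, (isRep_R D k).Y_Y]

/-- Polynomials in the variables of the tensor product. -/
noncomputable def FreeBpol (D : Dat) (m k : ℕ) :
    MvPolynomial (Fin (m + k)) ℂ →ₐ[ℂ] R D m ⊗[ℂ] R D k :=
  (FreeB_exists_pol (FreeBy D m k) (FreeBy_comm D m k)).choose

lemma FreeBpol_X (D : Dat) (m k : ℕ) (j : Fin (m + k)) :
    FreeBpol D m k (X j) = FreeBy D m k j :=
  (FreeB_exists_pol (FreeBy D m k) (FreeBy_comm D m k)).choose_spec j

lemma FreeBpol_iota (m k : ℕ) (F : MvPolynomial (Fin (m + k)) ℂ) :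
    iota D m k (FreeBpol D m k F) = pol F := by
  have : (iota D m k).comp (FreeBpol D m k) = pol := by
    apply MvPolynomial.algHom_ext
    intro j
    rw [AlgHom.comp_apply, FreeBpol_X, pol_X]
    refine Fin.addCases (fun i => ?_) (fun i => ?_) j
    · rw [FreeBy_left, iota, Algebra.TensorProduct.lift_tmul, map_one, mul_one,
        (iotaL_spec D m k).2.1]
    · rw [FreeBy_right, iota, Algebra.TensorProduct.lift_tmul, map_one, one_mul,
        (iotaR_spec D m k).2.1]
  exact DFunLike.congr_fun this F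

lemma FreeBpol_tmul (m k : ℕ) (f : MvPolynomial (Fin m) ℂ) (g : MvPolynomial (Fin k) ℂ) :
    FreeBpol D m k (rename (Fin.castAdd k) f * rename (Fin.natAdd m) g) = pol f ⊗ₜ pol g := by
  have h1 : (FreeBpol D m k).comp (rename (Fin.castAdd k)) =
      (Algebra.TensorProduct.includeLeft : R D m →ₐ[ℂ] R D m ⊗[ℂ] R D k).comp pol := by
    apply MvPolynomial.algHom_ext
    intro j
    rw [AlgHom.comp_apply, AlgHom.comp_apply, rename_X, FreeBpol_X, pol_X, FreeBy_left,
      Algebra.TensorProduct.includeLeft_apply]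
  have h2 : (FreeBpol D m k).comp (rename (Fin.natAdd m)) =
      (Algebra.TensorProduct.includeRight : R D k →ₐ[ℂ] R D m ⊗[ℂ] R D k).comp pol := by
    apply MvPolynomial.algHom_ext
    intro j
    rw [AlgHom.comp_apply, AlgHom.comp_apply, rename_X, FreeBpol_X, pol_X, FreeBy_right,
      Algebra.TensorProduct.includeRight_apply]
  have h1' := DFunLike.congr_fun h1 f
  have h2' := DFunLike.congr_fun h2 g
  rw [AlgHom.comp_apply, AlgHom.comp_apply] at h1' h2'
  rw [map_mul, h1', h2', Algebra.TensorProduct.includeLeft_apply,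
    Algebra.TensorProduct.includeRight_apply, Algebra.TensorProduct.tmul_mul_tmul, mul_one, one_mul]

/-- Left part of a word. -/
def FreeBl {m k : ℕ} (w : Wd D (m + k)) : Wd D m := fun i => w (Fin.castAdd k i)
/-- Right part of a word. -/
def FreeBr {m k : ℕ} (w : Wd D (m + k)) : Wd D k := fun i => w (Fin.natAdd m i)

lemma FreeB_append {m k : ℕ} (w : Wd D (m + k)) : Fin.append (FreeBl w) (FreeBr w) = w := by
  funext j
  refine Fin.addCases (fun i => ?_) (fun i => ?_) j
  · rw [Fin.append_left]; rfl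
  · rw [Fin.append_right]; rfl

lemma FreeB_sum {M : Type*} [AddCommMonoid M] {m k : ℕ} (F : Wd D m → Wd D k → M) :
    ∑ u, ∑ v, F u v = ∑ w : Wd D (m + k), F (FreeBl w) (FreeBr w) := by
  rw [← Fintype.sum_prod_type']
  symm
  refine Fintype.sum_equiv
    { toFun := fun w => (FreeBl w, FreeBr w)
      invFun := fun x => Fin.append x.1 x.2
      left_inv := fun w => FreeB_append w
      right_inv := fun x => ?_ } _ _ (fun w => rfl)
  refine Prod.ext ?_ ?_
  · funext i
    exact Fin.append_left _ _ i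
  · funext i
    exact Fin.append_right _ _ i

/-- The form of the elements of the tensor product. -/
lemma FreeB_form (m k : ℕ) (z : R D m ⊗[ℂ] R D k) :
    ∃ F : Sq m → Sq k → Wd D (m + k) → MvPolynomial (Fin (m + k)) ℂ,
      z = ∑ p, ∑ q, ∑ w, (CQ p ⊗ₜ[ℂ] CQ q) * FreeBpol D m k (F p q w) *
        (ew (FreeBl w) ⊗ₜ ew (FreeBr w)) := by
  induction z using TensorProduct.induction_on with
  | zero =>
    refine ⟨fun _ _ _ => 0, ?_⟩
    simp
  | add x y hx hy =>
    obtain ⟨F, hF⟩ := hx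
    obtain ⟨G, hG⟩ := hy
    refine ⟨fun p q w => F p q w + G p q w, ?_⟩
    rw [hF, hG, ← Finset.sum_add_distrib]
    refine Finset.sum_congr rfl fun p _ => ?_
    rw [← Finset.sum_add_distrib]
    refine Finset.sum_congr rfl fun q _ => ?_
    rw [← Finset.sum_add_distrib]
    refine Finset.sum_congr rfl fun w _ => ?_
    rw [map_add, mul_add, add_mul]
  | tmul x y =>
    obtain ⟨f, hf⟩ := pbw_span x
    obtain ⟨g, hg⟩ := pbw_span y
    refine ⟨fun p q w => rename (Fin.castAdd k) (f p (FreeBl w)) *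
      rename (Fin.natAdd m) (g q (FreeBr w)), ?_⟩
    rw [hf, hg, TensorProduct.sum_tmul]
    refine Finset.sum_congr rfl fun p _ => ?_
    rw [TensorProduct.tmul_sum]
    refine Finset.sum_congr rfl fun q _ => ?_
    rw [TensorProduct.sum_tmul]
    have h1 : ∀ u : Wd D m, (CQ p * pol (f p u) * ew u) ⊗ₜ[ℂ] (∑ v, CQ q * pol (g q v) * ew v) =
        ∑ v, (CQ p ⊗ₜ[ℂ] CQ q) * FreeBpol D m k (rename (Fin.castAdd k) (f p u) *
          rename (Fin.natAdd m) (g q v)) * (ew u ⊗ₜ ew v) := by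
      intro u
      rw [TensorProduct.tmul_sum]
      refine Finset.sum_congr rfl fun v _ => ?_
      rw [FreeBpol_tmul, Algebra.TensorProduct.tmul_mul_tmul, Algebra.TensorProduct.tmul_mul_tmul]
    rw [Finset.sum_congr rfl fun u _ => h1 u, FreeB_sum]

lemma FreeB_iota (m k : ℕ) (s : R D (m + k)) (z : R D m ⊗[ℂ] R D k)
    (F : Sq m → Sq k → Wd D (m + k) → MvPolynomial (Fin (m + k)) ℂ)
    (hF : z = ∑ p, ∑ q, ∑ w, (CQ p ⊗ₜ[ℂ] CQ q) * FreeBpol D m k (F p q w) *
        (ew (FreeBl w) ⊗ₜ ew (FreeBr w))) :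
    s * iota D m k z = ∑ p, ∑ q, ∑ w, (s * iota D m k (CQ p ⊗ₜ[ℂ] CQ q)) * pol (F p q w) *
      ew w := by
  rw [hF, map_sum, Finset.mul_sum]
  refine Finset.sum_congr rfl fun p _ => ?_
  rw [map_sum, Finset.mul_sum]
  refine Finset.sum_congr rfl fun q _ => ?_
  rw [map_sum, Finset.mul_sum]
  refine Finset.sum_congr rfl fun w _ => ?_
  rw [map_mul, map_mul, FreeBpol_iota, iota_ew, FreeB_append]
  simp only [mul_assoc]

/-- The whole sum. -/
lemma FreeB_total (m k : ℕ) (z : Shf m k → R D m ⊗[ℂ] R D k)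
    (F : Shf m k → Sq m → Sq k → Wd D (m + k) → MvPolynomial (Fin (m + k)) ℂ)
    (hF : ∀ s, z s = ∑ p, ∑ q, ∑ w, (CQ p ⊗ₜ[ℂ] CQ q) * FreeBpol D m k (F s p q w) *
        (ew (FreeBl w) ⊗ₜ ew (FreeBr w))) :
    ∑ s, (CS m k (shf s) * iota D m k (z s) : R D (m + k)) =
      ∑ a : Shf m k × Sq m × Sq k, ∑ w,
        (CS m k (shf a.1) * iota D m k (CQ a.2.1 ⊗ₜ[ℂ] CQ a.2.2)) *
          pol (F a.1 a.2.1 a.2.2 w) * ew w := by
  rw [Fintype.sum_prod_type]
  refine Finset.sum_congr rfl fun s _ => ?_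
  rw [Fintype.sum_prod_type, FreeB_iota m k _ (z s) (F s) (hF s)]

lemma FreeB_card (m k : ℕ) : Fintype.card (Shf m k × Sq m × Sq k) = (m + k).factorial := by
  rw [Fintype.card_prod, Fintype.card_prod, card_shf, card_Sq, card_Sq]
  have h := Nat.choose_mul_factorial_mul_factorial (n := m + k) (k := k) (by omega)
  rw [Nat.add_sub_cancel] at h
  rw [← h]
  ring

/-- Uniqueness.
PROOF. Elements of R D m ⊗ R D k are sums of (CQ p ⊗ CQ q) * (pol f ew u ⊗ pol g ew v) (`pbw_span` twice).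
Let polR : MvPolynomial (Fin (m+k)) ℂ → R D m ⊗ R D k be the algebra map X (castAdd j) ↦ yk j ⊗ 1,
X (natAdd j) ↦ 1 ⊗ yk j (the images commute: go through MvPolynomial (Fin m) ⊗ MvPolynomial (Fin k) and
the isomorphism with MvPolynomial (Fin m ⊕ Fin k), `MvPolynomial.sumAlgEquiv`/`algebraTensorAlgEquiv`, or
define it as aeval into the commutative subalgebra), iota (polR F) = pol F, and every pol f ⊗ pol g is
some polR F. So every z ∈ R D m ⊗ R D k is ∑ over p, q, u, v of
(CQ p ⊗ CQ q) * polR (F p q u v) * (ew u ⊗ ew v). The family b (s, p, q) = CS m k (shf s) *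
iota (CQ p ⊗ CQ q) indexed by Shf m k × Sq m × Sq k has (m+k)! elements (`card_shf`, `card_Sq`,
Nat.choose_mul_factorial_mul_factorial) and satisfies the hypothesis of `count` (`free_span`,
`iota_ew`, words of length m + k are Fin.append u v). If ∑ CS (shf s) * iota (z s) = 0 then writing z s
in this form, `count` (f, against g = 0) gives all F = 0, so z s = 0. -/
theorem free_unique (m k : ℕ) (z z' : Shf m k → R D m ⊗[ℂ] R D k)
    (h : ∑ p, (CS m k (shf p) * iota D m k (z p) : R D (m + k)) =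
      ∑ p, CS m k (shf p) * iota D m k (z' p)) : z = z' := by
  choose F hF using fun s => FreeB_form m k (z s)
  choose F' hF' using fun s => FreeB_form m k (z' s)
  have h1 := count (FreeB_card m k)
    (fun a : Shf m k × Sq m × Sq k =>
      (CS m k (shf a.1) * iota D m k (CQ a.2.1 ⊗ₜ[ℂ] CQ a.2.2) : R D (m + k)))
    (fun x => by
      obtain ⟨y, hy⟩ := free_span m k x
      choose G hG using fun s => FreeB_form m k (y s)
      exact ⟨fun a w => G a.1 a.2.1 a.2.2 w, hy.trans (FreeB_total m k y G hG)⟩)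
    (fun a w => F a.1 a.2.1 a.2.2 w) (fun a w => F' a.1 a.2.1 a.2.2 w)
    ((FreeB_total m k z F hF).symm.trans (h.trans (FreeB_total m k z' F' hF')))
  funext s
  rw [hF s, hF' s]
  refine Finset.sum_congr rfl fun p _ => ?_
  refine Finset.sum_congr rfl fun q _ => ?_
  refine Finset.sum_congr rfl fun w _ => ?_
  have := congrFun (congrFun h1 (s, p, q)) w
  simp only at this
  rw [this]

end CA1492
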