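import Mathlib
import Pool.Agent.Lib.MP_ca1492_al.Alg.FreeB

/-!
The matrix representation of `R D (m + k)` over the parabolic subalgebra.
-/

namespace CA1492

open TensorProduct

variable {D : Dat}

/-- A coefficient of `x * CS q`. -/
noncomputable def freeT (D : Dat) (m k : ℕ) (x : R D (m + k)) (p q : Shf m k) :
    R D m ⊗[ℂ] R D k := (free_span m k (x * CS m k (shf q))).choose p

lemma freeT_spec (m k : ℕ) (x : R D (m + k)) (q : Shf m k) :
    x * CS m k (shf q) = ∑ p, CS m k (shf p) * iota D m k (freeT D m k x p q) :=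
  (free_span m k (x * CS m k (shf q))).choose_spec

lemma freeT_uniq (m k : ℕ) (x : R D (m + k)) (q : Shf m k) (z : Shf m k → R D m ⊗[ℂ] R D k)
    (h : x * CS m k (shf q) = ∑ p, CS m k (shf p) * iota D m k (z p)) (p : Shf m k) :
    freeT D m k x p q = z p := by
  have h1 := free_unique (D := D) m k (fun p => freeT D m k x p q) z
    ((freeT_spec m k x q).symm.trans h)
  exact congrFun h1 p

lemma free_sum_single (m k : ℕ) (q : Shf m k) (z : R D m ⊗[ℂ] R D k) :
    ∑ p, (CS m k (shf p) * iota D m k (if p = q then z else 0) : R D (m + k)) =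
      CS m k (shf q) * iota D m k z := by
  rw [Finset.sum_eq_single q]
  · rw [if_pos rfl]
  · intro p _ hp
    rw [if_neg hp, map_zero, mul_zero]
  · intro h
    exact absurd (Finset.mem_univ q) h

lemma free_CS_id (m k : ℕ) : (CS m k (shf (shfId m k)) : R D (m + k)) = 1 := by
  have h1 : (CS m k (shf (shfId m k)) : R D (m + k)) = CS m k (fun j => m + j) := by
    refine (CS_congr (D := D) (n := m + k) (m := m) (k := k) (fun j hj => ?_)).1
    simp [shf, shfId, hj]
  rw [h1]
  exact Span_CS_one m k

/-- The matrix of left multiplication.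
PROOF: by `free_span` and `free_unique` choose for x and q the unique (Θ x) p q with
x * CS (shf q) = ∑_p CS (shf p) * iota ((Θ x) p q). Algebra homomorphism: uniqueness, e.g.
x y CS q = x ∑_p CS p iota (Θ y p q) = ∑_r CS r iota (∑_p Θ x r p * Θ y p q). -/
theorem exists_theta (D : Dat) (m k : ℕ) :
    ∃ Θ : R D (m + k) →ₐ[ℂ] Matrix (Shf m k) (Shf m k) (R D m ⊗[ℂ] R D k),
      ∀ x q, x * CS m k (shf q) = ∑ p, CS m k (shf p) * iota D m k (Θ x p q) := by
  refine ⟨{ toFun := fun x => Matrix.of (fun p q => freeT D m k x p q)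
            map_one' := ?_
            map_mul' := ?_
            map_zero' := ?_
            map_add' := ?_
            commutes' := ?_ }, ?_⟩
  · ext p q
    rw [Matrix.of_apply, Matrix.one_apply]
    refine freeT_uniq m k 1 q (fun p => if p = q then 1 else 0) ?_ p
    rw [free_sum_single, map_one, mul_one, one_mul]
  · intro x y
    ext r q
    rw [Matrix.of_apply, Matrix.mul_apply]
    refine freeT_uniq m k (x * y) q (fun r => ∑ p, freeT D m k x r p * freeT D m k y p q) ?_ r
    rw [mul_assoc, freeT_spec m k y q, Finset.mul_sum]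
    have h1 : ∀ p : Shf m k, x * (CS m k (shf p) * iota D m k (freeT D m k y p q)) =
        ∑ r, CS m k (shf r) * iota D m k (freeT D m k x r p * freeT D m k y p q) := by
      intro p
      rw [← mul_assoc, freeT_spec m k x p, Finset.sum_mul]
      refine Finset.sum_congr rfl (fun r _ => ?_)
      rw [map_mul, mul_assoc]
    rw [Finset.sum_congr rfl (fun p _ => h1 p), Finset.sum_comm]
    refine Finset.sum_congr rfl (fun r _ => ?_)
    rw [map_sum, Finset.mul_sum]
  · ext p q
    rw [Matrix.of_apply, Matrix.zero_apply]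
    refine freeT_uniq m k 0 q (fun _ => 0) ?_ p
    simp
  · intro x y
    ext p q
    rw [Matrix.of_apply, Matrix.add_apply, Matrix.of_apply, Matrix.of_apply]
    refine freeT_uniq m k (x + y) q (fun p => freeT D m k x p q + freeT D m k y p q) ?_ p
    rw [add_mul, freeT_spec m k x q, freeT_spec m k y q, ← Finset.sum_add_distrib]
    refine Finset.sum_congr rfl (fun r _ => ?_)
    rw [map_add, mul_add]
  · intro c
    ext p q
    rw [Matrix.of_apply, Matrix.algebraMap_matrix_apply]
    refine freeT_uniq m k _ q (fun p => if p = q then algebraMap ℂ _ c else 0) ?_ p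
    rw [free_sum_single, AlgHom.commutes, Algebra.commutes]
  · intro x q
    exact freeT_spec m k x q

/-- The matrix representation. -/
noncomputable def theta (D : Dat) (m k : ℕ) :
    R D (m + k) →ₐ[ℂ] Matrix (Shf m k) (Shf m k) (R D m ⊗[ℂ] R D k) := (exists_theta D m k).choose

lemma theta_spec (D : Dat) (m k : ℕ) (x : R D (m + k)) (q : Shf m k) :
    x * CS m k (shf q) = ∑ p, CS m k (shf p) * iota D m k (theta D m k x p q) :=
  (exists_theta D m k).choose_spec x q

lemma theta_uniq (m k : ℕ) (x : R D (m + k)) (q : Shf m k) (z : Shf m k → R D m ⊗[ℂ] R D k)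
    (h : x * CS m k (shf q) = ∑ p, CS m k (shf p) * iota D m k (z p)) (p : Shf m k) :
    theta D m k x p q = z p := by
  have h1 := free_unique (D := D) m k (fun p => theta D m k x p q) z
    ((theta_spec D m k x q).symm.trans h)
  exact congrFun h1 p

/-- PROOF: uniqueness; CS m k (shf (shfId)) = 1 (all factors Cc (m+j) (m+j) = 1). -/
theorem theta_iota (m k : ℕ) (z : R D m ⊗[ℂ] R D k) (p : Shf m k) :
    theta D m k (iota D m k z) p (shfId m k) = if p = shfId m k then z else 0 := by
  refine theta_uniq m k _ (shfId m k) (fun p => if p = shfId m k then z else 0) ?_ p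
  rw [free_sum_single, free_CS_id, mul_one, one_mul]

/-- PROOF: uniqueness: `CS (shf p) * 1 = CS (shf p)` and CS (shfId) = 1. -/
theorem theta_CS (m k : ℕ) (p q : Shf m k) :
    theta D m k (CS m k (shf q)) p (shfId m k) = if p = q then 1 else 0 := by
  refine theta_uniq m k _ (shfId m k) (fun p => if p = q then 1 else 0) ?_ p
  rw [free_sum_single, free_CS_id, mul_one, map_one, mul_one]

end CA1492
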