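import Mathlib
import Pool.Agent.Lib.MP_ca1492_al.Alg.Tri

/-!
Refinement of the trichotomy (explicit form of the first case), raising a shuffle, stronger bounds for
the longest shuffle.
-/

namespace CA1492

variable {D : Dat} {n : ℕ}

theorem TriX_mono {m k : ℕ} {p : ℕ → ℕ} (hp : IsSh m k p) {i j : ℕ} (hij : i < j) (hj : j < k) :
    p i < p j := by
  induction j with
  | zero => omega
  | succ j ih =>
    rcases Nat.lt_succ_iff_lt_or_eq.1 hij with h | h
    · exact lt_trans (ih h (by omega)) (hp.2 j hj)
    · rw [h]
      exact hp.2 j hj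

/-- the induction step in the cases where `ps r` can be moved through the first factor -/
theorem TriX_lift {m k : ℕ} {p : ℕ → ℕ} (hp : IsSh m (k + 1) p) {r r' : ℕ}
    (hrr : (r' = r ∧ r + 1 < p k) ∨ p k < r' + 1)
    (hd : (ps r * Cc (p k) (m + k) - Cc (p k) (m + k) * ps r' : R D n) ∈
      Fil D n (m + k + 1) (m + k - p k))
    (ih : (∃ j, j < k ∧ p j = r' + 1 ∧ IsSh m k (Function.update p j r') ∧
      lenS m k (Function.update p j r') = lenS m k p + 1 ∧
      (ps r' * CS m k p - CS m k (Function.update p j r') : R D n) ∈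
        Fil D n (m + k) (lenS m k p)) ∨
    (∃ s, s + 1 < m + k ∧ s + 1 ≠ m ∧
      (ps r' * CS m k p - CS m k p * ps s : R D n) ∈ Fil D n (m + k) (lenS m k p)) ∨
    (ps r' * CS m k p : R D n) ∈ Fil D n (m + k) (lenS m k p)) :
    (∃ j, j < k + 1 ∧ p j = r + 1 ∧ IsSh m (k + 1) (Function.update p j r) ∧
      lenS m (k + 1) (Function.update p j r) = lenS m (k + 1) p + 1 ∧
      (ps r * CS m (k + 1) p - CS m (k + 1) (Function.update p j r) : R D n) ∈
        Fil D n (m + (k + 1)) (lenS m (k + 1) p)) ∨
    (∃ s, s + 1 < m + (k + 1) ∧ s + 1 ≠ m ∧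
      (ps r * CS m (k + 1) p - CS m (k + 1) p * ps s : R D n) ∈
        Fil D n (m + (k + 1)) (lenS m (k + 1) p)) ∨
    (ps r * CS m (k + 1) p : R D n) ∈ Fil D n (m + (k + 1)) (lenS m (k + 1) p) := by
  have hC : (CS m k p : R D n) ∈ Fil D n (m + (k + 1)) (lenS m k p) := CS_mem p (by omega)
  have hCc : (Cc (p k) (m + k) : R D n) ∈ Fil D n (m + (k + 1)) (m + k - p k) :=
    Cc_mem (by omega)
  have h1 : ((ps r * Cc (p k) (m + k) - Cc (p k) (m + k) * ps r') * CS m k p : R D n) ∈
      Fil D n (m + (k + 1)) (lenS m (k + 1) p) := by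
    rw [Tri_len, add_comm (lenS m k p)]
    exact Fil_mul hd hC
  have h2 : ∀ z : R D n, z ∈ Fil D n (m + k) (lenS m k p) → Cc (p k) (m + k) * z ∈
      Fil D n (m + (k + 1)) (lenS m (k + 1) p) := by
    intro z hz
    rw [Tri_len, add_comm (lenS m k p)]
    exact Fil_mul hCc (Fil_mono (by omega) le_rfl hz)
  rcases ih with ⟨j, hj, hpj, hsh, hlen, hz⟩ | ⟨s, hs1, hs2, hz⟩ | hz
  · left
    have hjk : p j < p k := TriX_mono hp hj (Nat.lt_succ_self k)
    rcases hrr with ⟨hr1, hr2⟩ | hr2
    · subst hr1
      have hk : Function.update p j r' k = p k := Function.update_of_ne (by omega) _ _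
      refine ⟨j, by omega, hpj, ⟨?_, ?_⟩, ?_, ?_⟩
      · intro i hi
        rcases Nat.lt_succ_iff_lt_or_eq.1 hi with h | h
        · exact hsh.1 i h
        · rw [h, hk]
          exact hp.1 k (Nat.lt_succ_self k)
      · intro i hi
        rcases Nat.lt_succ_iff_lt_or_eq.1 hi with h | h
        · exact hsh.2 i h
        · rw [h, hk]
          by_cases hij : i = j
          · rw [hij, Function.update_self]
            omega
          · rw [Function.update_of_ne hij]
            have h3 := hp.2 i hi
            rwa [h] at h3
      · rw [Tri_len, Tri_len, hk, hlen]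
        omega
      · have e : (ps r' * CS m (k + 1) p - CS m (k + 1) (Function.update p j r') : R D n)
            = (ps r' * Cc (p k) (m + k) - Cc (p k) (m + k) * ps r') * CS m k p
              + Cc (p k) (m + k) * (ps r' * CS m k p - CS m k (Function.update p j r')) := by
          rw [Tri_CS, Tri_CS, hk]
          noncomm_ring
        rw [e]
        exact Submodule.add_mem _ h1 (h2 _ hz)
    · exfalso
      omega
  · right; left
    refine ⟨s, by omega, hs2, ?_⟩
    have e : (ps r * CS m (k + 1) p - CS m (k + 1) p * ps s : R D n)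
        = (ps r * Cc (p k) (m + k) - Cc (p k) (m + k) * ps r') * CS m k p
          + Cc (p k) (m + k) * (ps r' * CS m k p - CS m k p * ps s) := by
      rw [Tri_CS]
      noncomm_ring
    rw [e]
    exact Submodule.add_mem _ h1 (h2 _ hz)
  · right; right
    have e : (ps r * CS m (k + 1) p : R D n)
        = (ps r * Cc (p k) (m + k) - Cc (p k) (m + k) * ps r') * CS m k p
          + Cc (p k) (m + k) * (ps r' * CS m k p) := by
      rw [Tri_CS]
      noncomm_ring
    rw [e]
    exact Submodule.add_mem _ h1 (h2 _ hz)

/-- The trichotomy with the explicit form of the first case.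
PROOF: repeat the proof of `trichotomy` (and of `Tri_lift`) with the additional information. In case (b)
(r + 1 = p k) the new sequence is Function.update p k r. In the lifting step
Function.update (Function.update p j r) k (p k) = Function.update p j r (j < k). -/
theorem trichotomyX {m k : ℕ} {p : ℕ → ℕ} (hp : IsSh m k p) {r : ℕ} (hr : r + 1 < m + k) :
    (∃ j, j < k ∧ p j = r + 1 ∧ IsSh m k (Function.update p j r) ∧
      lenS m k (Function.update p j r) = lenS m k p + 1 ∧
      (ps r * CS m k p - CS m k (Function.update p j r) : R D n) ∈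
        Fil D n (m + k) (lenS m k p)) ∨
    (∃ s, s + 1 < m + k ∧ s + 1 ≠ m ∧
      (ps r * CS m k p - CS m k p * ps s : R D n) ∈ Fil D n (m + k) (lenS m k p)) ∨
    (ps r * CS m k p : R D n) ∈ Fil D n (m + k) (lenS m k p) := by
  induction k generalizing r with
  | zero =>
    right; left
    refine ⟨r, hr, by omega, ?_⟩
    have e : (ps r * CS m 0 p - CS m 0 p * ps r : R D n) = 0 := by
      show ps r * (1 : R D n) - 1 * ps r = 0
      rw [mul_one, one_mul, sub_self]
    rw [e]
    exact Submodule.zero_mem _
  | succ k ih =>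
    have hpk : IsSh m k p := ⟨fun j hj => hp.1 j (by omega), fun j hj => hp.2 j (by omega)⟩
    have hc : p k ≤ m + k := hp.1 k (Nat.lt_succ_self k)
    have hrq : r < m + k := by omega
    rcases lt_trichotomy (r + 1) (p k) with h | h | h
    · -- case (a)
      refine TriX_lift hp (r' := r) (Or.inl ⟨rfl, h⟩) ?_ (ih hpk (by omega))
      rw [ps_Cc_far (Or.inl h), sub_self]
      exact Submodule.zero_mem _
    · -- case (b)
      have hCc : (ps r * Cc (p k) (m + k) : R D n) = Cc r (m + k) := by
        rw [← h]
        exact (Cc_facts.2.1 r (m + k) hrq).symm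
      by_cases hb : ∀ j, j + 1 = k → p j < r
      · left
        have hcongr := CS_congr (D := D) (n := n) (m := m) (k := k)
          (p := Function.update p k r) (p' := p)
          fun j hj => Function.update_of_ne (ne_of_lt hj) _ _
        refine ⟨k, Nat.lt_succ_self k, h.symm, ⟨?_, ?_⟩, ?_, ?_⟩
        · intro j hj
          rcases Nat.lt_succ_iff_lt_or_eq.1 hj with h' | h'
          · rw [Function.update_of_ne (ne_of_lt h')]
            exact hp.1 j hj
          · rw [h', Function.update_self]
            omega
        · intro j hj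
          rcases Nat.lt_succ_iff_lt_or_eq.1 hj with h' | h'
          · rw [Function.update_of_ne (by omega), Function.update_of_ne (by omega)]
            exact hp.2 j hj
          · rw [h', Function.update_self, Function.update_of_ne (by omega)]
            exact hb j h'
        · rw [Tri_len, Tri_len, hcongr.2, Function.update_self]
          omega
        · have e : (ps r * CS m (k + 1) p - CS m (k + 1) (Function.update p k r) : R D n)
              = 0 := by
            rw [Tri_CS, Tri_CS, hcongr.1, Function.update_self, ← mul_assoc, hCc, sub_self]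
          rw [e]
          exact Submodule.zero_mem _
      · push Not at hb
        obtain ⟨j, hj, hjr⟩ := hb
        subst hj
        have hpj : p j = r := by
          have h3 := hp.2 j (by omega)
          omega
        right; left
        refine ⟨m + j, by omega, by omega, ?_⟩
        have h4 := Cc_Cc (D := D) (n := n) (s := m + (j + 1 + 1)) (p := r) (q := m + (j + 1))
          (by omega) (by omega)
        have h5 : m + (j + 1) - 1 = m + j := by omega
        rw [h5] at h4
        have e : (ps r * CS m (j + 1 + 1) p - CS m (j + 1 + 1) p * ps (m + j) : R D n)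
            = (Cc r (m + (j + 1)) * Cc r (m + j) -
              Cc (r + 1) (m + (j + 1)) * Cc r (m + j) * ps (m + j)) * CS m j p := by
          rw [Tri_CS, ← mul_assoc, hCc, Tri_CS, hpj, ← h, sub_mul]
          simp only [mul_assoc]
          rw [Tri_comm p (le_refl (m + j))]
        rw [e]
        have h6 : (CS m j p : R D n) ∈ Fil D n (m + (j + 1 + 1)) (lenS m j p) :=
          CS_mem p (by omega)
        refine Fil_mono le_rfl ?_ (Fil_mul h4 h6)
        rw [Tri_len, Tri_len, hpj, ← h]
        omega
    · rcases Nat.lt_or_ge (p k) r with h' | h'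
      · -- case (d)
        refine TriX_lift hp (r' := r - 1) (Or.inr (by omega)) ?_ (ih hpk (by omega))
        exact Fil_mono le_rfl (by omega) (ps_Cc_mid h' hrq (Nat.lt_succ_self _))
      · -- case (c)
        have hrc : r = p k := by omega
        right; right
        have h1 : (ps r * Cc (p k) (m + k) : R D n) ∈
            Fil D n (m + (k + 1)) (m + k - p k - 1) := by
          rw [hrc]
          exact ps_Cc_eq (by omega) (by omega)
        have h2 : (CS m k p : R D n) ∈ Fil D n (m + (k + 1)) (lenS m k p) :=
          CS_mem p (by omega)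
        rw [Tri_CS, ← mul_assoc]
        refine Fil_mono le_rfl ?_ (Fil_mul h1 h2)
        rw [Tri_len]
        omega

/-- Raising: if position p j - 1 is not occupied by a right letter, then ps (p j - 1) gives exactly the
shuffle with p j replaced by p j - 1.
PROOF: induction on k. j = k: ps r * Cc (r+1) (m+k) = Cc r (m+k) (`Cc_facts`; r < m + k). j < k:
r + 1 = p j < p k, so ps r commutes with Cc (p k) (m+k) (`ps_Cc_far`). -/
theorem ps_CS_up {m k j r : ℕ} {p : ℕ → ℕ} (hp : IsSh m k p) (hj : j < k) (hr : p j = r + 1)
    (hfree : ∀ i, i + 1 = j → p i < r) :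
    IsSh m k (Function.update p j r) ∧
    lenS m k (Function.update p j r) = lenS m k p + 1 ∧
    (ps r * CS m k p : R D n) = CS m k (Function.update p j r) := by
  have hjm := hp.1 j hj
  refine ⟨⟨?_, ?_⟩, ?_, ?_⟩
  · intro i hi
    by_cases hij : i = j
    · rw [hij, Function.update_self]
      omega
    · rw [Function.update_of_ne hij]
      exact hp.1 i hi
  · intro i hi
    have h3 := hp.2 i hi
    by_cases hij : i = j
    · subst hij
      rw [Function.update_self, Function.update_of_ne (by omega)]
      omega
    · rw [Function.update_of_ne hij]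
      by_cases hij' : i + 1 = j
      · rw [hij', Function.update_self]
        exact hfree i hij'
      · rw [Function.update_of_ne hij']
        exact h3
  · clear hfree
    induction k with
    | zero => omega
    | succ k ih =>
      have hpk : IsSh m k p := ⟨fun j hj => hp.1 j (by omega), fun j hj => hp.2 j (by omega)⟩
      rcases Nat.lt_succ_iff_lt_or_eq.1 hj with h | h
      · have hk : Function.update p j r k = p k := Function.update_of_ne (by omega) _ _
        rw [Tri_len, Tri_len, hk, ih hpk h]
        omega
      · subst h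
        have hcongr := CS_congr (D := D) (n := n) (m := m) (k := j)
          (p := Function.update p j r) (p' := p)
          fun i hi => Function.update_of_ne (ne_of_lt hi) _ _
        rw [Tri_len, Tri_len, hcongr.2, Function.update_self]
        omega
  · clear hfree
    induction k with
    | zero => omega
    | succ k ih =>
      have hpk : IsSh m k p := ⟨fun j hj => hp.1 j (by omega), fun j hj => hp.2 j (by omega)⟩
      rcases Nat.lt_succ_iff_lt_or_eq.1 hj with h | h
      · have hk : Function.update p j r k = p k := Function.update_of_ne (by omega) _ _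
        have hjk : p j < p k := TriX_mono hp h (Nat.lt_succ_self k)
        rw [Tri_CS, Tri_CS, hk, ← ih hpk h, ← mul_assoc, ps_Cc_far (Or.inl (by omega)), mul_assoc]
      · subst h
        have hcongr := CS_congr (D := D) (n := n) (m := m) (k := j)
          (p := Function.update p j r) (p' := p)
          fun i hi => Function.update_of_ne (ne_of_lt hi) _ _
        rw [Tri_CS, Tri_CS, hcongr.1, Function.update_self, ← mul_assoc, hr,
          ← Cc_facts.2.1 r (m + j) (by omega)]

/-- For p < r ≤ q, r + k = q, k ≥ 1. PROOF: `CL_claim` with the better bound: induction on k,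
Cc r q = ps r * Cc (r+1) q; the error of the step is
ps r * (error of the induction hypothesis) + (ps r * Cc p q - Cc p q * ps (r-1)) * Cc r (q-1), with
`ps_Cc_mid`: q - p - 2 + (q - 1 - r) = k + (q - p) - 3; for k = 1 only the second term (r = q - 1,
Cc q q = 1; r > p so q - p ≥ 2). -/
theorem CL_claimX {s p q : ℕ} (hq : q < s) : ∀ k r, r + k = q → p < r →
    (Cc r q * Cc p q - Cc p q * Cc (r - 1) (q - 1) : R D n) ∈ Fil D n s (k + (q - p) - 3) ∨
    k = 0 := by
  intro k
  induction k with
  | zero =>
    intro r h1 h2
    exact Or.inr rfl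
  | succ k ih =>
    intro r h1 h2
    left
    have h3 := ih (r + 1) (by omega) (by omega)
    rw [Nat.add_sub_cancel] at h3
    have h4 := ps_Cc_mid (D := D) (n := n) (s := s) (p := p) (q := q) (r := r) h2 (by omega) hq
    have e1 : (Cc r q : R D n) = ps r * Cc (r + 1) q := Cc_facts.2.1 r q (by omega)
    have e2 : (Cc (r - 1) (q - 1) : R D n) = ps (r - 1) * Cc r (q - 1) := by
      have := Cc_facts (D := D) (n := n) |>.2.1 (r - 1) (q - 1) (by omega)
      rwa [show r - 1 + 1 = r from by omega] at this
    have e3 : (Cc r q * Cc p q - Cc p q * Cc (r - 1) (q - 1) : R D n) =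
        ps r * (Cc (r + 1) q * Cc p q - Cc p q * Cc r (q - 1)) +
          (ps r * Cc p q - Cc p q * ps (r - 1)) * Cc r (q - 1) := by
      rw [e1, e2]
      simp only [mul_sub, sub_mul, mul_assoc]
      abel
    rw [e3]
    refine Submodule.add_mem _ ?_ ?_
    · rcases Nat.eq_zero_or_pos k with hk | hk
      swap
      · have h3' := h3.resolve_right (by omega)
        have h5 := Fil_mul ((mem_Fil (D := D) (n := n)).2.2.2.2 s r (by omega)) h3'
        exact Fil_mono le_rfl (by omega) h5
      · subst hk
        have h6 : r + 1 = q := by omega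
        subst h6
        rw [Nat.add_sub_cancel, Cc_facts.1 (r + 1) (r + 1) le_rfl, Cc_facts.1 r r le_rfl, one_mul,
          mul_one, sub_self, mul_zero]
        exact Submodule.zero_mem _
    · have h5 := Fil_mul h4 (Cc_mem (D := D) (n := n) (s := s) (p := r) (q := q - 1) (by omega))
      exact Fil_mono le_rfl (by omega) h5

/-- The longest shuffle: all right letters in front. -/
def pmx : ℕ → ℕ := fun j => j

theorem TriX_ge {m k : ℕ} {p : ℕ → ℕ} (hp : IsSh m k p) : ∀ j, j < k → j ≤ p j := by
  intro j
  induction j with
  | zero => exact fun _ => Nat.zero_le _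
  | succ j ih =>
    intro hj
    have h1 := ih (by omega)
    have h2 := hp.2 j hj
    omega

theorem pmx_facts (m k : ℕ) : IsSh m k pmx ∧ lenS m k pmx = m * k ∧
    ∀ p, IsSh m k p → lenS m k p ≤ m * k ∧ (lenS m k p = m * k → ∀ j < k, p j = j) := by
  have hsum : ∑ _j ∈ Finset.range k, m = m * k := by
    rw [Finset.sum_const, Finset.card_range, smul_eq_mul, mul_comm]
  refine ⟨⟨fun j _ => ?_, fun j _ => ?_⟩, ?_, ?_⟩
  · show j ≤ m + j
    omega
  · show j < j + 1
    omega
  · rw [← hsum]
    refine Finset.sum_congr rfl fun j _ => ?_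
    show m + j - j = m
    omega
  · intro p hp
    have hle : ∀ j ∈ Finset.range k, m + j - p j ≤ m := by
      intro j hj
      have h1 := TriX_ge hp j (Finset.mem_range.1 hj)
      omega
    refine ⟨?_, ?_⟩
    · rw [← hsum]
      exact Finset.sum_le_sum hle
    · intro h j hj
      rw [← hsum] at h
      have h2 := (Finset.sum_eq_sum_iff_of_le hle).1 h j (Finset.mem_range.2 hj)
      have h3 := TriX_ge hp j hj
      have h4 := hp.1 j hj
      omega

/-- Left letters: k ≤ r, r + 1 < m + k: ps r * CS m k pmx ≡ CS m k pmx * ps (r - k) modulo products with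
fewer than m * k factors.
PROOF: induction on k: ps r * Cc k (m+k) ≡ Cc k (m+k) * ps (r-1) modulo Fil (m - 2)
(`ps_Cc_mid`, k < r < m + k; here CS m (k+1) pmx = Cc k (m+k) * CS m k pmx, k + 1 ≤ r), then the
induction hypothesis for r - 1 ≥ k. Note m ≥ 2. -/
theorem ps_long_left {m k r : ℕ} (h1 : k ≤ r) (h2 : r + 1 < m + k) :
    (ps r * CS m k pmx - CS m k pmx * ps (r - k) : R D n) ∈ Fil D n (m + k) (m * k - 1) ∧
    2 ≤ m := by
  refine ⟨?_, by omega⟩
  induction k generalizing r with
  | zero =>
    have e : (ps r * CS m 0 pmx - CS m 0 pmx * ps (r - 0) : R D n) = 0 := by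
      show ps r * (1 : R D n) - 1 * ps (r - 0) = 0
      rw [mul_one, one_mul, Nat.sub_zero, sub_self]
    rw [e]
    exact Submodule.zero_mem _
  | succ k ih =>
    have h3 := ih (r := r - 1) (by omega) (by omega)
    have h4 := ps_Cc_mid (D := D) (n := n) (s := m + (k + 1)) (p := k) (q := m + k) (r := r)
      (by omega) (by omega) (by omega)
    have h5 : r - 1 - k = r - (k + 1) := by omega
    rw [h5] at h3
    have e : (ps r * CS m (k + 1) pmx - CS m (k + 1) pmx * ps (r - (k + 1)) : R D n) =
        (ps r * Cc k (m + k) - Cc k (m + k) * ps (r - 1)) * CS m k pmx +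
          Cc k (m + k) * (ps (r - 1) * CS m k pmx - CS m k pmx * ps (r - (k + 1))) := by
      rw [Tri_CS]
      show (ps r * (Cc k (m + k) * CS m k pmx) - Cc k (m + k) * CS m k pmx * ps (r - (k + 1)) :
        R D n) = _
      noncomm_ring
    have h6 : (CS m k pmx : R D n) ∈ Fil D n (m + (k + 1)) (lenS m k pmx) :=
      CS_mem pmx (by omega)
    rw [(pmx_facts m k).2.1] at h6
    have h7 : m * (k + 1) = m * k + m := by ring
    rw [e]
    refine Submodule.add_mem _ ?_ ?_
    · exact Fil_mono le_rfl (by omega) (Fil_mul h4 h6)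
    · rcases Nat.eq_zero_or_pos k with hk | hk
      · subst hk
        have e0 : (ps (r - 1) * CS m 0 pmx - CS m 0 pmx * ps (r - (0 + 1)) : R D n) = 0 := by
          show ps (r - 1) * (1 : R D n) - 1 * ps (r - (0 + 1)) = 0
          rw [mul_one, one_mul, Nat.zero_add, sub_self]
        rw [e0, mul_zero]
        exact Submodule.zero_mem _
      · have h8 : (Cc k (m + k) : R D n) ∈ Fil D n (m + (k + 1)) (m + k - k) := Cc_mem (by omega)
        have h9 : 0 < m * k := Nat.mul_pos (by omega) hk
        exact Fil_mono le_rfl (by omega) (Fil_mul h8 (Fil_mono (by omega) le_rfl h3))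

/-- Right letters: r + 1 < k: ps r * CS m k pmx ≡ CS m k pmx * ps (m + r) modulo products with fewer
than m * k factors (m ≥ 1; for m = 0 both sides are equal: CS 0 k pmx = 1).
PROOF: ps r commutes with Cc j (m+j) for j > r + 1 (`ps_Cc_far`), and
ps r * Cc (r+1) (m+r+1) * Cc r (m+r) = Cc r (m+r+1) * Cc r (m+r); by `CL_claimX` for
p := r, r := r + 1, q := m + r + 1 (k := m): Cc (r+1) (m+r+1) * Cc r (m+r+1) ≡
Cc r (m+r+1) * Cc r (m+r) modulo Fil (2 m + 1 - 3), and Cc r (m+r+1) = Cc r (m+r) * ps (m+r); then
ps (m+r) commutes with CS m r pmx (`Tri_comm`: m + r ≤ m + r). Count the factors. -/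
theorem ps_long_right {m k r : ℕ} (hm : 0 < m) (h : r + 1 < k) :
    (ps r * CS m k pmx - CS m k pmx * ps (m + r) : R D n) ∈ Fil D n (m + k) (m * k - 1) := by
  induction k with
  | zero => omega
  | succ k ih =>
    have h7 : m * (k + 1) = m * k + m := by ring
    have hcs : (CS m (k + 1) pmx : R D n) = Cc k (m + k) * CS m k pmx := Tri_CS m k pmx
    rcases Nat.lt_or_ge (r + 1) k with hr | hr
    · have h3 := ih hr
      have e : (ps r * CS m (k + 1) pmx - CS m (k + 1) pmx * ps (m + r) : R D n) =
          Cc k (m + k) * (ps r * CS m k pmx - CS m k pmx * ps (m + r)) := by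
        rw [hcs, ← mul_assoc, ps_Cc_far (Or.inl hr), mul_sub]
        simp only [mul_assoc]
      rw [e]
      have h8 : (Cc k (m + k) : R D n) ∈ Fil D n (m + (k + 1)) (m + k - k) := Cc_mem (by omega)
      have h9 : 0 < m * k := Nat.mul_pos hm (by omega)
      exact Fil_mono le_rfl (by omega) (Fil_mul h8 (Fil_mono (by omega) le_rfl h3))
    · have hk : k = r + 1 := by omega
      subst hk
      have hcs' : (CS m (r + 1) pmx : R D n) = Cc r (m + r) * CS m r pmx := Tri_CS m r pmx
      have e1 : (ps r * Cc (r + 1) (m + (r + 1)) : R D n) = Cc r (m + (r + 1)) :=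
        (Cc_facts.2.1 r (m + (r + 1)) (by omega)).symm
      have e2 : (Cc r (m + r) * ps (m + r) : R D n) = Cc r (m + (r + 1)) :=
        (Cc_facts.2.2.1 r (m + r) (by omega)).symm
      have e3 : (ps (m + r) * CS m r pmx : R D n) = CS m r pmx * ps (m + r) :=
        Tri_comm pmx (le_refl (m + r))
      have h10 := CL_claimX (D := D) (n := n) (s := m + (r + 1 + 1)) (p := r)
        (q := m + (r + 1)) (by omega) m (r + 1) (by omega) (by omega)
      rcases h10 with h10 | h10
      · rw [Nat.add_sub_cancel, show m + (r + 1) - 1 = m + r from by omega] at h10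
        have e : (ps r * CS m (r + 1 + 1) pmx - CS m (r + 1 + 1) pmx * ps (m + r) : R D n) =
            -((Cc (r + 1) (m + (r + 1)) * Cc r (m + (r + 1)) -
              Cc r (m + (r + 1)) * Cc r (m + r)) * CS m r pmx) := by
          rw [hcs, hcs', ← mul_assoc (ps r), e1]
          have e4 : (Cc (r + 1) (m + (r + 1)) * (Cc r (m + r) * CS m r pmx) * ps (m + r) :
              R D n) = Cc (r + 1) (m + (r + 1)) * Cc r (m + (r + 1)) * CS m r pmx := by
            rw [← e2]
            simp only [mul_assoc]
            rw [e3]
          rw [e4, sub_mul, neg_sub]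
          simp only [mul_assoc]
        rw [e]
        have h11 : (CS m r pmx : R D n) ∈ Fil D n (m + (r + 1 + 1)) (lenS m r pmx) :=
          CS_mem pmx (by omega)
        rw [(pmx_facts m r).2.1] at h11
        have h12 : m * (r + 1) = m * r + m := by ring
        refine Submodule.neg_mem _ (Fil_mono le_rfl ?_ (Fil_mul h10 h11))
        rw [h7, h12]
        omega
      · omega

theorem TriX_sw_sw (r : ℕ) (a : Fin n) : sw n r (sw n r a) = a := by
  unfold sw
  split_ifs with h
  · exact Equiv.swap_apply_self _ _ _
  · rfl

/-- moving `yk` through one `ps` -/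
theorem TriX_step {s r : ℕ} (h : r + 1 < n) (a : Fin n) :
    (yk a * ps r - ps r * yk (sw n r a) : R D n) ∈ Fil D n s 0 := by
  rw [(ew_facts (D := D) (n := n)).2.2.1 (yk a * ps r - ps r * yk (sw n r a))]
  refine Submodule.sum_mem _ fun w _ => ?_
  have h1 := PolPs_SY (D := D) r h (sw n r a) w
  rw [TriX_sw_sw] at h1
  rw [sub_mul, h1, sub_add_cancel_left]
  exact Submodule.neg_mem _ (Submodule.smul_mem _ _ ((mem_Fil (D := D) (n := n)).2.1 s w))

/-- `yk b` commutes with `ps r` if b is beyond r + 1 -/
theorem TriX_far {r : ℕ} (b : Fin n) (h : r + 1 < b.val) :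
    (yk b * ps r : R D n) = ps r * yk b := by
  have hr : r + 1 < n := lt_trans h b.2
  have hsw : sw n r b = b := by
    unfold sw
    rw [dif_pos hr]
    refine Equiv.swap_apply_of_ne_of_ne ?_ ?_
    · intro h1
      rw [h1] at h
      simp at h
    · intro h1
      rw [h1] at h
      simp at h
  rw [(ew_facts (D := D) (n := n)).2.2.1 (yk b * ps r),
    (ew_facts (D := D) (n := n)).2.2.1 (ps r * yk b)]
  refine Finset.sum_congr rfl fun w _ => ?_
  have h1 := PolPs_SY (D := D) r hr b w
  have h2 : b ≠ ⟨r, by omega⟩ := by
    intro h3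
    rw [h3] at h
    simp at h
  have h3 : b ≠ ⟨r + 1, hr⟩ := by
    intro h3
    rw [h3] at h
    simp at h
  rw [hsw, if_neg h2, if_neg h3, ite_self, zero_smul, add_zero] at h1
  exact h1.symm

theorem TriX_far_Cc {p q : ℕ} (b : Fin n) (h : q < b.val) :
    (yk b * Cc p q : R D n) = Cc p q * yk b := by
  have hc : Commute (yk b : R D n) (Cc p q) := by
    refine Commute.list_prod_right _ _ fun x hx => ?_
    obtain ⟨t, ht, rfl⟩ := List.mem_map.1 hx
    rw [List.mem_range'_1] at ht
    exact TriX_far b (by omega)
  exact hc

theorem TriX_far_CS {m k : ℕ} (p : ℕ → ℕ) (b : Fin n) (h : m + k ≤ b.val) :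
    (yk b * CS m k p : R D n) = CS m k p * yk b := by
  induction k with
  | zero =>
    show yk b * (1 : R D n) = 1 * yk b
    rw [mul_one, one_mul]
  | succ k ih =>
    rw [Tri_CS, ← mul_assoc, TriX_far_Cc b (by omega), mul_assoc, ih (by omega), mul_assoc]

/-- Moving yk through Cc: PROOF: `ps_pol` / S_Y summed over the words: for r + 1 < n
yk a * ps r = ps r * yk (sw n r a) + (an element of Fil 0). Induction on q - p; the position after all
the transpositions. -/
theorem yk_Cc {s p q : ℕ} (hpq : p < q) (hq : q < s) (hqn : q < n) (a : Fin n) :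
    (yk a * Cc p q - Cc p q * yk (if h : a.val = p then ⟨q, hqn⟩ else
      if h : p < a.val ∧ a.val ≤ q then ⟨a.val - 1, by omega⟩ else a) : R D n) ∈
      Fil D n s (q - p - 1) := by
  have key : ∀ d (hd : p + d < s) (hdn : p + d < n),
      (d = 0 → (yk a * Cc p (p + d) - Cc p (p + d) * yk (if h : a.val = p then ⟨p + d, hdn⟩ else
        if h : p < a.val ∧ a.val ≤ p + d then ⟨a.val - 1, by omega⟩ else a) : R D n) = 0) ∧
      (yk a * Cc p (p + d) - Cc p (p + d) * yk (if h : a.val = p then ⟨p + d, hdn⟩ else
        if h : p < a.val ∧ a.val ≤ p + d then ⟨a.val - 1, by omega⟩ else a) : R D n) ∈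
        Fil D n s (d - 1) := by
    intro d
    induction d with
    | zero =>
      intro hd hdn
      have h0 : (yk a * Cc p (p + 0) - Cc p (p + 0) * yk (if h : a.val = p then ⟨p + 0, hdn⟩ else
          if h : p < a.val ∧ a.val ≤ p + 0 then ⟨a.val - 1, by omega⟩ else a) : R D n) = 0 := by
        have h1 : (if h : a.val = p then (⟨p + 0, hdn⟩ : Fin n) else
            if h : p < a.val ∧ a.val ≤ p + 0 then ⟨a.val - 1, by omega⟩ else a) = a := by
          split_ifs with h2 h3
          · exact Fin.ext h2.symm
          · omega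
          · rfl
        rw [h1, Cc_facts.1 p (p + 0) (by omega), mul_one, one_mul, sub_self]
      refine ⟨fun _ => h0, ?_⟩
      rw [h0]
      exact Submodule.zero_mem _
    | succ d ih =>
      intro hd hdn
      obtain ⟨i1, i2⟩ := ih (by omega) (by omega)
      refine ⟨fun h => by omega, ?_⟩
      set b : Fin n := if h : a.val = p then ⟨p + d, by omega⟩ else
        if h : p < a.val ∧ a.val ≤ p + d then ⟨a.val - 1, by omega⟩ else a with hb
      have hb' : (if h : a.val = p then (⟨p + (d + 1), hdn⟩ : Fin n) else
          if h : p < a.val ∧ a.val ≤ p + (d + 1) then ⟨a.val - 1, by omega⟩ else a) =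
          sw n (p + d) b := by
        unfold sw
        rw [dif_pos (by omega : p + d + 1 < n)]
        rw [hb]
        by_cases h1 : a.val = p
        · rw [dif_pos h1, dif_pos h1, Equiv.swap_apply_left]
          rfl
        · rw [dif_neg h1, dif_neg h1]
          by_cases h2 : p < a.val ∧ a.val ≤ p + d
          · rw [dif_pos h2, dif_pos (by omega), Equiv.swap_apply_of_ne_of_ne]
            · intro h3
              have := congrArg Fin.val h3
              simp only at this
              omega
            · intro h3
              have := congrArg Fin.val h3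
              simp only at this
              omega
          · rw [dif_neg h2]
            by_cases h3 : a.val = p + d + 1
            · have h4 : a = ⟨p + d + 1, by omega⟩ := Fin.ext h3
              rw [dif_pos (by omega)]
              conv_rhs => rw [h4]
              rw [Equiv.swap_apply_right]
              refine Fin.ext ?_
              show a.val - 1 = p + d
              omega
            · rw [dif_neg (by omega), Equiv.swap_apply_of_ne_of_ne]
              · intro h4
                have := congrArg Fin.val h4
                simp only at this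
                omega
              · intro h4
                exact h3 (congrArg Fin.val h4)
      rw [hb']
      have e1 : (Cc p (p + (d + 1)) : R D n) = Cc p (p + d) * ps (p + d) :=
        Cc_facts.2.2.1 p (p + d) (by omega)
      have e2 : (yk a * Cc p (p + (d + 1)) - Cc p (p + (d + 1)) * yk (sw n (p + d) b) : R D n) =
          (yk a * Cc p (p + d) - Cc p (p + d) * yk b) * ps (p + d) +
            Cc p (p + d) * (yk b * ps (p + d) - ps (p + d) * yk (sw n (p + d) b)) := by
        rw [e1]
        noncomm_ring
      rw [e2]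
      refine Submodule.add_mem _ ?_ ?_
      · rcases Nat.eq_zero_or_pos d with h0 | h0
        · rw [i1 h0, zero_mul]
          exact Submodule.zero_mem _
        · have h5 := Fil_mul i2 ((mem_Fil (D := D) (n := n)).2.2.2.2 s (p + d) (by omega))
          exact Fil_mono le_rfl (by omega) h5
      · have h5 := Fil_mul (Cc_mem (D := D) (n := n) (s := s) (p := p) (q := p + d) (by omega))
          (TriX_step (D := D) (s := s) (r := p + d) (by omega) b)
        exact Fil_mono le_rfl (by omega) h5
  obtain ⟨d, rfl⟩ : ∃ d, q = p + d := ⟨q - p, by omega⟩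
  have h1 := (key d hq hqn).2
  exact Fil_mono le_rfl (by omega) h1

/-- PROOF: induction on k with `yk_Cc` (m ≥ 1). -/
theorem yk_long {m k : ℕ} (hm : 0 < m) (hn : m + k ≤ n) (a : Fin n) (ha : a.val < k) :
    (yk a * CS m k pmx - CS m k pmx * yk ⟨m + a.val, by omega⟩ : R D n) ∈
      Fil D n (m + k) (m * k - 1) := by
  induction k with
  | zero => omega
  | succ k ih =>
    have h7 : m * (k + 1) = m * k + m := by ring
    have hcs : (CS m (k + 1) pmx : R D n) = Cc k (m + k) * CS m k pmx := Tri_CS m k pmx
    have h1 := yk_Cc (D := D) (n := n) (s := m + (k + 1)) (p := k) (q := m + k) (by omega)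
      (by omega) (by omega) a
    have h6 : (CS m k pmx : R D n) ∈ Fil D n (m + (k + 1)) (lenS m k pmx) :=
      CS_mem pmx (by omega)
    rw [(pmx_facts m k).2.1] at h6
    rcases Nat.lt_succ_iff_lt_or_eq.1 ha with h | h
    · rw [dif_neg (by omega), dif_neg (by omega)] at h1
      have h3 := ih (by omega) h
      have e : (yk a * CS m (k + 1) pmx - CS m (k + 1) pmx * yk ⟨m + a.val, by omega⟩ : R D n) =
          (yk a * Cc k (m + k) - Cc k (m + k) * yk a) * CS m k pmx +
            Cc k (m + k) * (yk a * CS m k pmx - CS m k pmx * yk ⟨m + a.val, by omega⟩) := by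
        rw [hcs]
        noncomm_ring
      rw [e]
      refine Submodule.add_mem _ ?_ ?_
      · exact Fil_mono le_rfl (by omega) (Fil_mul h1 h6)
      · have h8 : (Cc k (m + k) : R D n) ∈ Fil D n (m + (k + 1)) (m + k - k) := Cc_mem (by omega)
        have h9 : 0 < m * k := Nat.mul_pos hm (by omega)
        exact Fil_mono le_rfl (by omega) (Fil_mul h8 (Fil_mono (by omega) le_rfl h3))
    · rw [dif_pos h] at h1
      have h4 : (⟨m + a.val, by omega⟩ : Fin n) = ⟨m + k, by omega⟩ := Fin.ext (by
        show m + a.val = m + k
        omega)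
      have h5 : (yk ⟨m + k, by omega⟩ * CS m k pmx : R D n) = CS m k pmx * yk ⟨m + k, by omega⟩ :=
        TriX_far_CS pmx _ (by
          show m + k ≤ m + k
          exact le_rfl)
      have e : (yk a * CS m (k + 1) pmx - CS m (k + 1) pmx * yk ⟨m + a.val, by omega⟩ : R D n) =
          (yk a * Cc k (m + k) - Cc k (m + k) * yk ⟨m + k, by omega⟩) * CS m k pmx := by
        rw [h4, hcs, sub_mul]
        simp only [mul_assoc]
        rw [h5]
      rw [e]
      exact Fil_mono le_rfl (by omega) (Fil_mul h1 h6)

end CA1492
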