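import Mathlib
import Pool.Agent.Lib.MP_ca1492_al.Alg.Alpha
import Pool.Agent.Lib.MP_ca1492_al.Alg.Free
import Pool.Agent.Lib.MP_ca1492_al.Alg.TriX

/-!
The matrix representation theta at the longest shuffle.
-/

namespace CA1492

open TensorProduct

variable {D : Dat}

/-- The longest shuffle. -/
def shfMax (m k : ℕ) : Shf m k :=
  ⟨fun j => ⟨j.val, by omega⟩, fun a b h => by
    rw [Fin.mk_lt_mk]
    exact h⟩

theorem Long_shf {m k : ℕ} (p : Shf m k) {j : ℕ} (hj : j < k) :
    shf p j = (p.1 ⟨j, hj⟩).val := by
  unfold shf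
  rw [dif_pos hj]

theorem Long_ext {m k : ℕ} {p q : Shf m k} (h : ∀ j < k, shf p j = shf q j) : p = q := by
  apply Subtype.ext
  funext j
  apply Fin.ext
  have h1 := h j.val j.isLt
  rwa [Long_shf p j.isLt, Long_shf q j.isLt] at h1

theorem Long_inj {m k : ℕ} (p : Shf m k) {i j : ℕ} (hi : i < k) (hj : j < k)
    (h : shf p i = shf p j) : i = j := by
  rw [Long_shf p hi, Long_shf p hj] at h
  have h1 := p.2.injective (Fin.ext h)
  exact congrArg Fin.val h1

theorem Long_max {m k : ℕ} {j : ℕ} (hj : j < k) : shf (shfMax m k) j = j := by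
  rw [Long_shf _ hj]
  rfl

theorem shfMax_facts (m k : ℕ) : (∀ j < k, shf (shfMax m k) j = j) ∧
    (CS m k (shf (shfMax m k)) : R D (m + k)) = CS m k pmx ∧
    lenS m k (shf (shfMax m k)) = m * k ∧
    ∀ p : Shf m k, lenS m k (shf p) ≤ m * k ∧ (p ≠ shfMax m k → lenS m k (shf p) < m * k) := by
  have h1 := CS_congr (D := D) (n := m + k) (m := m) (k := k) (p := shf (shfMax m k)) (p' := pmx)
    (fun j hj => Long_max hj)
  obtain ⟨f1, f2, f3⟩ := pmx_facts m k
  refine ⟨fun j hj => Long_max hj, h1.1, h1.2.trans f2, fun p => ?_⟩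
  obtain ⟨g1, g2⟩ := f3 (shf p) (isSh_shf p)
  refine ⟨g1, fun hne => lt_of_le_of_ne g1 fun he => hne ?_⟩
  exact Long_ext fun j hj => (g2 he j hj).trans (Long_max hj).symm

/-- Components of the elements of `Fil`: an element of Fil d has components only at shuffles of
length ≤ d.
PROOF: `Fil_le_span` (with n = m + k): x = ∑ CS m k p' * b, lenS ≤ d, b ∈ Par = range iota
(`iota_range`), p' replaced by a Shf (`exists_shf`, `CS_congr`); uniqueness `free_unique`. -/
theorem Fil_comp (m k d : ℕ) (x : R D (m + k)) (hx : x ∈ Fil D (m + k) (m + k) d) :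
    ∃ z : Shf m k → R D m ⊗[ℂ] R D k, x = ∑ p, CS m k (shf p) * iota D m k (z p) ∧
      ∀ p, d < lenS m k (shf p) → z p = 0 := by
  classical
  have h1 := Fil_le_span m k d x hx
  clear hx
  induction h1 using Submodule.span_induction with
  | mem x hx =>
    obtain ⟨p, b, hp, hd, hb, rfl⟩ := hx
    obtain ⟨q, hq⟩ := exists_shf hp
    rw [← iota_range] at hb
    obtain ⟨t, ht⟩ := hb
    have ht' : iota D m k t = b := ht
    have hc := CS_congr (D := D) (n := m + k) (m := m) (k := k) hq
    refine ⟨fun p' => if p' = q then t else 0, ?_, ?_⟩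
    · rw [free_sum_single, ht', hc.1]
    · intro p' hp'
      show (if p' = q then t else 0) = 0
      rw [if_neg]
      rintro rfl
      rw [hc.2] at hp'
      omega
  | zero =>
    refine ⟨fun _ => 0, ?_, fun _ _ => rfl⟩
    symm
    refine Finset.sum_eq_zero fun p _ => ?_
    rw [map_zero, mul_zero]
  | add x y _ _ hx hy =>
    obtain ⟨f, hf, hf0⟩ := hx
    obtain ⟨g, hg, hg0⟩ := hy
    refine ⟨fun p => f p + g p, ?_, fun p hp => ?_⟩
    · conv_lhs => rw [hf, hg]
      rw [← Finset.sum_add_distrib]
      refine Finset.sum_congr rfl fun p _ => ?_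
      rw [map_add, mul_add]
    · show f p + g p = 0
      rw [hf0 p hp, hg0 p hp, add_zero]
  | smul c x _ hx =>
    obtain ⟨f, hf, hf0⟩ := hx
    refine ⟨fun p => c • f p, ?_, fun p hp => ?_⟩
    · conv_lhs => rw [hf]
      rw [Finset.smul_sum]
      refine Finset.sum_congr rfl fun p _ => ?_
      rw [map_smul, mul_smul_comm]
    · show c • f p = 0
      rw [hf0 p hp, smul_zero]

/-- Main terms modulo short products. -/
theorem Long_theta {m k d : ℕ} {x : R D (m + k)} {q : Shf m k}
    (a : Shf m k → R D m ⊗[ℂ] R D k)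
    (h : x * CS m k (shf q) - ∑ p, CS m k (shf p) * iota D m k (a p) ∈
      Fil D (m + k) (m + k) d)
    (p : Shf m k) (hd : d < lenS m k (shf p)) : theta D m k x p q = a p := by
  obtain ⟨z, hz, hz0⟩ := Fil_comp m k d _ h
  have h1 : x * CS m k (shf q) = ∑ p, CS m k (shf p) * iota D m k (a p + z p) := by
    have h2 : ∑ p, CS m k (shf p) * iota D m k (a p + z p) =
        ∑ p, CS m k (shf p) * iota D m k (a p) + ∑ p, CS m k (shf p) * iota D m k (z p) := by
      rw [← Finset.sum_add_distrib]
      refine Finset.sum_congr rfl fun p _ => ?_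
      rw [map_add, mul_add]
    rw [h2, ← hz, add_sub_cancel]
  rw [theta_uniq m k x q (fun p => a p + z p) h1 p, hz0 p hd, add_zero]

/-- The same with one main term. -/
theorem Long_single {m k d : ℕ} {x : R D (m + k)} {q q' : Shf m k} (t : R D m ⊗[ℂ] R D k)
    (h : x * CS m k (shf q) - CS m k (shf q') * iota D m k t ∈ Fil D (m + k) (m + k) d)
    (p : Shf m k) (hd : d < lenS m k (shf p)) :
    theta D m k x p q = if p = q' then t else 0 := by
  refine Long_theta (fun p => if p = q' then t else 0) ?_ p hd
  rw [free_sum_single]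
  exact h

/-- theta x p q = 0 if x * CS q ∈ Fil d with d < lenS p. PROOF: `Fil_comp`, `theta_uniq`. -/
theorem theta_zero {m k d : ℕ} {x : R D (m + k)} {p q : Shf m k}
    (h : x * CS m k (shf q) ∈ Fil D (m + k) (m + k) d) (hd : d < lenS m k (shf p)) :
    theta D m k x p q = 0 := by
  have h1 := Long_theta (x := x) (q := q) (d := d) (fun _ => 0) (by
    rw [Finset.sum_eq_zero, sub_zero]
    · exact h
    · intro p _
      rw [map_zero, mul_zero]) p hd
  exact h1

theorem Long_iotaR (m k : ℕ) (y : R D k) : iota D m k (1 ⊗ₜ y) = iotaR D m k y := by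
  rw [iota, Algebra.TensorProduct.lift_tmul, map_one, one_mul]

/-- A nonzero component of `ps r` above the diagonal comes from the first case of the trichotomy. -/
theorem Long_ps {m k r : ℕ} (hr : r + 1 < m + k) (p q : Shf m k)
    (hl : lenS m k (shf q) < lenS m k (shf p)) (hne : theta D m k (ps r) p q ≠ 0) :
    ∃ j, j < k ∧ shf q j = r + 1 ∧ ∀ i < k, shf p i = Function.update (shf q) j r i := by
  rcases trichotomyX (D := D) (n := m + k) (isSh_shf q) hr with
    ⟨j, hj, hjr, hsh, _, hz⟩ | ⟨s, hs1, hs2, hz⟩ | hz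
  · refine ⟨j, hj, hjr, ?_⟩
    obtain ⟨p', hp'⟩ := exists_shf hsh
    have hc := (CS_congr (D := D) (n := m + k) (m := m) (k := k) hp').1
    have h1 := Long_single (D := D) (x := ps r) (q := q) (q' := p') 1 (by
      rw [map_one, mul_one, hc]
      exact hz) p hl
    by_cases h2 : p = p'
    · intro i hi
      rw [h2]
      exact hp' i hi
    · rw [if_neg h2] at h1
      exact absurd h1 hne
  · exfalso
    apply hne
    have h2 : (ps s : R D (m + k)) ∈ (iota D m k).range := by
      rw [iota_range]
      exact Algebra.subset_adjoin (Or.inr ⟨s, hs1, hs2, rfl⟩)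
    obtain ⟨t, ht⟩ := h2
    have ht' : iota D m k t = ps s := ht
    have h1 := Long_single (D := D) (x := ps r) (q := q) (q' := q) t (by
      rw [ht']
      exact hz) p hl
    rw [h1, if_neg]
    rintro rfl
    exact lt_irrefl _ hl
  · exact absurd (theta_zero hz hl) hne

/-- PROOF: `CS_ew`: ew w * CS q = ∑_{w'} ew w * CS q * ew w' = CS q * ∑_{w' : shW q w' = w} ew w'
(ew w * ew (shW q w') = 0 otherwise), w' = Fin.append u v, `iota_ew`. -/
theorem theta_ew (m k : ℕ) (w : Wd D (m + k)) (p q : Shf m k) :
    theta D m k (ew w) p q = if p = q then ∑ u : Wd D m, ∑ v : Wd D k,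
      (if shW m k (shf q) (Fin.append u v) = w then ew u ⊗ₜ[ℂ] ew v else 0) else 0 := by
  refine theta_uniq m k (ew w) q (fun p => if p = q then ∑ u : Wd D m, ∑ v : Wd D k,
      (if shW m k (shf q) (Fin.append u v) = w then ew u ⊗ₜ[ℂ] ew v else 0) else 0) ?_ p
  rw [free_sum_single]
  have h1 : (ew w * CS m k (shf q) : R D (m + k)) =
      ∑ w', CS m k (shf q) * (if shW m k (shf q) w' = w then ew w' else 0) := by
    calc (ew w * CS m k (shf q) : R D (m + k)) = ∑ w', ew w * CS m k (shf q) * ew w' := by
          rw [← Finset.mul_sum, (isRep_R D (m + k)).E_sum, mul_one]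
      _ = _ := by
          refine Finset.sum_congr rfl fun w' _ => ?_
          rw [mul_assoc, (CS_ew m k (shf q) w').1, ← mul_assoc, (isRep_R D (m + k)).E_mul]
          by_cases h : w = shW m k (shf q) w'
          · rw [if_pos h, if_pos h.symm, (CS_ew m k (shf q) w').1, h]
          · rw [if_neg h, if_neg (Ne.symm h), zero_mul, mul_zero]
  rw [h1, ← Finset.mul_sum]
  congr 1
  rw [map_sum, ← (Fin.appendEquiv (α := D.J) m k).sum_comp, Fintype.sum_prod_type]
  refine Finset.sum_congr rfl fun u _ => ?_
  rw [map_sum]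
  refine Finset.sum_congr rfl fun v _ => ?_
  have h2 : (Fin.appendEquiv (α := D.J) m k) (u, v) = Fin.append u v := rfl
  rw [h2]
  by_cases h : shW m k (shf q) (Fin.append u v) = w
  · rw [if_pos h, if_pos h, iota_ew]
  · rw [if_neg h, if_neg h, map_zero]

theorem Long_word {n m : ℕ} (w : Wd D n) (p : ℕ → ℕ) : ∀ k', m + k' ≤ n → (∀ i < k', p i = i) →
    ∀ j : Fin n, shW m k' p w j =
      if h1 : j.val < k' ∧ m + j.val < n then w ⟨m + j.val, h1.2⟩ else
        if j.val < m + k' then w ⟨j.val - k', by omega⟩ else w j := by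
  intro k'
  induction k' with
  | zero =>
    intro _ _ j
    rw [dif_neg (by omega)]
    split_ifs with h
    · rfl
    · rfl
  | succ k' ih =>
    intro hk hp j
    have ih' := ih (by omega) (fun i hi => hp i (by omega))
    have hpk : p k' = k' := hp k' (by omega)
    show cyW (shW m k' p w) (p k') (m + k') j = _
    rw [hpk, cyW_apply _ (by omega) (by omega : m + k' < n)]
    by_cases h1 : j.val < k'
    · rw [if_pos (Or.inl h1), ih' j, dif_pos ⟨h1, by omega⟩, dif_pos ⟨by omega, by omega⟩]
    · by_cases h2 : m + k' < j.val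
      · rw [if_pos (Or.inr h2), ih' j, dif_neg (by omega), if_neg (by omega), dif_neg (by omega),
          if_neg (by omega)]
      · rw [if_neg (by omega)]
        by_cases h3 : j.val = k'
        · rw [if_pos h3, ih', dif_neg (by simp), if_neg (by simp),
            dif_pos ⟨by omega, by omega⟩]
          congr 1
          ext
          simp only
          omega
        · rw [if_neg h3, ih', dif_neg (by simp only; omega), if_pos (by simp only; omega),
            dif_neg (by omega), if_pos (by omega)]
          congr 1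
          ext
          simp only
          omega

/-- The word at the longest shuffle. PROOF: `cyW_apply`, induction on k (for the truncated products
CS m k' pmx, k' ≤ k, the word is: v 0, ..., v (k'-1), u, v k', ..., v (k-1)). -/
theorem shW_max (m k : ℕ) (u : Wd D m) (v : Wd D k) (j : Fin (m + k)) :
    shW m k (shf (shfMax m k)) (Fin.append u v) j =
      if h : j.val < k then v ⟨j.val, h⟩ else u ⟨j.val - k, by omega⟩ := by
  rw [Long_word (Fin.append u v) (shf (shfMax m k)) k le_rfl (fun i hi => Long_max hi) j]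
  by_cases h : j.val < k
  · rw [dif_pos ⟨h, by omega⟩, dif_pos h]
    have h1 : (⟨m + j.val, by omega⟩ : Fin (m + k)) = Fin.natAdd m ⟨j.val, h⟩ := rfl
    rw [h1, Fin.append_right]
  · rw [dif_neg (by omega), if_pos j.isLt, dif_neg h]
    have h1 : (⟨j.val - k, by omega⟩ : Fin (m + k)) = Fin.castAdd k ⟨j.val - k, by omega⟩ := rfl
    rw [h1, Fin.append_left]

theorem Long_zero_eq {k : ℕ} (q : Shf 0 k) : q = shfMax 0 k := by
  by_contra h
  have h1 := ((shfMax_facts (D := ⟨Unit, fun _ _ => false, fun _ => rfl, fun _ _ h => by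
    simp at h⟩) 0 k).2.2.2 q).2 h
  omega

theorem Long_zero_CS {k : ℕ} : (CS 0 k (shf (shfMax 0 k)) : R D (0 + k)) = 1 := by
  rw [← Span_CS_one (D := D) (n := 0 + k) 0 k]
  refine (CS_congr (D := D) fun j hj => ?_).1
  rw [Long_max hj, Nat.zero_add]

theorem Long_len (m k : ℕ) : lenS m k (shf (shfMax m k)) = m * k := by
  have h1 := (CS_congr (D := ⟨Unit, fun _ _ => false, fun _ => rfl, fun _ _ h => by
    simp at h⟩) (n := m + k) (m := m) (k := k) (p := shf (shfMax m k)) (p' := pmx)
    (fun j hj => Long_max hj)).2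
  exact h1.trans (pmx_facts m k).2.1

/-- Row of the longest shuffle for ps r, r + 1 < k.
PROOF. m = 0: Shf 0 k is a point, iota is onto. m ≥ 1. q = shfMax: `ps_long_right`, ps (m + r) =
iota (1 ⊗ ps r) (`iotaR_spec`), `theta_zero`. q ≠ shfMax: lenS q < m k; `trichotomyX`: in the first case
with CS (update q j r) having length m k (otherwise everything is in Fil (m k - 1)) we would have
update q j r = pmx on j < k, so j = r and q r = r + 1, q (r+1) = r + 1, contradiction to q strictly
increasing. The second case has the error in Fil (lenS q) and its main term has only the component q. -/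
theorem theta_max_ps (m k r : ℕ) (h : r + 1 < k) (q : Shf m k) :
    theta D m k (ps r) (shfMax m k) q = if q = shfMax m k then 1 ⊗ₜ ps r else 0 := by
  obtain ⟨f1, f2, f3, f4⟩ := shfMax_facts (D := D) m k
  rcases Nat.eq_zero_or_pos m with rfl | hm
  · obtain rfl := Long_zero_eq q
    rw [if_pos rfl]
    have h1 := theta_uniq 0 k (ps r : R D (0 + k)) (shfMax 0 k)
      (fun p => if p = shfMax 0 k then 1 ⊗ₜ ps r else 0) (by
        rw [free_sum_single, Long_zero_CS, one_mul, mul_one, Long_iotaR, (iotaR_spec D 0 k).2.2 r h]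
        exact congrArg ps (Nat.zero_add r).symm) (shfMax 0 k)
    rw [h1, if_pos rfl]
  · by_cases hq : q = shfMax m k
    · subst hq
      rw [if_pos rfl]
      have h1 := Long_single (D := D) (x := ps r) (q := shfMax m k) (q' := shfMax m k)
        (d := m * k - 1) (1 ⊗ₜ ps r) (by
          rw [Long_iotaR, (iotaR_spec D m k).2.2 r h, f2]
          exact ps_long_right hm h) (shfMax m k) (by
            rw [f3]
            have : 0 < m * k := Nat.mul_pos hm (by omega)
            omega)
      rw [h1, if_pos rfl]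
    · rw [if_neg hq]
      by_contra hne
      obtain ⟨j, hj, hjr, hall⟩ := Long_ps (D := D) (by omega) (shfMax m k) q (by
        rw [f3]
        exact (f4 q).2 hq) hne
      have h1 := hall j hj
      rw [Function.update_self, f1 j hj] at h1
      have h2 := hall (r + 1) h
      rw [Function.update_of_ne (by omega), f1 (r + 1) h] at h2
      have h3 := Long_inj q hj h (hjr.trans h2)
      omega

/-- The same for yk. PROOF: for q ≠ shfMax: yk * CS q ∈ Fil (lenS q) (`CS_mem`, `mem_Fil`, `Fil_mul`);
for shfMax: `yk_long` (m = 0: as before). -/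
theorem theta_max_yk (m k : ℕ) (j : Fin k) (q : Shf m k) :
    theta D m k (yk ⟨j.val, by omega⟩) (shfMax m k) q =
      if q = shfMax m k then 1 ⊗ₜ yk j else 0 := by
  obtain ⟨f1, f2, f3, f4⟩ := shfMax_facts (D := D) m k
  rcases Nat.eq_zero_or_pos m with rfl | hm
  · obtain rfl := Long_zero_eq q
    rw [if_pos rfl]
    have h1 := theta_uniq 0 k (yk ⟨j.val, by omega⟩ : R D (0 + k)) (shfMax 0 k)
      (fun p => if p = shfMax 0 k then 1 ⊗ₜ yk j else 0) (by
        rw [free_sum_single, Long_zero_CS, one_mul, mul_one, Long_iotaR, (iotaR_spec D 0 k).2.1 j]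
        congr 1
        ext
        simp) (shfMax 0 k)
    rw [h1, if_pos rfl]
  · by_cases hq : q = shfMax m k
    · subst hq
      rw [if_pos rfl]
      have h1 := Long_single (D := D) (x := yk ⟨j.val, by omega⟩) (q := shfMax m k)
        (q' := shfMax m k) (d := m * k - 1) (1 ⊗ₜ yk j) (by
          rw [Long_iotaR, (iotaR_spec D m k).2.1 j, f2]
          exact yk_long hm le_rfl ⟨j.val, by omega⟩ j.isLt) (shfMax m k) (by
            rw [f3]
            have : 0 < m * k := Nat.mul_pos hm (by have := j.isLt; omega)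
            omega)
      rw [h1, if_pos rfl]
    · rw [if_neg hq]
      refine theta_zero (d := 0 + lenS m k (shf q))
        (Fil_mul ((mem_Fil (D := D) (n := m + k)).2.2.2.1 (m + k) _) (CS_mem (shf q) le_rfl)) ?_
      rw [Nat.zero_add, f3]
      exact (f4 q).2 hq

/-- Raising step.
PROOF. Take the smallest j with p j ≠ j (p j > j), r = p j - 1; if i + 1 = j then p i = i < r
(p j > j gives r ≥ j > i). `ps_CS_up` gives p' (as a Shf: `exists_shf`) with ps r * CS p = CS p' exactly, so
theta (ps r) p' p = 1 (`theta_uniq` with the single term). For q ≠ p with lenS q ≤ lenS p: `trichotomyX`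
for q: in the first case with component at p' ≠ 0 we need lenS (update q i r) = lenS q + 1 ≥ lenS p' and
update q i r = p' on i < k; then p' i = r = p' j gives i = j (p' strictly increasing) and q = p. -/
theorem theta_raise {m k : ℕ} (p : Shf m k) (hp : p ≠ shfMax m k) :
    ∃ (r : ℕ) (p' : Shf m k), lenS m k (shf p') = lenS m k (shf p) + 1 ∧
      theta D m k (ps r) p' p = 1 ∧
      ∀ q, q ≠ p → lenS m k (shf q) ≤ lenS m k (shf p) → theta D m k (ps r) p' q = 0 := by
  classical
  have hex : ∃ j, j < k ∧ shf p j ≠ j := by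
    by_contra hcon
    push Not at hcon
    exact hp (Long_ext fun j hj => (hcon j hj).trans (Long_max hj).symm)
  obtain ⟨⟨hj, hjne⟩, hmin⟩ := And.intro (Nat.find_spec hex) (fun i => Nat.find_min hex (m := i))
  set j := Nat.find hex with hjdef
  have hlow : ∀ i < j, shf p i = i := by
    intro i hi
    have h1 := hmin i hi
    by_contra h2
    exact h1 ⟨by omega, h2⟩
  have hsh := isSh_shf p
  have hgt : j < shf p j := by
    rcases Nat.eq_zero_or_pos j with h0 | h0
    · rw [h0] at hjne ⊢
      omega
    · have h1 := hsh.2 (j - 1) (by omega)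
      rw [hlow (j - 1) (by omega), show j - 1 + 1 = j by omega] at h1
      omega
  have hle := hsh.1 j hj
  obtain ⟨g1, g2, g3⟩ := ps_CS_up (D := D) (n := m + k) (r := shf p j - 1) hsh hj (by omega) (by
    intro i hi
    rw [hlow i (by omega)]
    omega)
  obtain ⟨p', hp'⟩ := exists_shf g1
  have hc := CS_congr (D := D) (n := m + k) (m := m) (k := k) hp'
  have hlen : lenS m k (shf p') = lenS m k (shf p) + 1 := hc.2.trans g2
  refine ⟨shf p j - 1, p', hlen, ?_, ?_⟩
  · have h1 := theta_uniq m k (ps (shf p j - 1) : R D (m + k)) p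
      (fun s => if s = p' then 1 else 0) (by
        rw [free_sum_single, map_one, mul_one, hc.1]
        exact g3) p'
    rw [h1, if_pos rfl]
  · intro q hq hql
    by_contra hne
    obtain ⟨i, hi, hir, hall⟩ := Long_ps (D := D) (by omega) p' q (by omega) hne
    have h1 := hall i hi
    rw [Function.update_self] at h1
    have h2 := hp' j hj
    rw [Function.update_self] at h2
    have h3 : i = j := Long_inj p' hi hj (h1.trans h2.symm)
    subst h3
    apply hq
    refine Long_ext fun l hl => ?_
    by_cases h4 : l = j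
    · rw [h4, hir]
      omega
    · have h5 := hall l hl
      have h6 := hp' l hl
      rw [Function.update_of_ne h4] at h5 h6
      exact h5.symm.trans h6

end CA1492
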